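import Pool.Agent.Lib.MP_f4a5b0_an.Good

set_option autoImplicit false

namespace Pool.Agent.Lib.MP_f4a5b0_an

open Real

lemma det3_arm {R : Type*} [CommRing R] (a1 b1 a2 b2 f1 f2 p1 p2 q zx zy zn : R) :
    det3 (a1 + (f1 * a1 + f2 * b1) * p1) (b1 + (f1 * a1 + f2 * b1) * p2) (-q * (f1 * a1 + f2 * b1))
      (a2 + (f1 * a2 + f2 * b2) * p1) (b2 + (f1 * a2 + f2 * b2) * p2) (-q * (f1 * a2 + f2 * b2))
      zx zy zn =
    (a1 * b2 - b1 * a2) * (q * (f1 * zx + f2 * zy) + (f1 * p1 + f2 * p2 + 1) * zn) := by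
  unfold det3; ring

lemma one_le_re_E (m : ℤ) (hm : Odd m) (h1 : 1 ≤ m) : 1 ≤ (E m).re := by
  have h := (re_E_bounds m hm h1).1
  have h2 := exp_pos (m * ell)
  have : (0 : ℝ) < (E m).re := by linarith
  have : 0 < (E m).re := by exact_mod_cast this
  omega

lemma arm_small (q : ℤ) (hq : 1 ≤ q) (p : O) (m c : ℤ) (hm : Odd m) (hm1 : 1 ≤ m)
    (η1 η2 θ1 θ2 β a1 a2 : ℝ)
    (h1 : q * η1 - s1 p = (s1 (E c) + θ1) / (E m).re)
    (h2 : q * η2 - s2 p = (s2 (E c) + θ2) / (E m).re)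
    (hθ1 : |θ1| ≤ β) (hθ2 : |θ2| ≤ β)
    (ha1 : exp a1 = q * exp ((m - c) * ell))
    (hlow : (q : ℝ) ≤ exp a2 * exp ((m - c) * ell))
    (hH : exp a2 * exp ((m - c) * ell) ≤ exp (m * ell))
    (hM1 : exp a1 ≤ exp (m * ell)) (hM2 : exp a2 ≤ exp (m * ell))
    (hβ : 3 * β * exp (m * ell) ^ 2 ≤ 1) (i : ℤ)
    (hi1 : exp (i * ell) ≤ exp a2 * exp ((m - c) * ell) * exp ell)
    (hi2 : exp a2 * exp ((m - c) * ell) ≤ exp (i * ell) * exp ell) :
    Small 11 a1 a2 η1 η2 (((E (c - m + i)).re + (E i).re * p.re : ℤ) : ℝ)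
      (((E (c - m + i)).im + (E i).re * p.im : ℤ) : ℝ) ((-q * (E i).re : ℤ) : ℝ) := by
  set W := exp ((m - c) * ell) with hW
  set M := exp (m * ell) with hM
  set H := exp a2 * W with hHdef
  set N : ℝ := ((E m).re : ℝ) with hN
  set ν1 := exp (i * ell) with hν1
  set ν2 := s2 (E i) with hν2
  set r : ℝ := ((E i).re : ℝ) with hr
  have hWpos : 0 < W := exp_pos _
  have hMpos : 0 < M := exp_pos _
  have hν1pos : 0 < ν1 := exp_pos _
  have hq' : (1 : ℝ) ≤ q := by exact_mod_cast hq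
  have hH1 : 1 ≤ H := hq'.trans hlow
  have hHpos : 0 < H := by linarith
  have hN1 : 1 ≤ N := by rw [hN]; exact_mod_cast one_le_re_E m hm hm1
  have hNlow : M / 4 ≤ N := (re_E_bounds m hm hm1).1
  have h2N : 2 * N = M - M⁻¹ := by rw [hN, two_re_E_odd m hm, exp_neg]
  have he := exp_ell_lt
  have hν2abs : |ν2| = ν1⁻¹ := by rw [hν2, abs_s2_E, exp_neg]
  have hrr : r = (ν1 + ν2) / 2 := by rw [hr, re_eq, s1_E]
  have hν1le : ν1 ≤ 2.5 * H := by nlinarith
  have hν2le : |ν2| * H ≤ 2.5 := by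
    rw [hν2abs, inv_mul_le_iff₀ hν1pos]; nlinarith
  have hν2le' : |ν2| ≤ 2.5 * H := by nlinarith [abs_nonneg ν2]
  have hrabs : |r| ≤ 2.5 * H := by
    rw [hrr, abs_div, abs_two]
    have := abs_add_le ν1 ν2
    rw [abs_of_pos hν1pos] at this
    linarith
  set κ := (ν1 * M⁻¹ + ν2 * M) / (2 * N) with hκ
  have hκle : H * |κ| ≤ 10 := by
    rw [hκ, abs_div, abs_of_pos (by linarith : 0 < 2 * N), ← mul_div_assoc,
      div_le_iff₀ (by linarith)]
    have t1 := abs_add_le (ν1 * M⁻¹) (ν2 * M)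
    rw [abs_of_pos (by positivity : 0 < ν1 * M⁻¹), abs_mul, abs_of_pos hMpos] at t1
    have t2 : H * (ν1 * M⁻¹) ≤ 2.5 * M := by
      rw [← mul_assoc, mul_inv_le_iff₀ hMpos]; nlinarith
    have t3 : H * (|ν2| * M) ≤ 2.5 * M := by nlinarith
    have t4 : H * |ν1 * M⁻¹ + ν2 * M| ≤ H * (ν1 * M⁻¹ + |ν2| * M) :=
      mul_le_mul_of_nonneg_left t1 hHpos.le
    nlinarith
  have hβ0 : 0 ≤ β := (abs_nonneg _).trans hθ1
  have herr : ∀ A θ : ℝ, 0 < A → A ≤ M → |θ| ≤ β → |A * (r * θ / N)| ≤ 1 := by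
    intro A θ hA hAM hθ
    rw [abs_mul, abs_div, abs_mul, abs_of_pos hA, abs_of_pos (by linarith : 0 < N),
      ← mul_div_assoc, div_le_iff₀ (by linarith)]
    have t1 : |r| * |θ| ≤ (2.5 * M) * β :=
      mul_le_mul (by linarith) hθ (abs_nonneg _) (by positivity)
    have t2 : A * (|r| * |θ|) ≤ M * ((2.5 * M) * β) :=
      mul_le_mul hAM t1 (by positivity) hMpos.le
    nlinarith
  refine ⟨?_, ?_, ?_⟩
  · have e1 : (((E (c - m + i)).re + (E i).re * p.re : ℤ) : ℝ) +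
        (((E (c - m + i)).im + (E i).re * p.im : ℤ) : ℝ) * √2 + ((-q * (E i).re : ℤ) : ℝ) * η1 =
        s1 (E (c - m + i)) - r * (q * η1 - s1 p) := by
      rw [s1_apply, s1_apply]; push_cast; ring
    have e2 : s1 (E (c - m + i)) = W⁻¹ * ν1 := by
      rw [s1_E, hW, hν1, ← exp_neg, ← exp_add]; push_cast; ring_nf
    have e3 : s1 (E c) = W⁻¹ * M := by
      rw [s1_E, hW, hM, ← exp_neg, ← exp_add]; ring_nf
    rw [e1, h1, e2, e3]
    have e4 : exp a1 * (W⁻¹ * ν1 - r * ((W⁻¹ * M + θ1) / N)) =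
        -(q * κ) - exp a1 * (r * θ1 / N) := by
      have : exp a1 * W⁻¹ = q := by rw [ha1]; field_simp
      have e5 : ν1 - r * M / N = -κ := by
        rw [hκ, hrr]
        have : ν1 = ν1 * (2 * N) / (2 * N) := by field_simp
        rw [eq_neg_iff_add_eq_zero]
        have hN0 : N ≠ 0 := by linarith
        field_simp
        have hMM : M * M⁻¹ = 1 := by field_simp
        linear_combination (M * ν1) * h2N - ν1 * hMM
      calc exp a1 * (W⁻¹ * ν1 - r * ((W⁻¹ * M + θ1) / N))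
          = (exp a1 * W⁻¹) * (ν1 - r * M / N) - exp a1 * (r * θ1 / N) := by ring
        _ = _ := by rw [this, e5]; ring
    rw [e4]
    have t1 := herr (exp a1) θ1 (exp_pos _) hM1 hθ1
    have t2 : |(q : ℝ) * κ| ≤ 10 := by
      rw [abs_mul, abs_of_pos (by linarith : (0 : ℝ) < q)]
      nlinarith [abs_nonneg κ]
    rw [abs_le] at *
    constructor <;> linarith [t1.1, t1.2, t2.1, t2.2]
  · have e1 : (((E (c - m + i)).re + (E i).re * p.re : ℤ) : ℝ) -
        (((E (c - m + i)).im + (E i).re * p.im : ℤ) : ℝ) * √2 + ((-q * (E i).re : ℤ) : ℝ) * η2 =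
        s2 (E (c - m + i)) - r * (q * η2 - s2 p) := by
      rw [s2_apply, s2_apply]; push_cast; ring
    set u := s2 (E (c - m)) with hu
    have e2 : s2 (E (c - m + i)) = u * ν2 := by rw [E_add, map_mul]
    have e3 : s2 (E c) = -(u * M⁻¹) := by
      have : c = (c - m) + m := by ring
      rw [this, E_add, map_mul, s2_E_odd m hm, exp_neg]; ring
    have hu' : |u| = W := by rw [hu, abs_s2_E, hW]; push_cast; ring_nf
    rw [e1, h2, e2, e3]
    have e4 : exp a2 * (u * ν2 - r * ((-(u * M⁻¹) + θ2) / N)) =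
        (exp a2 * u) * κ - exp a2 * (r * θ2 / N) := by
      have e5 : ν2 + r * M⁻¹ / N = κ := by
        rw [hκ, hrr]
        have hN0 : N ≠ 0 := by linarith
        field_simp
        have hMM : M * M⁻¹ = 1 := by field_simp
        linear_combination (M * ν2) * h2N - ν2 * hMM
      rw [← e5]; ring
    rw [e4]
    have t1 := herr (exp a2) θ2 (exp_pos _) hM2 hθ2
    have t2 : |exp a2 * u * κ| ≤ 10 := by
      rw [abs_mul, abs_mul, abs_of_pos (exp_pos _), hu']; exact hκle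
    rw [abs_le] at *
    constructor <;> linarith [t1.1, t1.2, t2.1, t2.2]
  · have e1 : exp (-(a1 + a2)) * ((-q * (E i).re : ℤ) : ℝ) = -(r / H) := by
      rw [exp_neg, exp_add, ha1, hHdef]; push_cast
      have := exp_pos a2
      field_simp
      rfl
    rw [e1, abs_neg, abs_div, abs_of_pos hHpos, div_le_iff₀ hHpos]
    linarith

lemma good_arm (q : ℤ) (hq : 1 ≤ q) (p : O) (m c : ℤ) (hm : Odd m) (hm1 : 1 ≤ m)
    (η1 η2 θ1 θ2 β a1 a2 : ℝ)
    (h1 : q * η1 - s1 p = (s1 (E c) + θ1) / (E m).re)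
    (h2 : q * η2 - s2 p = (s2 (E c) + θ2) / (E m).re)
    (hθ1 : |θ1| ≤ β) (hθ2 : |θ2| ≤ β)
    (hcop : IsCoprime q ((E (m - c) * p).re + 1))
    (ha1 : exp a1 = q * exp ((m - c) * ell))
    (hlow : (q : ℝ) ≤ exp a2 * exp ((m - c) * ell))
    (hH : exp a2 * exp ((m - c) * ell) ≤ exp (m * ell))
    (hM1 : exp a1 ≤ exp (m * ell)) (hM2 : exp a2 ≤ exp (m * ell))
    (hβ : 3 * β * exp (m * ell) ^ 2 ≤ 1) : Good 24 a1 a2 η1 η2 := by
  have hq' : (1 : ℝ) ≤ q := by exact_mod_cast hq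
  obtain ⟨j, hj1, hj2⟩ := exists_scale (exp a2 * exp ((m - c) * ell)) (by positivity)
  have he := two_lt_exp_ell
  have hej : exp (((j + 1 : ℤ) : ℝ) * ell) = exp (j * ell) * exp ell := by
    rw [← exp_add]; push_cast; ring_nf
  have hjp := exp_pos (j * ell)
  have S1 := arm_small q hq p m c hm hm1 η1 η2 θ1 θ2 β a1 a2 h1 h2 hθ1 hθ2 ha1 hlow hH hM1 hM2 hβ
    j (by nlinarith) hj2
  have S2 := arm_small q hq p m c hm hm1 η1 η2 θ1 θ2 β a1 a2 h1 h2 hθ1 hθ2 ha1 hlow hH hM1 hM2 hβ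
    (j + 1) (by rw [hej]; nlinarith) (by rw [hej]; nlinarith)
  obtain ⟨x, y, hxy⟩ := hcop
  set w := E (m - c) with hw
  have hr : ∀ i : ℤ, (E i).re = w.re * (E (c - m + i)).re + (2 * w.im) * (E (c - m + i)).im := by
    intro i
    have : E i = w * E (c - m + i) := by rw [hw, ← E_add]; congr 1; ring
    conv_lhs => rw [this]
    rw [Zsqrtd.re_mul]
  have hone : w.re * (E (c - m)).re + (2 * w.im) * (E (c - m)).im = 1 := by
    have := hr 0
    rw [E_zero, add_zero] at this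
    simpa using this.symm
  have hp : (w * p).re = w.re * p.re + (2 * w.im) * p.im := by rw [Zsqrtd.re_mul]
  have hdet := det_E (c - m + j)
  have hS3 : Small 2 a1 a2 η1 η2 (exp (-a1)) (exp (-a1) / √2) 0 := by
    have hs := sqrt2_gt
    refine ⟨?_, ?_, ?_⟩
    · have : exp a1 * (exp (-a1) + exp (-a1) / √2 * √2 + 0 * η1) = 2 := by
        rw [exp_neg]; have := exp_pos a1; field_simp; ring
      rw [this]; norm_num
    · have : (exp (-a1) - exp (-a1) / √2 * √2 + 0 * η2) = 0 := by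
        field_simp; ring
      rw [this]; norm_num
    · simp
  have hz3 : det3 ((E (c - m + j)).re + (E j).re * p.re) ((E (c - m + j)).im + (E j).re * p.im)
      (-q * (E j).re) ((E (c - m + (j + 1))).re + (E (j + 1)).re * p.re)
      ((E (c - m + (j + 1))).im + (E (j + 1)).re * p.im) (-q * (E (j + 1)).re)
      (x * (E (c - m)).re) (x * (E (c - m)).im) y =
      (E (c - m + j)).re * (E (c - m + j + 1)).im - (E (c - m + j)).im * (E (c - m + j + 1)).re := by
    rw [hr j, hr (j + 1), det3_arm, ← add_assoc]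
    have : q * (w.re * (x * (E (c - m)).re) + 2 * w.im * (x * (E (c - m)).im)) +
        (w.re * p.re + 2 * w.im * p.im + 1) * y = 1 := by
      rw [hp] at hxy
      linear_combination (q * x) * hone + hxy
    rw [this, mul_one]
  have := good_of_plane (R := 11) (R' := 2) _ _ _ _ _ _ (x * (E (c - m)).re) (x * (E (c - m)).im) y
    _ _ _ (by rw [hz3]; exact hdet) ?_ S1 S2 hS3
  · convert this using 1; norm_num
  · have hz3' := congrArg (Int.cast : ℤ → ℝ) hz3
    have hc : ∀ x1 y1 n1 x2 y2 n2 x3 y3 n3 : ℤ, ((det3 x1 y1 n1 x2 y2 n2 x3 y3 n3 : ℤ) : ℝ) =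
        det3 (x1 : ℝ) y1 n1 x2 y2 n2 x3 y3 n3 := by
      intros; unfold det3; push_cast; ring
    rw [hc] at hz3'
    rw [hz3', hr j, hr (j + 1)]
    push_cast
    have := det3_arm ((E (c - m + j)).re : ℝ) (E (c - m + j)).im (E (c - m + (j + 1))).re
      (E (c - m + (j + 1))).im w.re (2 * w.im) p.re p.im q (exp (-a1)) (exp (-a1) / √2) 0
    rw [this, ← add_assoc]
    have h3 : (q : ℝ) * (w.re * exp (-a1) + 2 * w.im * (exp (-a1) / √2)) = 1 := by
      have hs := sqrt2_gt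
      have hs2 : √2 * √2 = 2 := Real.mul_self_sqrt (by norm_num)
      have e1 : (w.re : ℝ) * exp (-a1) + 2 * w.im * (exp (-a1) / √2) = s1 w * exp (-a1) := by
        rw [s1_apply]; field_simp
        linear_combination (-(w.im : ℝ)) * hs2
      rw [e1, hw, s1_E, exp_neg, ha1]; push_cast; field_simp
    rw [h3]; ring

end Pool.Agent.Lib.MP_f4a5b0_an
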