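import Pool.Agent.Lib.MP_f4a5b0_an.Arm

set_option autoImplicit false

namespace Pool.Agent.Lib.MP_f4a5b0_an

open Real

/-- The flowed lattice has a nonzero vector of sup norm at most δ. -/
def ShortP (δ a1 a2 η1 η2 : ℝ) : Prop :=
  ∃ x y n : ℤ, ¬(x = 0 ∧ y = 0 ∧ n = 0) ∧ Small δ a1 a2 η1 η2 x y n

/-- The dual of the flowed lattice has a nonzero vector of sup norm at most δ. -/
def ShortD (δ a1 a2 η1 η2 : ℝ) : Prop :=
  ∃ (x y n : ℤ) (ω1 ω2 ω3 : ℝ), ¬(x = 0 ∧ y = 0 ∧ n = 0) ∧ |ω1| ≤ δ ∧ |ω2| ≤ δ ∧ |ω3| ≤ δ ∧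
    ω1 * exp a1 + ω2 * exp a2 = x ∧ (ω1 * exp a1 - ω2 * exp a2) * √2 = y ∧
    ω1 * exp a1 * η1 + ω2 * exp a2 * η2 + ω3 * exp (-(a1 + a2)) = n

lemma exists_window (a A P D : ℝ) (hP : 0 < P) (hD : 0 ≤ D)
    (h : ∀ i : ℤ, D < |a - (A + i * P)|) :
    ∃ i : ℤ, a < A + i * P - D ∧ A + (i - 1) * P + D < a := by
  refine ⟨⌈(a - A) / P⌉, ?_, ?_⟩
  · have h1 := Int.le_ceil ((a - A) / P)
    rw [div_le_iff₀ hP] at h1
    have h2 := h ⌈(a - A) / P⌉
    rw [abs_of_nonpos (by linarith)] at h2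
    linarith
  · have h1 := Int.ceil_lt_add_one ((a - A) / P)
    have h1' : (⌈(a - A) / P⌉ - 1 : ℝ) < (a - A) / P := by linarith
    rw [lt_div_iff₀ hP] at h1'
    have h2 := h (⌈(a - A) / P⌉ - 1)
    push_cast at h2
    rw [abs_of_nonneg (by linarith)] at h2
    linarith

lemma cover_up (q : ℤ) (hq : 1 ≤ q) (p : O) (m c : ℤ) (hm : Odd m) (hm1 : 1 ≤ m)
    (η1 η2 θ1 θ2 β a1 a2 δ D T : ℝ)
    (h1 : q * η1 - s1 p = (s1 (E c) + θ1) / (E m).re)
    (h2 : q * η2 - s2 p = (s2 (E c) + θ2) / (E m).re)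
    (hθ1 : |θ1| ≤ β) (hθ2 : |θ2| ≤ β)
    (hD : 8 * q * exp (-D) ≤ δ) (hβ : 2 * β * exp T ≤ δ)
    (ha1 : a1 ≤ T) (ha2 : a2 ≤ T) (hh : D ≤ a1 + a2) (i : ℤ)
    (hi1 : a1 ≤ (m - c + 2 * m * i) * ell - D) (hi2 : a2 ≤ (m + c - 2 * m * i) * ell - D) :
    ShortP δ a1 a2 η1 η2 := by
  obtain ⟨l, hl⟩ := E_two_mul m hm (-i)
  set N : ℝ := ((E m).re : ℝ) with hN
  have hq' : (1 : ℝ) ≤ q := by exact_mod_cast hq
  have hN1 : 1 ≤ N := by rw [hN]; exact_mod_cast one_le_re_E m hm hm1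
  have hNlow : exp (m * ell) / 4 ≤ N := (re_E_bounds m hm hm1).1
  have hβ0 : 0 ≤ β := (abs_nonneg _).trans hθ1
  have hE : E (c + 2 * m * (-i)) = E c + (((E m).re : ℤ) : O) * (E c * l) := by
    rw [E_add, hl]; ring
  have hDp := exp_pos (-D)
  have key : ∀ a u θ : ℝ, a ≤ T → |θ| ≤ β → exp a * |u| ≤ exp (m * ell) * exp (-D) →
      |exp a * ((u + θ) / N)| ≤ δ := by
    intro a u θ ha hθ hu
    rw [abs_mul, abs_div, abs_of_pos (exp_pos a), abs_of_pos (by linarith : 0 < N),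
      ← mul_div_assoc, div_le_iff₀ (by linarith)]
    have t1 := abs_add_le u θ
    have t2 : exp a * |u + θ| ≤ exp a * (|u| + β) :=
      mul_le_mul_of_nonneg_left (by linarith) (exp_pos a).le
    have t3 : exp a * β ≤ exp T * β := mul_le_mul_of_nonneg_right (exp_le_exp.mpr ha) hβ0
    have t4 : exp (m * ell) * exp (-D) ≤ 4 * N * exp (-D) :=
      mul_le_mul_of_nonneg_right (by linarith) hDp.le
    have t5 : 8 * exp (-D) ≤ δ := by nlinarith
    have t6 : 4 * N * exp (-D) ≤ δ / 2 * N := by nlinarith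
    have t7 : δ / 2 ≤ δ / 2 * N := by nlinarith
    nlinarith
  refine ⟨(E c * l - p).re, (E c * l - p).im, q, by omega, ?_, ?_, ?_⟩
  · have e1 : (((E c * l - p).re : ℤ) : ℝ) + (((E c * l - p).im : ℤ) : ℝ) * √2 + q * η1 =
        (s1 (E (c + 2 * m * (-i))) + θ1) / N := by
      rw [← s1_apply, map_sub, hE, map_add, map_mul s1 (((E m).re : ℤ) : O), map_intCast, ← hN]
      have : N ≠ 0 := by linarith
      field_simp
      field_simp at h1
      linarith
    rw [e1]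
    apply key a1 _ θ1 ha1 hθ1
    rw [abs_s1_E, ← exp_add, ← exp_add]
    apply exp_le_exp.mpr; push_cast; linarith
  · have e1 : (((E c * l - p).re : ℤ) : ℝ) - (((E c * l - p).im : ℤ) : ℝ) * √2 + q * η2 =
        (s2 (E (c + 2 * m * (-i))) + θ2) / N := by
      rw [← s2_apply, map_sub, hE, map_add, map_mul s2 (((E m).re : ℤ) : O), map_intCast, ← hN]
      have : N ≠ 0 := by linarith
      field_simp
      field_simp at h2
      linarith
    rw [e1]
    apply key a2 _ θ2 ha2 hθ2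
    rw [abs_s2_E, ← exp_add, ← exp_add]
    apply exp_le_exp.mpr; push_cast; linarith
  · rw [abs_of_pos (by positivity)]
    have : exp (-(a1 + a2)) ≤ exp (-D) := exp_le_exp.mpr (by linarith)
    nlinarith

lemma cover_down (q : ℤ) (hq : 1 ≤ q) (p : O) (m c : ℤ) (hm : Odd m) (hm1 : 1 ≤ m)
    (η1 η2 θ1 θ2 β a1 a2 δ D T : ℝ)
    (h1 : q * η1 - s1 p = (s1 (E c) + θ1) / (E m).re)
    (h2 : q * η2 - s2 p = (s2 (E c) + θ2) / (E m).re)
    (hθ1 : |θ1| ≤ β) (hθ2 : |θ2| ≤ β) (hD0 : 0 ≤ D)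
    (hD : 8 * q * exp (-D) ≤ δ) (hβ : 2 * β * exp (3 * T) ≤ δ)
    (ha1 : a1 ≤ T) (ha2 : a2 ≤ T) (i : ℤ)
    (hi1 : (m - c + 2 * m * i) * ell + D ≤ a1) (hi2 : -((m - c + 2 * m * i) * ell) + D ≤ a2) :
    ShortD δ a1 a2 η1 η2 := by
  obtain ⟨k, hk⟩ := re_dvd_re m hm (2 * i + 1) ⟨i, rfl⟩
  set w := E (m - c + 2 * m * i) with hw
  have hwE : w * E c = E (m * (2 * i + 1)) := by rw [hw, ← E_add]; congr 1; ring
  set N : ℝ := ((E m).re : ℝ) with hN
  have hq' : (1 : ℝ) ≤ q := by exact_mod_cast hq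
  have hN1 : 1 ≤ N := by rw [hN]; exact_mod_cast one_le_re_E m hm hm1
  have hβ0 : 0 ≤ β := (abs_nonneg _).trans hθ1
  have hDp := exp_pos (-D)
  have hw1 : |s1 w| ≤ exp a1 * exp (-D) := by
    rw [hw, abs_s1_E, ← exp_add]; apply exp_le_exp.mpr; push_cast; linarith
  have hw2 : |s2 w| ≤ exp a2 * exp (-D) := by
    rw [hw, abs_s2_E, ← exp_add]; apply exp_le_exp.mpr; push_cast; linarith
  have key : ∀ a u : ℝ, |u| ≤ exp a * exp (-D) → |q * u * exp (-a) / 2| ≤ δ := by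
    intro a u hu
    rw [abs_div, abs_mul, abs_mul, abs_of_pos (exp_pos _), abs_of_pos (by linarith : (0 : ℝ) < q),
      abs_two]
    have t1 : |u| * exp (-a) ≤ exp (-D) := by
      rw [exp_neg a, ← div_eq_mul_inv, div_le_iff₀ (exp_pos a)]; linarith
    have t2 : q * (|u| * exp (-a)) ≤ q * exp (-D) := mul_le_mul_of_nonneg_left t1 (by linarith)
    nlinarith
  have hinv : ∀ a : ℝ, exp (-a) * exp a = 1 := fun a => by rw [← exp_add]; simp
  refine ⟨q * w.re, 2 * q * w.im, (w * p).re + k, q * s1 w * exp (-a1) / 2,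
    q * s2 w * exp (-a2) / 2, -(exp (a1 + a2) * ((s1 w * θ1 + s2 w * θ2) / (2 * N))), ?_,
    key a1 _ hw1, key a2 _ hw2, ?_, ?_, ?_, ?_⟩
  · rintro ⟨hx, hy, -⟩
    have hx' : w.re = 0 := by
      rcases mul_eq_zero.mp hx with h | h
      · omega
      · exact h
    have hy' : w.im = 0 := by
      rcases mul_eq_zero.mp hy with h | h
      · omega
      · exact h
    have : s1 w = 0 := by rw [s1_apply, hx', hy']; simp
    rw [hw, s1_E] at this
    exact (exp_pos _).ne' this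
  · rw [abs_neg, abs_mul, abs_div, abs_of_pos (exp_pos _), abs_of_pos (by linarith : 0 < 2 * N),
      ← mul_div_assoc, div_le_iff₀ (by linarith)]
    have hD1 : exp (-D) ≤ 1 := exp_le_one_iff.mpr (by linarith)
    have hT1 : exp a1 ≤ exp T := exp_le_exp.mpr ha1
    have hT2 : exp a2 ≤ exp T := exp_le_exp.mpr ha2
    have u1 : |s1 w| ≤ exp T := by nlinarith [exp_pos a1]
    have u2 : |s2 w| ≤ exp T := by nlinarith [exp_pos a2]
    have t1 := abs_add_le (s1 w * θ1) (s2 w * θ2)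
    rw [abs_mul, abs_mul] at t1
    have t2 : |s1 w| * |θ1| ≤ exp T * β := mul_le_mul u1 hθ1 (abs_nonneg _) (exp_pos _).le
    have t3 : |s2 w| * |θ2| ≤ exp T * β := mul_le_mul u2 hθ2 (abs_nonneg _) (exp_pos _).le
    have t4 : exp (a1 + a2) ≤ exp (2 * T) := exp_le_exp.mpr (by linarith)
    have t5 : exp (a1 + a2) * |s1 w * θ1 + s2 w * θ2| ≤ exp (2 * T) * (2 * (exp T * β)) :=
      mul_le_mul t4 (by linarith) (abs_nonneg _) (exp_pos _).le
    have t6 : exp (2 * T) * (2 * (exp T * β)) = 2 * β * exp (3 * T) := by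
      rw [show 3 * T = 2 * T + T by ring, exp_add]; ring
    have hδ : 0 ≤ δ := by nlinarith
    nlinarith
  · push_cast
    rw [re_eq w]
    linear_combination (q * s1 w / 2) * hinv a1 + (q * s2 w / 2) * hinv a2
  · have hs2 : √2 * √2 = 2 := Real.mul_self_sqrt (by norm_num)
    have e : s1 w - s2 w = 2 * w.im * √2 := by rw [s1_apply, s2_apply]; ring
    push_cast
    linear_combination (q * s1 w / 2 * √2) * hinv a1 - (q * s2 w / 2 * √2) * hinv a2 +
      (q * √2 / 2) * e + (q * w.im) * hs2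
  · have e1 : (((w * p).re : ℤ) : ℝ) = (s1 w * s1 p + s2 w * s2 p) / 2 := by
      rw [re_eq, map_mul, map_mul]
    have e2 : N * k = (s1 w * s1 (E c) + s2 w * s2 (E c)) / 2 := by
      rw [← map_mul, ← map_mul, ← re_eq, hwE, hk, hN]; push_cast; ring
    have hN0 : N ≠ 0 := by linarith
    have e3 : (k : ℝ) = (s1 w * s1 (E c) + s2 w * s2 (E c)) / (2 * N) := by
      field_simp; linarith
    have e4 : exp (a1 + a2) * exp (-(a1 + a2)) = 1 := by rw [← exp_add]; simp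
    have h1' : q * η1 = s1 p + (s1 (E c) + θ1) / N := by linarith
    have h2' : q * η2 = s2 p + (s2 (E c) + θ2) / N := by linarith
    push_cast
    rw [e1, e3]
    calc q * s1 w * exp (-a1) / 2 * exp a1 * η1 + q * s2 w * exp (-a2) / 2 * exp a2 * η2 +
          -(exp (a1 + a2) * ((s1 w * θ1 + s2 w * θ2) / (2 * N))) * exp (-(a1 + a2))
        = (exp (-a1) * exp a1) * s1 w * (q * η1) / 2 + (exp (-a2) * exp a2) * s2 w * (q * η2) / 2 -
          (exp (a1 + a2) * exp (-(a1 + a2))) * ((s1 w * θ1 + s2 w * θ2) / (2 * N)) := by ring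
      _ = _ := by
        rw [hinv, hinv, e4, h1', h2']; field_simp; ring

lemma cover (q : ℤ) (hq : 1 ≤ q) (p : O) (m c : ℤ) (hm : Odd m) (hm1 : 1 ≤ m)
    (η1 η2 θ1 θ2 β a1 a2 δ D T : ℝ)
    (h1 : q * η1 - s1 p = (s1 (E c) + θ1) / (E m).re)
    (h2 : q * η2 - s2 p = (s2 (E c) + θ2) / (E m).re)
    (hθ1 : |θ1| ≤ β) (hθ2 : |θ2| ≤ β) (hD0 : 0 ≤ D) (hDm : D ≤ m * ell) (hT : 0 ≤ T)
    (hD : 8 * q * exp (-D) ≤ δ) (hβ : 2 * β * exp (3 * T) ≤ δ)
    (ha1 : a1 ≤ T) (ha2 : a2 ≤ T) (hh : D < |a1 + a2|)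
    (hi : ∀ i : ℤ, D < |a1 - ((m - c) * ell + i * (2 * m * ell))|)
    (hj : ∀ j : ℤ, D < |a2 - ((m + c) * ell + j * (2 * m * ell))|) :
    ShortP δ a1 a2 η1 η2 ∨ ShortD δ a1 a2 η1 η2 := by
  have hq' : (1 : ℝ) ≤ q := by exact_mod_cast hq
  have hm' : (1 : ℝ) ≤ m := by exact_mod_cast hm1
  have hβ0 : 0 ≤ β := (abs_nonneg _).trans hθ1
  have hDp := exp_pos (-D)
  have hl := ell_pos
  have hβ' : 2 * β * exp T ≤ δ := by
    have : exp T ≤ exp (3 * T) := exp_le_exp.mpr (by linarith)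
    nlinarith
  by_cases hneg : a1 + a2 < 0
  · right
    rw [abs_of_neg hneg] at hh
    have hδ : 0 ≤ δ := by nlinarith
    refine ⟨0, 0, 1, 0, 0, exp (a1 + a2), by simp, by simpa using hδ, by simpa using hδ, ?_,
      by simp, by simp, ?_⟩
    · rw [abs_of_pos (exp_pos _)]
      have : exp (a1 + a2) ≤ exp (-D) := exp_le_exp.mpr (by linarith)
      nlinarith
    · rw [← exp_add]; simp
  rw [abs_of_nonneg (by linarith)] at hh
  by_cases hbig : m * ell + D ≤ a1 + a2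
  · left
    set N : ℝ := ((E m).re : ℝ) with hN
    have hN1' := one_le_re_E m hm hm1
    have hN1 : 1 ≤ N := by rw [hN]; exact_mod_cast hN1'
    have hNup : N ≤ exp (m * ell) / 2 := (re_E_bounds m hm hm1).2
    have key : ∀ a θ : ℝ, a ≤ T → |θ| ≤ β → |exp a * θ| ≤ δ := by
      intro a θ ha hθ
      rw [abs_mul, abs_of_pos (exp_pos a)]
      have t : exp a * |θ| ≤ exp T * β :=
        mul_le_mul (exp_le_exp.mpr ha) hθ (abs_nonneg _) (exp_pos _).le
      nlinarith [exp_pos T]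
    refine ⟨(-((((E m).re : ℤ) : O) * p + E c)).re, (-((((E m).re : ℤ) : O) * p + E c)).im,
      q * (E m).re, ?_, ?_, ?_, ?_⟩
    · rintro ⟨-, -, h⟩
      rcases mul_eq_zero.mp h with h | h <;> omega
    · have e1 : (((-((((E m).re : ℤ) : O) * p + E c)).re : ℤ) : ℝ) +
          (((-((((E m).re : ℤ) : O) * p + E c)).im : ℤ) : ℝ) * √2 +
          ((q * (E m).re : ℤ) : ℝ) * η1 = θ1 := by
        rw [← s1_apply, map_neg, map_add, map_mul, map_intCast]
        push_cast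
        rw [← hN]
        have : N ≠ 0 := by linarith
        field_simp at h1
        linarith
      rw [e1]; exact key a1 θ1 ha1 hθ1
    · have e1 : (((-((((E m).re : ℤ) : O) * p + E c)).re : ℤ) : ℝ) -
          (((-((((E m).re : ℤ) : O) * p + E c)).im : ℤ) : ℝ) * √2 +
          ((q * (E m).re : ℤ) : ℝ) * η2 = θ2 := by
        rw [← s2_apply, map_neg, map_add, map_mul, map_intCast]
        push_cast
        rw [← hN]
        have : N ≠ 0 := by linarith
        field_simp at h2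
        linarith
      rw [e1]; exact key a2 θ2 ha2 hθ2
    · push_cast
      rw [← hN, abs_of_pos (by positivity)]
      have t1 : exp (-(a1 + a2)) ≤ exp (-(m * ell)) * exp (-D) := by
        rw [← exp_add]; exact exp_le_exp.mpr (by linarith)
      have t2 : exp (-(m * ell)) * N ≤ 1 := by
        rw [exp_neg, inv_mul_le_iff₀ (exp_pos _)]; linarith [exp_pos (m * ell)]
      have t3 : exp (-(a1 + a2)) * (q * N) ≤ exp (-(m * ell)) * exp (-D) * (q * N) :=
        mul_le_mul_of_nonneg_right t1 (by positivity)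
      have t4 : exp (-(m * ell)) * exp (-D) * (q * N) =
          (exp (-(m * ell)) * N) * (q * exp (-D)) := by ring
      have t5 : (exp (-(m * ell)) * N) * (q * exp (-D)) ≤ 1 * (q * exp (-D)) :=
        mul_le_mul_of_nonneg_right t2 (by positivity)
      nlinarith
  have hP : 0 < 2 * m * ell := by positivity
  obtain ⟨i, hi1, hi2⟩ := exists_window a1 _ _ D hP hD0 hi
  obtain ⟨j, hj1, hj2⟩ := exists_window a2 _ _ D hP hD0 hj
  have hij1 : (0 : ℝ) < (i + j + 1) * (2 * m * ell) := by nlinarith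
  have hij2 : (i + j - 2 : ℝ) * (2 * m * ell) < 0 := by nlinarith
  have hij3 : (0 : ℝ) < i + j + 1 := by
    by_contra hcon
    have := mul_nonpos_of_nonpos_of_nonneg (not_lt.mp hcon) hP.le
    linarith
  have hij4 : (i + j - 2 : ℝ) < 0 := by
    by_contra hcon
    have := mul_nonneg (not_lt.mp hcon) hP.le
    linarith
  have hij5 : 0 < i + j + 1 := by exact_mod_cast hij3
  have hij6 : i + j - 2 < 0 := by exact_mod_cast hij4
  have hcase : j = -i ∨ j = 1 - i := by omega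
  rcases hcase with rfl | rfl
  · left
    push_cast at hj1 hj2
    exact cover_up q hq p m c hm hm1 η1 η2 θ1 θ2 β a1 a2 δ D T h1 h2 hθ1 hθ2 hD hβ' ha1 ha2
      hh.le i (by linarith) (by linarith)
  · right
    push_cast at hj1 hj2
    exact cover_down q hq p m c hm hm1 η1 η2 θ1 θ2 β a1 a2 δ D T h1 h2 hθ1 hθ2 hD0 hD hβ ha1 ha2
      (i - 1) (by push_cast; linarith) (by push_cast; linarith)

end Pool.Agent.Lib.MP_f4a5b0_an
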