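import Mathlib

set_option autoImplicit false

namespace Pool.Agent.Lib.MP_f4a5b0_an

open MeasureTheory Set

lemma vol_comb (A P D T : ℝ) (hP : 0 < P) (hD : 0 ≤ D) (hT : 0 ≤ T) :
    volume {x : ℝ | |x| ≤ T ∧ ∃ i : ℤ, |x - (A + i * P)| ≤ D} ≤
      ENNReal.ofReal ((2 * (T + D) / P + 1) * (2 * D)) := by
  set lo : ℤ := ⌈(-T - D - A) / P⌉ with hlo
  set hi : ℤ := ⌊(T + D - A) / P⌋ with hhi
  have hsub : {x : ℝ | |x| ≤ T ∧ ∃ i : ℤ, |x - (A + i * P)| ≤ D} ⊆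
      ⋃ i ∈ Finset.Icc lo hi, Icc (A + i * P - D) (A + i * P + D) := by
    rintro x ⟨hx, i, hi'⟩
    rw [abs_le] at hx hi'
    simp only [mem_iUnion, Finset.mem_Icc, mem_Icc, exists_prop]
    refine ⟨i, ⟨?_, ?_⟩, by linarith, by linarith⟩
    · rw [hlo, Int.ceil_le, div_le_iff₀ hP]; linarith
    · rw [hhi, Int.le_floor, le_div_iff₀ hP]; linarith
  refine (measure_mono hsub).trans ((measure_biUnion_finset_le _ _).trans ?_)
  have e : ∀ i : ℤ, volume (Icc (A + i * P - D) (A + i * P + D)) = ENNReal.ofReal (2 * D) := by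
    intro i; rw [Real.volume_Icc]; congr 1; ring
  simp only [e, Finset.sum_const, Int.card_Icc, nsmul_eq_mul]
  rw [← ENNReal.ofReal_natCast, ← ENNReal.ofReal_mul (Nat.cast_nonneg _)]
  apply ENNReal.ofReal_le_ofReal
  apply mul_le_mul_of_nonneg_right _ (by linarith)
  have h1 : (-T - D - A) / P ≤ lo := Int.le_ceil _
  have h2 : (hi : ℝ) ≤ (T + D - A) / P := Int.floor_le _
  have h3 : (T + D - A) / P - (-T - D - A) / P = 2 * (T + D) / P := by ring
  have h4 : 0 ≤ 2 * (T + D) / P := by positivity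
  rcases le_total 0 (hi + 1 - lo) with h | h
  · have : (((hi + 1 - lo).toNat : ℕ) : ℝ) = ((hi + 1 - lo : ℤ) : ℝ) := by
      rw [← Int.cast_natCast, Int.toNat_of_nonneg h]
    rw [this]; push_cast; linarith
  · rw [Int.toNat_eq_zero.mpr h]; simp; linarith

lemma vol_abs (T : ℝ) : volume {x : ℝ | |x| ≤ T} = ENNReal.ofReal (2 * T) := by
  have : {x : ℝ | |x| ≤ T} = Icc (-T) T := by ext x; simp [abs_le]
  rw [this, Real.volume_Icc]; congr 1; ring

lemma vol_bad (A B P D T : ℝ) (hP : 0 < P) (hD : 0 ≤ D) (hDP : D ≤ P) (hT : P ≤ 32 * T) :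
    volume {a : ℝ × ℝ | |a.1| ≤ T ∧ |a.2| ≤ T ∧ (|a.1 + a.2| ≤ D ∨
      (∃ i : ℤ, |a.1 - (A + i * P)| ≤ D) ∨ (∃ j : ℤ, |a.2 - (B + j * P)| ≤ D))} ≤
      ENNReal.ofReal (912 * (D / P) * T ^ 2) := by
  have hT0 : 0 < T := by linarith
  set S0 : Set (ℝ × ℝ) := (fun z : ℝ × ℝ => (z.1, z.1 + z.2)) ⁻¹'
    ({x : ℝ | |x| ≤ T} ×ˢ {x : ℝ | |x| ≤ D}) with hS0
  set S1 : Set (ℝ × ℝ) := {x : ℝ | |x| ≤ T ∧ ∃ i : ℤ, |x - (A + i * P)| ≤ D} ×ˢ
    {x : ℝ | |x| ≤ T} with hS1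
  set S2 : Set (ℝ × ℝ) := {x : ℝ | |x| ≤ T} ×ˢ
    {x : ℝ | |x| ≤ T ∧ ∃ i : ℤ, |x - (B + i * P)| ≤ D} with hS2
  have hsub : {a : ℝ × ℝ | |a.1| ≤ T ∧ |a.2| ≤ T ∧ (|a.1 + a.2| ≤ D ∨
      (∃ i : ℤ, |a.1 - (A + i * P)| ≤ D) ∨ (∃ j : ℤ, |a.2 - (B + j * P)| ≤ D))} ⊆
      S0 ∪ S1 ∪ S2 := by
    rintro a ⟨h1, h2, h | h | h⟩
    · left; left; exact ⟨h1, h⟩
    · left; right; exact ⟨⟨h1, h⟩, h2⟩
    · right; exact ⟨h1, h2, h⟩
  have hm : ∀ R : ℝ, MeasurableSet {x : ℝ | |x| ≤ R} := fun R =>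
    measurableSet_le (by fun_prop) measurable_const
  have v0 : volume S0 = ENNReal.ofReal (2 * T * (2 * D)) := by
    rw [hS0, Measure.volume_eq_prod,
      (measurePreserving_prod_add (volume : Measure ℝ) volume).measure_preimage
        ((hm T).prod (hm D)).nullMeasurableSet, Measure.prod_prod, vol_abs, vol_abs,
      ← ENNReal.ofReal_mul (by linarith)]
  have v1 : volume S1 ≤ ENNReal.ofReal ((2 * (T + D) / P + 1) * (2 * D) * (2 * T)) := by
    rw [hS1, Measure.volume_eq_prod, Measure.prod_prod, vol_abs,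
      ENNReal.ofReal_mul (p := (2 * (T + D) / P + 1) * (2 * D)) (by positivity)]
    gcongr
    exact vol_comb A P D T hP hD hT0.le
  have v2 : volume S2 ≤ ENNReal.ofReal ((2 * (T + D) / P + 1) * (2 * D) * (2 * T)) := by
    rw [hS2, Measure.volume_eq_prod, Measure.prod_prod, vol_abs,
      ENNReal.ofReal_mul (p := (2 * (T + D) / P + 1) * (2 * D)) (by positivity), mul_comm]
    gcongr
    exact vol_comb B P D T hP hD hT0.le
  refine (measure_mono hsub).trans ((measure_union_le _ _).trans ?_)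
  refine (add_le_add ((measure_union_le _ _).trans (add_le_add v0.le v1)) v2).trans ?_
  rw [← ENNReal.ofReal_add (by positivity) (by positivity),
    ← ENNReal.ofReal_add (by positivity) (by positivity)]
  apply ENNReal.ofReal_le_ofReal
  have h1 : 1 ≤ 32 * (T / P) := by rw [← mul_div_assoc, le_div_iff₀ hP]; linarith
  have h2 : 2 * (T + D) / P + 1 ≤ 98 * (T / P) := by
    have : 2 * (T + D) / P = 2 * (T / P) + 2 * (D / P) := by ring
    have h3 : D / P ≤ 1 := by rw [div_le_one hP]; exact hDP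
    linarith
  have h4 : 0 ≤ T * D := by positivity
  have e : 912 * (D / P) * T ^ 2 = 912 * (T / P) * (T * D) := by ring
  rw [e]
  nlinarith

end Pool.Agent.Lib.MP_f4a5b0_an
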