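import Pool.Agent.Lib.MP_f4a5b0_an.Seq
import Pool.Agent.Lib.MP_f4a5b0_an.Strip

set_option autoImplicit false

namespace Pool.Agent.Lib.MP_f4a5b0_an

open Real MeasureTheory

/-- The approximation property of one coordinate of the grid point. -/
def Approx (s : O →+* ℝ) (η : ℝ) : Prop :=
  ∀ k, ∃ θ : ℝ, |θ| ≤ 2 * bb (k + 1) ∧
    qq k * η - s (pp k) = (s (E (cc k)) + θ) / (E (mm k)).re

lemma Good.mono {R R' a1 a2 η1 η2 : ℝ} (h : Good R a1 a2 η1 η2) (hR : R ≤ R') :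
    Good R' a1 a2 η1 η2 := by
  obtain ⟨x1, y1, n1, x2, y2, n2, x3, y3, n3, hd, h1, h2, h3⟩ := h
  exact ⟨x1, y1, n1, x2, y2, n2, x3, y3, n3, hd, h1.mono hR, h2.mono hR, h3.mono hR⟩

lemma good_ray (k : ℕ) (p : O) (c c0 : ℤ) (η1 η2 θ1 θ2 α β S : ℝ)
    (hc : mm (k + 1) - c = (2 * k + 5) * mm k - c0) (hc0 : 4 * |c0| ≤ 3 * mm k)
    (h1 : qq (k + 1) * η1 - s1 p = (s1 (E c) + θ1) / (E (mm (k + 1))).re)
    (h2 : qq (k + 1) * η2 - s2 p = (s2 (E c) + θ2) / (E (mm (k + 1))).re)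
    (hθ1 : |θ1| ≤ 2 * bb (k + 2)) (hθ2 : |θ2| ≤ 2 * bb (k + 2))
    (hcop : IsCoprime (qq (k + 1)) ((E (mm (k + 1) - c) * p).re + 1))
    (hβα : β ≤ α) (hsum : 0 < α + β) (hk1 : S * α < k) (hk2 : 2 * α ≤ k * (α + β)) :
    ∃ τ, S < τ ∧ Good 24 (τ * α) (τ * β) η1 η2 := by
  have hα : 0 < α := by linarith
  set q : ℝ := (qq (k + 1) : ℝ) with hq
  set n : ℝ := (mm k : ℝ) with hn
  set m : ℝ := (mm (k + 1) : ℝ) with hm
  have hq1 : 1 ≤ q := by rw [hq]; exact_mod_cast qq_one_le _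
  have hn3 : 3 ≤ n := by rw [hn]; exact_mod_cast mm_ge k
  have hmn : m = 3 * (2 * k + 5) * n := by rw [hm, hn, mm_succ]; push_cast; ring
  have hl := ell_gt
  have hlogq0 : 0 ≤ Real.log q := Real.log_nonneg hq1
  have hlogq : Real.log q ≤ 2 * n * ell := by
    rw [Real.log_le_iff_le_exp (by linarith)]; exact qq_succ_le k
  have hc' : m - c = (2 * k + 5) * n - c0 := by rw [hm, hn]; exact_mod_cast hc
  have hc0' : 4 * |(c0 : ℝ)| ≤ 3 * n := by rw [hn]; exact_mod_cast hc0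
  have hc1 : -(3 / 4 * n) ≤ c0 := by linarith [neg_abs_le (c0 : ℝ)]
  have hc2 : (c0 : ℝ) ≤ 3 / 4 * n := by linarith [le_abs_self (c0 : ℝ)]
  have hk0 : (0 : ℝ) ≤ k := Nat.cast_nonneg k
  set A : ℝ := (m - c) * ell with hA
  have hnl : 2 ≤ n * ell := by nlinarith
  have hA1 : (2 * k + 4) * (n * ell) ≤ A := by rw [hA, hc']; nlinarith
  have hA2 : A ≤ (2 * k + 6) * (n * ell) := by rw [hA, hc']; nlinarith
  have hml : m * ell = (6 * k + 15) * (n * ell) := by rw [hmn]; ring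
  set τ := (Real.log q + A) / α with hτ
  have hτα : τ * α = Real.log q + A := by rw [hτ]; field_simp
  have hτ0 : 0 ≤ τ := by rw [hτ]; apply div_nonneg _ hα.le; nlinarith
  have hτβ : τ * β ≤ τ * α := mul_le_mul_of_nonneg_left hβα hτ0
  refine ⟨τ, ?_, ?_⟩
  · rw [hτ, lt_div_iff₀ hα]; nlinarith
  · refine good_arm (qq (k + 1)) (qq_one_le _) p (mm (k + 1)) c (mm_odd _) (mm_one_le _) η1 η2 θ1 θ2
      (2 * bb (k + 2)) _ _ h1 h2 hθ1 hθ2 hcop ?_ ?_ ?_ ?_ ?_ ?_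
    · rw [hτα, exp_add, exp_log (by linarith)]
    · rw [← exp_add, ← Real.log_le_iff_le_exp (by linarith)]
      have e1 : α * (τ * (α + β)) = (Real.log q + A) * (α + β) := by rw [← hτα]; ring
      have e2 : 2 * k * (n * ell) * (α + β) ≤ (Real.log q + A) * (α + β) :=
        mul_le_mul_of_nonneg_right (by nlinarith) hsum.le
      have e3 : α * (4 * (n * ell)) ≤ 2 * k * (n * ell) * (α + β) := by nlinarith
      have e4 : 4 * (n * ell) ≤ τ * (α + β) := le_of_mul_le_mul_left (by linarith) hα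
      show Real.log q ≤ τ * β + A
      nlinarith
    · rw [← exp_add]; apply exp_le_exp.mpr
      show τ * β + A ≤ m * ell
      nlinarith
    · apply exp_le_exp.mpr
      show τ * α ≤ m * ell
      nlinarith
    · apply exp_le_exp.mpr
      show τ * β ≤ m * ell
      nlinarith
    · unfold bb
      have h15 : 15 * m ≤ (mm (k + 2) : ℝ) := by rw [hm]; exact_mod_cast mm_succ_ge (k + 1)
      have e1 : 3 * (2 * (4 * exp (-((mm (k + 2) : ℝ) * ell / 4)))) * exp (m * ell) ^ 2 =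
          24 * exp (-((mm (k + 2) : ℝ) * ell / 4 - 2 * (m * ell))) := by
        rw [← exp_nat_mul, mul_assoc, mul_assoc, mul_assoc, ← exp_add]; push_cast; ring_nf
      rw [e1, exp_neg, ← div_eq_mul_inv, div_le_one (exp_pos _)]
      have e2 := add_one_le_exp ((mm (k + 2) : ℝ) * ell / 4 - 2 * (m * ell))
      have e3 : 15 * (m * ell) ≤ (mm (k + 2) : ℝ) * ell := by nlinarith
      nlinarith

lemma exists_parity (x y : ℝ) : (∃ k : ℕ, Even k ∧ x < k ∧ y ≤ k) ∧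
    (∃ k : ℕ, Odd k ∧ x < k ∧ y ≤ k) := by
  obtain ⟨n, hn⟩ := exists_nat_gt (max x y)
  have h1 := le_max_left x y
  have h2 := le_max_right x y
  have h3 : (0 : ℝ) ≤ n := Nat.cast_nonneg n
  exact ⟨⟨2 * n, even_two_mul n, by push_cast; linarith, by push_cast; linarith⟩,
    ⟨2 * n + 1, odd_two_mul_add_one n, by push_cast; linarith, by push_cast; linarith⟩⟩

lemma good_up {η1 η2 : ℝ} (H1 : Approx s1 η1) (H2 : Approx s2 η2) (α β S : ℝ) (hsum : 0 < α + β) :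
    ∃ τ, S < τ ∧ Good 24 (τ * α) (τ * β) η1 η2 := by
  rcases le_total β α with h | h
  · obtain ⟨k, hk, hk1, hk2⟩ := (exists_parity (S * α) (2 * α / (α + β))).1
    obtain ⟨θ1, hθ1, h1⟩ := H1 (k + 1)
    obtain ⟨θ2, hθ2, h2⟩ := H2 (k + 1)
    rw [div_le_iff₀ hsum] at hk2
    exact good_ray k (pp (k + 1)) (cc (k + 1)) (cc k) η1 η2 θ1 θ2 α β S
      (by rw [mm_succ, cc_succ, hk.neg_one_pow]; ring) (cc_abs k) h1 h2 hθ1 hθ2
      (coprime_even k hk) h hsum hk1 hk2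
  · obtain ⟨k, hk, hk1, hk2⟩ := (exists_parity (S * β) (2 * β / (β + α))).2
    obtain ⟨θ1, hθ1, h1⟩ := H1 (k + 1)
    obtain ⟨θ2, hθ2, h2⟩ := H2 (k + 1)
    rw [div_le_iff₀ (by linarith)] at hk2
    obtain ⟨τ, hτ, hg⟩ := good_ray k (star (pp (k + 1))) (-cc (k + 1)) (-cc k) η2 η1 θ2 θ1 β α S
      (by rw [mm_succ, cc_succ, hk.neg_one_pow]; ring) (by rw [abs_neg]; exact cc_abs k)
      (by rw [← star_E_even _ (cc_even _), s1_star, s1_star]; exact h2)
      (by rw [← star_E_even _ (cc_even _), s2_star, s2_star]; exact h1) hθ2 hθ1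
      (coprime_odd k hk) h (by linarith) hk1 hk2
    exact ⟨τ, hτ, hg.swap⟩

theorem good_unbounded {η1 η2 : ℝ} (H1 : Approx s1 η1) (H2 : Approx s2 η2) (α β S : ℝ) :
    ∃ τ, S < |τ| ∧ Good 24 (τ * α) (τ * β) η1 η2 := by
  rcases lt_trichotomy (α + β) 0 with h | h | h
  · obtain ⟨τ, hτ, hg⟩ := good_up H1 H2 (-α) (-β) S (by linarith)
    refine ⟨-τ, hτ.trans_le (by rw [abs_neg]; exact le_abs_self τ), ?_⟩
    convert hg using 1 <;> ring
  · refine ⟨|S| + 1, ?_, ?_⟩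
    · rw [abs_of_pos (by positivity)]; linarith [le_abs_self S]
    · have : (|S| + 1) * β = -((|S| + 1) * α) := by
        have : β = -α := by linarith
        rw [this]; ring
      rw [this]
      exact (good_line _ η1 η2).mono (by norm_num)
  · obtain ⟨τ, hτ, hg⟩ := good_up H1 H2 α β S h
    exact ⟨τ, hτ.trans_le (le_abs_self τ), hg⟩

lemma mm_ge_index (k : ℕ) : (k : ℤ) ≤ mm k := by
  induction k with
  | zero => simp [mm]
  | succ n ih => have := mm_succ_ge n; have := mm_ge n; push_cast; omega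

lemma exists_stage (K : ℕ) (T : ℝ) (hT : mm (K + 1) * ell / 16 ≤ T) :
    ∃ k, K ≤ k ∧ mm (k + 1) * ell / 16 ≤ T ∧ T ≤ mm (k + 2) * ell / 16 := by
  have hex : ∃ j : ℕ, T < mm (K + j + 2) * ell / 16 := by
    obtain ⟨j, hj⟩ := exists_nat_gt (32 * T)
    refine ⟨j, ?_⟩
    have h1 : ((K + j + 2 : ℕ) : ℝ) ≤ mm (K + j + 2) := by exact_mod_cast mm_ge_index _
    push_cast at h1
    have h2 : (0 : ℝ) ≤ K := Nat.cast_nonneg K
    have h3 : (0 : ℝ) ≤ j := Nat.cast_nonneg j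
    nlinarith [ell_gt]
  classical
  refine ⟨K + Nat.find hex, by omega, ?_, (Nat.find_spec hex).le⟩
  rcases h0 : Nat.find hex with _ | j
  · simpa using hT
  · have := Nat.find_min hex (show j < Nat.find hex by omega)
    have e : K + (j + 1) + 1 = K + j + 2 := by ring
    rw [e]; exact not_lt.mp this

theorem bad_small {η1 η2 : ℝ} (H1 : Approx s1 η1) (H2 : Approx s2 η2) (δ κ : ℝ) (hδ : 0 < δ)
    (hκ : 0 < κ) : ∃ T0 : ℝ, ∀ T, T0 ≤ T →
      volume {a : ℝ × ℝ | |a.1| ≤ T ∧ |a.2| ≤ T ∧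
        ¬(ShortP δ a.1 a.2 η1 η2 ∨ ShortD δ a.1 a.2 η1 η2)} ≤ ENNReal.ofReal (κ * T ^ 2) := by
  set C : ℝ := 16 / δ with hC
  have hC0 : 0 < C := by positivity
  have heC : 16 * exp (-C) ≤ δ := by
    rw [exp_neg, ← div_eq_mul_inv, div_le_iff₀ (exp_pos _), ← div_le_iff₀' hδ]
    linarith [add_one_le_exp C]
  obtain ⟨K, hK⟩ := exists_nat_gt (max (32 * C) (912 * (1 + C) / κ))
  have hK1 : 32 * C < K := (le_max_left _ _).trans_lt hK
  have hK2 : 912 * (1 + C) / κ < K := (le_max_right _ _).trans_lt hK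
  refine ⟨mm (K + 1) * ell / 16, fun T hT => ?_⟩
  obtain ⟨k, hk, hT1, hT2⟩ := exists_stage K T hT
  have hk' : (K : ℝ) ≤ k := by exact_mod_cast hk
  obtain ⟨θ1, hθ1, h1⟩ := H1 (k + 1)
  obtain ⟨θ2, hθ2, h2⟩ := H2 (k + 1)
  set n : ℝ := (mm k : ℝ) with hn
  set m : ℝ := (mm (k + 1) : ℝ) with hm
  have hn3 : 3 ≤ n := by rw [hn]; exact_mod_cast mm_ge k
  have hmn : m = 3 * (2 * k + 5) * n := by rw [hm, hn, mm_succ]; push_cast; ring
  have hl := ell_gt
  have hnl : 2 ≤ n * ell := by nlinarith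
  have hk0 : (0 : ℝ) ≤ k := Nat.cast_nonneg k
  have hml : m * ell = (6 * k + 15) * (n * ell) := by rw [hmn]; ring
  set D : ℝ := 2 * n * ell + C with hD
  have hD0 : 0 ≤ D := by nlinarith
  have hDm : D ≤ m * ell := by nlinarith
  have hP : 0 < 2 * m * ell := by nlinarith
  have hT0 : 0 ≤ T := by nlinarith
  have hq : 8 * (qq (k + 1) : ℝ) * exp (-D) ≤ δ := by
    have e1 : exp (2 * n * ell) * exp (-D) = exp (-C) := by rw [← exp_add, hD]; ring_nf
    have e2 := mul_le_mul_of_nonneg_right (qq_succ_le k) (exp_pos (-D)).le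
    have := exp_pos (-C)
    rw [← hn] at e2
    nlinarith
  have hβ : 2 * (2 * bb (k + 2)) * exp (3 * T) ≤ δ := by
    unfold bb
    have h15 : ((k + 2 : ℕ) : ℝ) ≤ (mm (k + 2) : ℝ) := by exact_mod_cast mm_ge_index (k + 2)
    push_cast at h15
    have e1 : exp (-((mm (k + 2) : ℝ) * ell / 4)) * exp (3 * T) ≤ exp (-C) := by
      rw [← exp_add]; apply exp_le_exp.mpr; nlinarith
    nlinarith
  refine le_trans (measure_mono ?_) ((vol_bad ((m - cc (k + 1)) * ell) ((m + cc (k + 1)) * ell)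
    (2 * m * ell) D T hP hD0 (by linarith) (by linarith)).trans (ENNReal.ofReal_le_ofReal ?_))
  · rintro a ⟨ha1, ha2, ha⟩
    refine ⟨ha1, ha2, ?_⟩
    by_contra hcon
    push Not at hcon
    exact ha (cover (qq (k + 1)) (qq_one_le _) (pp (k + 1)) (mm (k + 1)) (cc (k + 1)) (mm_odd _)
      (mm_one_le _) η1 η2 θ1 θ2 _ a.1 a.2 δ D T h1 h2 hθ1 hθ2 hD0 hDm hT0 hq hβ
      ((le_abs_self _).trans ha1) ((le_abs_self _).trans ha2) hcon.1 hcon.2.1 hcon.2.2)
  · apply mul_le_mul_of_nonneg_right _ (by positivity)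
    rw [div_lt_iff₀ hκ] at hK2
    rw [← mul_div_assoc, div_le_iff₀ hP]
    have e1 : D ≤ (1 + C) * (2 * (n * ell)) := by nlinarith
    have e2 : 912 * (1 + C) ≤ k * κ := by nlinarith
    have e3 : 912 * (1 + C) * (2 * (n * ell)) ≤ k * κ * (2 * (n * ell)) :=
      mul_le_mul_of_nonneg_right e2 (by linarith)
    have e4 : 0 ≤ κ * (n * ell) := by positivity
    have e5 : κ * (2 * m * ell) = 2 * (6 * k + 15) * (κ * (n * ell)) := by
      rw [hmn]; ring
    nlinarith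

end Pool.Agent.Lib.MP_f4a5b0_an
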