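import Pool.Agent.Lib.MP_f4a5b0_an.Units

set_option autoImplicit false

namespace Pool.Agent.Lib.MP_f4a5b0_an

open Real

/-- Determinant of three vectors. -/
def det3 {R : Type*} [CommRing R] (x1 y1 n1 x2 y2 n2 x3 y3 n3 : R) : R :=
  x1 * (y2 * n3 - n2 * y3) - y1 * (x2 * n3 - n2 * x3) + n1 * (x2 * y3 - y2 * x3)

/-- The vector with coordinates x, y, n has sup norm at most R after the flow. -/
def Small (R a1 a2 η1 η2 x y n : ℝ) : Prop :=
  |exp a1 * (x + y * √2 + n * η1)| ≤ R ∧ |exp a2 * (x - y * √2 + n * η2)| ≤ R ∧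
    |exp (-(a1 + a2)) * n| ≤ R

/-- The flowed lattice has a basis of sup norm at most R. -/
def Good (R a1 a2 η1 η2 : ℝ) : Prop :=
  ∃ x1 y1 n1 x2 y2 n2 x3 y3 n3 : ℤ,
    (det3 x1 y1 n1 x2 y2 n2 x3 y3 n3 = 1 ∨ det3 x1 y1 n1 x2 y2 n2 x3 y3 n3 = -1) ∧
    Small R a1 a2 η1 η2 x1 y1 n1 ∧ Small R a1 a2 η1 η2 x2 y2 n2 ∧ Small R a1 a2 η1 η2 x3 y3 n3

lemma Small.mono {R R' a1 a2 η1 η2 x y n : ℝ} (h : Small R a1 a2 η1 η2 x y n) (hR : R ≤ R') :
    Small R' a1 a2 η1 η2 x y n :=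
  ⟨h.1.trans hR, h.2.1.trans hR, h.2.2.trans hR⟩

lemma Small.swap {R a1 a2 η1 η2 x y n : ℝ} (h : Small R a2 a1 η2 η1 x y n) :
    Small R a1 a2 η1 η2 x (-y) n := by
  obtain ⟨h1, h2, h3⟩ := h
  refine ⟨?_, ?_, ?_⟩
  · convert h2 using 3; ring
  · convert h1 using 3; ring
  · convert h3 using 4; ring

lemma Good.swap {R a1 a2 η1 η2 : ℝ} (h : Good R a2 a1 η2 η1) : Good R a1 a2 η1 η2 := by
  obtain ⟨x1, y1, n1, x2, y2, n2, x3, y3, n3, hd, h1, h2, h3⟩ := h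
  refine ⟨x1, -y1, n1, x2, -y2, n2, x3, -y3, n3, ?_, ?_, ?_, ?_⟩
  · unfold det3 at hd ⊢
    rcases hd with hd | hd
    · right; linear_combination -hd
    · left; linear_combination -hd
  · simpa using h1.swap
  · simpa using h2.swap
  · simpa using h3.swap

lemma abs_comb {R R' u v w s t : ℝ} (hu : |u| ≤ R) (hv : |v| ≤ R) (hw : |w| ≤ R')
    (hs0 : 0 ≤ s) (hs1 : s ≤ 1) (ht0 : 0 ≤ t) (ht1 : t ≤ 1) :
    |w - s * u - t * v| ≤ R' + 2 * R := by
  have hR : 0 ≤ R := (abs_nonneg _).trans hu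
  have h1 : |s * u| ≤ R := by
    rw [abs_mul, abs_of_nonneg hs0]; nlinarith [abs_nonneg u]
  have h2 : |t * v| ≤ R := by
    rw [abs_mul, abs_of_nonneg ht0]; nlinarith [abs_nonneg v]
  rw [abs_le] at *
  constructor <;> linarith [h1.1, h1.2, h2.1, h2.2, hw.1, hw.2]

lemma good_of_plane {R R' a1 a2 η1 η2 : ℝ} (x1 y1 n1 x2 y2 n2 x3 y3 n3 : ℤ) (zx zy zn : ℝ)
    (hd : det3 x1 y1 n1 x2 y2 n2 x3 y3 n3 = 1 ∨ det3 x1 y1 n1 x2 y2 n2 x3 y3 n3 = -1)
    (hz : det3 (x1 : ℝ) y1 n1 x2 y2 n2 zx zy zn = det3 (x1 : ℝ) y1 n1 x2 y2 n2 x3 y3 n3)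
    (h1 : Small R a1 a2 η1 η2 x1 y1 n1) (h2 : Small R a1 a2 η1 η2 x2 y2 n2)
    (h3 : Small R' a1 a2 η1 η2 zx zy zn) : Good (R' + 2 * R) a1 a2 η1 η2 := by
  have hR : 0 ≤ R := (abs_nonneg _).trans h1.1
  have hR' : 0 ≤ R' := (abs_nonneg _).trans h3.1
  set D : ℝ := det3 (x1 : ℝ) y1 n1 x2 y2 n2 x3 y3 n3 with hD
  have hDD : D * D = 1 := by
    have : D = ((det3 x1 y1 n1 x2 y2 n2 x3 y3 n3 : ℤ) : ℝ) := by
      rw [hD]; unfold det3; push_cast; ring
    rw [this]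
    rcases hd with hd | hd <;> rw [hd] <;> norm_num
  set α : ℝ := D * det3 zx zy zn x2 y2 n2 x3 y3 n3 with hα
  set β : ℝ := D * det3 (x1 : ℝ) y1 n1 zx zy zn x3 y3 n3 with hβ
  have ex : zx = α * x1 + β * x2 + x3 := by
    have : D * zx = det3 zx zy zn x2 y2 n2 x3 y3 n3 * x1 +
        det3 (x1 : ℝ) y1 n1 zx zy zn x3 y3 n3 * x2 +
        det3 (x1 : ℝ) y1 n1 x2 y2 n2 zx zy zn * x3 := by
      rw [hD]; unfold det3; ring
    rw [hz] at this
    rw [hα, hβ]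
    linear_combination D * this - (zx - x3) * hDD
  have ey : zy = α * y1 + β * y2 + y3 := by
    have : D * zy = det3 zx zy zn x2 y2 n2 x3 y3 n3 * y1 +
        det3 (x1 : ℝ) y1 n1 zx zy zn x3 y3 n3 * y2 +
        det3 (x1 : ℝ) y1 n1 x2 y2 n2 zx zy zn * y3 := by
      rw [hD]; unfold det3; ring
    rw [hz] at this
    rw [hα, hβ]
    linear_combination D * this - (zy - y3) * hDD
  have en : zn = α * n1 + β * n2 + n3 := by
    have : D * zn = det3 zx zy zn x2 y2 n2 x3 y3 n3 * n1 +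
        det3 (x1 : ℝ) y1 n1 zx zy zn x3 y3 n3 * n2 +
        det3 (x1 : ℝ) y1 n1 x2 y2 n2 zx zy zn * n3 := by
      rw [hD]; unfold det3; ring
    rw [hz] at this
    rw [hα, hβ]
    linear_combination D * this - (zn - n3) * hDD
  have hs0 := Int.fract_nonneg α
  have hs1 := (Int.fract_lt_one α).le
  have ht0 := Int.fract_nonneg β
  have ht1 := (Int.fract_lt_one β).le
  refine ⟨x1, y1, n1, x2, y2, n2, x3 + ⌊α⌋ * x1 + ⌊β⌋ * x2, y3 + ⌊α⌋ * y1 + ⌊β⌋ * y2,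
    n3 + ⌊α⌋ * n1 + ⌊β⌋ * n2, ?_, h1.mono (by linarith), h2.mono (by linarith), ?_, ?_, ?_⟩
  · have : det3 x1 y1 n1 x2 y2 n2 (x3 + ⌊α⌋ * x1 + ⌊β⌋ * x2) (y3 + ⌊α⌋ * y1 + ⌊β⌋ * y2)
        (n3 + ⌊α⌋ * n1 + ⌊β⌋ * n2) = det3 x1 y1 n1 x2 y2 n2 x3 y3 n3 := by
      unfold det3; ring
    rw [this]; exact hd
  · have := abs_comb h1.1 h2.1 h3.1 hs0 hs1 ht0 ht1
    convert this using 2
    rw [ex, ey, en]; unfold Int.fract; push_cast; ring
  · have := abs_comb h1.2.1 h2.2.1 h3.2.1 hs0 hs1 ht0 ht1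
    convert this using 2
    rw [ex, ey, en]; unfold Int.fract; push_cast; ring
  · have := abs_comb h1.2.2 h2.2.2 h3.2.2 hs0 hs1 ht0 ht1
    convert this using 2
    rw [en]; unfold Int.fract; push_cast; ring

lemma exists_scale (H : ℝ) (hH : 0 < H) :
    ∃ j : ℤ, exp (j * ell) ≤ H ∧ H ≤ exp (j * ell) * exp ell := by
  refine ⟨⌊Real.log H / ell⌋, ?_, ?_⟩
  · have h1 := Int.floor_le (Real.log H / ell)
    have hl := ell_pos
    rw [le_div_iff₀ hl] at h1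
    calc exp (⌊Real.log H / ell⌋ * ell) ≤ exp (Real.log H) := exp_le_exp.mpr h1
      _ = H := exp_log hH
  · have h1 := (Int.lt_floor_add_one (Real.log H / ell)).le
    have hl := ell_pos
    rw [div_le_iff₀ hl] at h1
    rw [← exp_add]
    calc H = exp (Real.log H) := (exp_log hH).symm
      _ ≤ _ := exp_le_exp.mpr (by linarith)

/-- On the wall the lattice stays bounded. -/
lemma good_line (a1 η1 η2 : ℝ) : Good 7 a1 (-a1) η1 η2 := by
  obtain ⟨j, hj1, hj2⟩ := exists_scale (exp (-a1)) (exp_pos _)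
  have he := exp_ell_lt
  have he2 := two_lt_exp_ell
  have hinv : exp a1 * exp (-a1) = 1 := by rw [← exp_add]; simp
  have hp := exp_pos a1
  have hn := exp_pos (-a1)
  have key : ∀ i : ℤ, exp (j * ell) ≤ exp (i * ell) → exp (i * ell) ≤ exp (j * ell) * exp ell →
      Small 3 a1 (-a1) η1 η2 (E i).re (E i).im ((0 : ℤ) : ℝ) := by
    intro i hi1 hi2
    have hi := exp_pos (i * ell)
    refine ⟨?_, ?_, ?_⟩
    · have : ((E i).re : ℝ) + (E i).im * √2 + ((0 : ℤ) : ℝ) * η1 = s1 (E i) := by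
        rw [s1_apply]; simp
      rw [this, s1_E, abs_of_pos (by positivity)]
      have : exp (i * ell) ≤ exp (-a1) * exp ell := by nlinarith
      nlinarith
    · have : ((E i).re : ℝ) - (E i).im * √2 + ((0 : ℤ) : ℝ) * η2 = s2 (E i) := by
        rw [s2_apply]; simp
      rw [this, abs_mul, abs_s2_E, abs_of_pos (by positivity), exp_neg (i * ell),
        ← div_eq_mul_inv, div_le_iff₀ hi]
      nlinarith
    · simp
  have h3 : Small 1 a1 (-a1) η1 η2 (-(η1 + η2) / 2) (-(η1 - η2) / (2 * √2)) 1 := by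
    have hs := sqrt2_gt
    refine ⟨?_, ?_, ?_⟩
    · have : -(η1 + η2) / 2 + -(η1 - η2) / (2 * √2) * √2 + 1 * η1 = 0 := by
        field_simp; ring
      rw [this]; simp
    · have : -(η1 + η2) / 2 - -(η1 - η2) / (2 * √2) * √2 + 1 * η2 = 0 := by
        field_simp; ring
      rw [this]; simp
    · simp
  have := good_of_plane (R := 3) (R' := 1) (E j).re (E j).im 0 (E (j + 1)).re (E (j + 1)).im 0
    0 0 1 _ _ _ ?_ ?_ (key j le_rfl (by nlinarith [exp_pos (j * ell)]))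
    (key (j + 1) ?_ ?_) h3
  · convert this using 1; norm_num
  · have := det_E j
    unfold det3
    rcases this with h | h
    · left; linear_combination h
    · right; linear_combination h
  · unfold det3; push_cast; ring
  · apply exp_le_exp.mpr; push_cast; nlinarith [ell_pos]
  · rw [← exp_add]; apply le_of_eq; push_cast; ring_nf

end Pool.Agent.Lib.MP_f4a5b0_an
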