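import Pool.Agent.Lib.MP_f4a5b0_an.H96Basic

/-!
A Borel-Cantelli lower bound for the time in compact sets.
-/

namespace Pool.Agent.Lib.MP_f4a5b0_an.H96

open Real MeasureTheory Filter Topology

/-- Slopes of lines that contain a unit segment of `F` at distance at least `a`. -/
lemma vol_slopes {F : Set (ℝ × ℝ)} (hF : MeasurableSet F) {a : ℝ} (ha : 0 < a) :
    volume {s : ℝ | ∃ t : ℝ, a + 1 ≤ |t| ∧ ∀ τ ∈ Set.Icc t (t + 1), (τ, τ * s) ∈ F}
      ≤ ENNReal.ofReal a⁻¹ * volume F := by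
  have hm : MeasurableSet {p : ℝ × ℝ | a ≤ |p.1| ∧ (p.1, p.1 * p.2) ∈ F} :=
    (measurableSet_le (f := fun _ : ℝ × ℝ => a) (g := fun p => |p.1|) measurable_const
      (by fun_prop)).inter ((by fun_prop : Measurable fun p : ℝ × ℝ => (p.1, p.1 * p.2)) hF)
  have h1 := mul_meas_ge_le_lintegral (μ := volume)
    (measurable_measure_prodMk_right (μ := volume) hm) 1
  rw [one_mul, ← Measure.prod_apply_symm hm, Measure.prod_apply hm] at h1
  refine (measure_mono ?_).trans (h1.trans ?_)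
  · rintro s ⟨t, ht, hs⟩
    have h2 : Set.Icc t (t + 1) ⊆ (fun x => (x, s)) ⁻¹'
        {p : ℝ × ℝ | a ≤ |p.1| ∧ (p.1, p.1 * p.2) ∈ F} := fun τ hτ => ⟨by
      rcases le_abs.mp ht with h | h
      · exact le_abs.mpr (Or.inl (by linarith [hτ.1]))
      · exact le_abs.mpr (Or.inr (by linarith [hτ.2])), hs τ hτ⟩
    have h3 := measure_mono (μ := volume) h2
    rwa [Real.volume_Icc, add_sub_cancel_left, ENNReal.ofReal_one] at h3
  · rw [Measure.volume_eq_prod, Measure.prod_apply hF, ← lintegral_const_mul _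
      (measurable_measure_prodMk_left hF)]
    refine lintegral_mono fun t => ?_
    by_cases ht : a ≤ |t|
    · have ht0 : t ≠ 0 := abs_pos.mp (ha.trans_le ht)
      have e : Prod.mk t ⁻¹' {p : ℝ × ℝ | a ≤ |p.1| ∧ (p.1, p.1 * p.2) ∈ F}
          = (t * ·) ⁻¹' (Prod.mk t ⁻¹' F) := by
        ext s
        simp [ht]
      rw [e, Real.volume_preimage_mul_left ht0, abs_inv]
      gcongr
    · have e : Prod.mk t ⁻¹' {p : ℝ × ℝ | a ≤ |p.1| ∧ (p.1, p.1 * p.2) ∈ F} = ∅ := by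
        ext s
        simp [ht]
      rw [e, measure_empty]
      exact zero_le

/-- A set of small growth meets almost no line in unit segments that tend to infinity. -/
lemma null_slopes {F : Set (ℝ × ℝ)} (hF : MeasurableSet F) {θ : ℝ} (hθ : θ < 1)
    (h : ∀ᶠ T : ℝ in atTop, volume {Y | Y ∈ Metric.ball (0 : ℝ × ℝ) T ∧ Y ∈ F}
      ≤ ENNReal.ofReal (T ^ θ)) :
    volume {s : ℝ | |s| ≤ 1 ∧ ∀ S : ℝ, ∃ t : ℝ, S < |t| ∧
      ∀ τ ∈ Set.Icc t (t + 1), (τ, τ * s) ∈ F} = 0 := by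
  have hq : (2 : ℝ) ^ (θ - 1) < 1 := Real.rpow_lt_one_of_one_lt_of_neg (by norm_num) (by linarith)
  have hq0 : (0 : ℝ) ≤ 2 ^ (θ - 1) := by positivity
  obtain ⟨N, hN⟩ := eventually_atTop.mp (((tendsto_pow_atTop_atTop_of_one_lt
    (show (1 : ℝ) < 2 by norm_num)).comp (tendsto_add_atTop_nat 3)).eventually h)
  let E : ℕ → Set ℝ := fun n => {s : ℝ | ∃ t : ℝ, 2 ^ (n + N) + 1 ≤ |t| ∧
    ∀ τ ∈ Set.Icc t (t + 1), (τ, τ * s) ∈ {Y | Y ∈ Metric.ball (0 : ℝ × ℝ) (2 ^ (n + N + 3)) ∧ Y ∈ F}}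
  have hE : ∀ n, volume (E n) ≤ ENNReal.ofReal (8 * (2 ^ (θ - 1)) ^ (n + N + 3)) := by
    intro n
    refine (vol_slopes (measurableSet_ball.inter hF) (by positivity)).trans ?_
    refine (mul_le_mul_right (hN (n + N) (by omega)) _).trans ?_
    rw [← ENNReal.ofReal_mul (by positivity)]
    refine ENNReal.ofReal_le_ofReal (le_of_eq ?_)
    have e : ((2 : ℝ) ^ (θ - 1)) ^ (n + N + 3) = ((2 : ℝ) ^ (n + N + 3)) ^ θ / 2 ^ (n + N + 3) := by
      rw [← Real.rpow_natCast, ← Real.rpow_mul (by norm_num), mul_comm,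
        Real.rpow_mul (by norm_num), Real.rpow_natCast, Real.rpow_sub_one (by positivity)]
    rw [e]
    simp only [Function.comp]
    field_simp
    ring
  have hs : Summable fun n : ℕ => 8 * ((2 : ℝ) ^ (θ - 1)) ^ (n + N + 3) :=
    ((summable_nat_add_iff (N + 3)).mpr (summable_geometric_of_lt_one hq0 hq)).mul_left 8
  have h0 := measure_limsup_atTop_eq_zero (μ := volume) (s := E) (ne_top_of_le_ne_top
    (by rw [← ENNReal.ofReal_tsum_of_nonneg (fun n => by positivity) hs]; exact ENNReal.ofReal_ne_top)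
    (ENNReal.tsum_le_tsum hE))
  refine measure_mono_null ?_ h0
  rintro s ⟨hs1, hs2⟩
  rw [mem_limsup_iff_frequently_mem, frequently_atTop]
  intro n
  obtain ⟨t, ht, hτ⟩ := hs2 (2 ^ (n + N + 1))
  have h1 : (1 : ℝ) ≤ 2 ^ (n + N + 1) := one_le_pow₀ (by norm_num)
  obtain ⟨m, hm1, hm2⟩ := exists_nat_pow_near (h1.trans ht.le) (show (1 : ℝ) < 2 by norm_num)
  have h2 : n + N + 1 < m + 1 := (pow_lt_pow_iff_right₀ (show (1 : ℝ) < 2 by norm_num)).mp
    (ht.trans hm2)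
  obtain ⟨b, rfl⟩ : ∃ b, m = b + N + 1 := ⟨m - N - 1, by omega⟩
  have h3 : (1 : ℝ) ≤ 2 ^ (b + N) := one_le_pow₀ (by norm_num)
  rw [pow_succ] at hm1
  rw [pow_succ, pow_succ] at hm2
  refine ⟨b, by omega, t, by linarith, fun τ hτ' => ⟨?_, hτ τ hτ'⟩⟩
  have h4 : |τ| < 2 ^ (b + N + 3) := by
    rw [pow_succ, pow_succ, pow_succ, abs_lt]
    constructor <;> linarith [hτ'.1, hτ'.2, le_abs_self t, neg_abs_le t]
  rw [mem_ball_zero_iff, Prod.norm_def, max_lt_iff, Real.norm_eq_abs, Real.norm_eq_abs, abs_mul]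
  exact ⟨h4, (mul_le_of_le_one_right (abs_nonneg _) hs1).trans_lt h4⟩

lemma isClosed_Gamma : IsClosed (Gamma : Set G) := by
  have e : (Gamma : Set G) = ⋂ i, ⋂ j, (fun g : G => g.1 i j) ⁻¹' Set.range ((↑) : ℤ → ℝ) := by
    ext g
    simp only [Set.mem_iInter, Set.mem_preimage]
    constructor
    · rintro ⟨γ, rfl⟩ i j
      exact ⟨γ.1 i j, (cz_val γ i j).symm⟩
    · intro h
      choose M hM using h
      obtain ⟨γ, hγ⟩ := exists_gamma 1 g (Matrix.of M) (by
        ext i j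
        simp [hM])
      exact ⟨γ, by rw [hγ, one_mul]⟩
  rw [e]
  exact isClosed_iInter fun i => isClosed_iInter fun j =>
    Int.isClosedEmbedding_coe_real.isClosed_range.preimage (by fun_prop)

lemma continuous_expA : Continuous expA := by
  refine Continuous.subtype_mk (continuous_matrix fun i j => ?_) _
  fin_cases i <;> fin_cases j <;> simp <;> fun_prop

lemma exists_KR (K : Set (G ⧸ Gamma)) (hK : IsCompact K) :
    ∃ R : ℕ, K ⊆ ((↑) : G → G ⧸ Gamma) '' {g : G | Ent R g} := by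
  let V : ℕ → Set G := fun R => {g | ∀ i j, |g.1 i j| < R}
  have hVo : ∀ R, IsOpen (V R) := by
    intro R
    simp only [V, Set.ofPred_forall]
    refine isOpen_iInter_of_finite fun i => isOpen_iInter_of_finite fun j => ?_
    have c1 : Continuous fun g : G => g.1 i j := by fun_prop
    exact isOpen_lt c1.abs continuous_const
  have hVm : Monotone V := by
    intro R R' h g hg i j
    have : (R : ℝ) ≤ R' := by exact_mod_cast h
    exact (hg i j).trans_le this
  obtain ⟨R, hR⟩ := hK.elim_directed_cover (fun R : ℕ => ((↑) : G → G ⧸ Gamma) '' V R)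
    (fun R => QuotientGroup.isOpenMap_coe _ (hVo R)) (by
      intro x _
      obtain ⟨g, rfl⟩ := QuotientGroup.mk_surjective x
      obtain ⟨R, hR⟩ := exists_ent g
      exact Set.mem_iUnion.mpr ⟨R, g, hR, rfl⟩)
    (Monotone.directed_le fun R R' h => Set.image_mono (hVm h))
  exact ⟨R, hR.trans (Set.image_mono fun g hg i j => (hg i j).le)⟩

lemma returns_of_not_divergent {x : G ⧸ Gamma} {Y : ℝ × ℝ}
    (h : ¬IsDivergent (Set.range fun t : ℝ => expA (t • Y)) x) :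
    ∃ K : Set (G ⧸ Gamma), IsCompact K ∧ ∀ S : ℝ, ∃ t : ℝ, S < |t| ∧ expA (t • Y) • x ∈ K := by
  have := isClosed_Gamma
  by_contra hcon
  push Not at hcon
  refine h fun K hK => ?_
  obtain ⟨S, hS⟩ := hcon K hK
  have hc : Continuous fun t : ℝ => expA (t • Y) := continuous_expA.comp (by fun_prop)
  have h1 : IsCompact {t : ℝ | expA (t • Y) • x ∈ K} :=
    (isCompact_Icc (a := -S) (b := S)).of_isClosed_subset
      (hK.isClosed.preimage (hc.smul continuous_const))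
      fun t ht => abs_le.mp (not_lt.mp fun h => hS t h ht)
  have e : {d : G | d ∈ (Set.range fun t : ℝ => expA (t • Y)) ∧ d • x ∈ K}
      = (fun t : ℝ => expA (t • Y)) '' {t : ℝ | expA (t • Y) • x ∈ K} := by
    ext d
    constructor
    · rintro ⟨⟨t, rfl⟩, ht⟩
      exact ⟨t, ht, rfl⟩
    · rintro ⟨t, ht, rfl⟩
      exact ⟨⟨t, rfl⟩, ht⟩
  rw [e]
  exact h1.image hc

theorem lower_bound {θ : ℝ} (hθ : θ < 1) (x : G ⧸ Gamma)
    (hx : ∀ Y : ℝ × ℝ, Y ≠ 0 → ¬IsDivergent (Set.range fun t : ℝ => expA (t • Y)) x) :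
    ∃ K : Set (G ⧸ Gamma), IsCompact K ∧ ∃ᶠ T : ℝ in atTop, ENNReal.ofReal (T ^ θ) <
      volume {Y | Y ∈ Metric.ball (0 : ℝ × ℝ) T ∧ expA Y • x ∈ K} := by
  have := isClosed_Gamma
  by_contra hcon
  push Not at hcon
  let K : ℕ → Set (G ⧸ Gamma) := fun R => (fun p : (ℝ × ℝ) × (G ⧸ Gamma) => expA p.1 • p.2) ''
    (Metric.closedBall 0 1 ×ˢ (((↑) : G → G ⧸ Gamma) '' {g : G | Ent R g}))
  have hK : ∀ R, IsCompact (K R) := fun R =>
    ((isCompact_closedBall _ _).prod ((isCompact_ent R).image QuotientGroup.continuous_mk)).image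
      ((continuous_expA.comp continuous_fst).smul continuous_snd)
  have h0 := fun R => null_slopes (F := {Y | expA Y • x ∈ K R})
    ((hK R).isClosed.preimage (continuous_expA.smul continuous_const)).measurableSet hθ
    (hcon _ (hK R))
  have h1 := measure_mono_null (t := ⋃ R, _) (s := {s : ℝ | |s| ≤ 1}) (fun s hs => ?_)
    (measure_iUnion_null h0)
  · have e : {s : ℝ | |s| ≤ 1} = Set.Icc (-1) 1 := by ext s; simp [abs_le]
    rw [e, Real.volume_Icc] at h1
    norm_num at h1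
  · obtain ⟨K0, hK0, hret⟩ := returns_of_not_divergent (hx (1, s) (by simp))
    obtain ⟨R, hR⟩ := exists_KR K0 hK0
    refine Set.mem_iUnion.mpr ⟨R, hs, fun S => ?_⟩
    obtain ⟨t, ht, hm⟩ := hret S
    refine ⟨t, ht, fun τ hτ => ⟨((τ - t, (τ - t) * s), expA (t • ((1 : ℝ), s)) • x), ⟨?_, hR hm⟩, ?_⟩⟩
    · have h2 : |τ - t| ≤ 1 := abs_le.mpr ⟨by linarith [hτ.1], by linarith [hτ.2]⟩
      rw [mem_closedBall_zero_iff, Prod.norm_def, max_le_iff, Real.norm_eq_abs, Real.norm_eq_abs,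
        abs_mul]
      exact ⟨h2, mul_le_one₀ h2 (abs_nonneg _) hs⟩
    · change expA (τ - t, (τ - t) * s) • expA (t • ((1 : ℝ), s)) • x = expA (τ, τ * s) • x
      rw [← mul_smul, ← expA_add]
      congr 2
      ext <;> simp
      ring

end Pool.Agent.Lib.MP_f4a5b0_an.H96
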