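import Pool.Agent.Lib.MP_f4a5b0_an.H96Limit

/-!
The chain of stages with almost linear time in compact sets.
-/

namespace Pool.Agent.Lib.MP_f4a5b0_an.H96

open Real MeasureTheory Pool.Agent.Lib.MP_f4a5b0_an

lemma cover2 {g : G} {d1 d2 d3 C D δ : ℝ} {α s : O} {j c : ℤ} (hj : Odd j) (hj1 : 1 ≤ j)
    (hα : α.norm ≠ 0) (hS : Sz C d1 d2 d3 α)
    (e : g.1 = B d1 d2 d3 (s1 (s * bet j + E c) / s1 (α * bet j))
      (s2 (s * bet j + E c) / s2 (α * bet j)))
    (hD : 0 ≤ D) (hδ : C * exp (-D) ≤ δ) (Y : ℝ × ℝ) (y0 : D < |Y.1 + Y.2|)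
    (y1 : D < |Y.1 + Y.2 - j * ell|)
    (y2 : |Y.1 + Y.2 - j * ell / 2| ≤ j * ell / 2 →
      ∀ i : ℤ, D < |Y.1 - (-(c * ell) + i * (j * ell))|)
    (y3 : |Y.1 + Y.2 - j * ell / 2| ≤ j * ell / 2 →
      ∀ i : ℤ, D < |Y.2 - (c * ell + i * (j * ell))|) : Cusp δ (expA Y * g) := by
  by_cases hin : |Y.1 + Y.2 - j * ell / 2| ≤ j * ell / 2
  · exact cover hj hj1 hα hS e hD hδ Y y0 y1 (y2 hin) (y3 hin)
  obtain ⟨t1, t2, t3, t4⟩ := bet_real hj hj1
  have hM := exp_pos (j * ell)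
  have p1 : 0 < s1 (bet j) := by linarith
  have p2 : 0 < s2 (bet j) := by linarith
  have hn := s1_mul_s2 α
  have hn0 : (α.norm : ℝ) ≠ 0 := by exact_mod_cast hα
  obtain ⟨a1, a2⟩ : s1 α ≠ 0 ∧ s2 α ≠ 0 := mul_ne_zero_iff.mp (by rw [hn]; exact hn0)
  obtain ⟨ra, rb⟩ := re_E_bounds j hj hj1
  have ha := one_le_re_E j hj hj1
  have ha' : (1 : ℝ) ≤ (E j).re := by exact_mod_cast ha
  have e' := Matrix.SpecialLinearGroup.coe_mul (expA Y) g
  rw [e, expA_B] at e'
  have hC : 0 ≤ C := le_trans (by positivity) hS.b1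
  have hj' : (1 : ℝ) ≤ j := by exact_mod_cast hj1
  have hP : 0 < j * ell := by nlinarith [ell_pos]
  have small : ∀ x t : ℝ, 0 ≤ x → x ≤ C → t ≤ -D → exp t * x ≤ δ := by
    intro x t h0 h1 h2
    have := mul_le_mul (exp_le_exp.mpr h2) h1 h0 (exp_pos _).le
    linarith
  have big : ∀ x d t y : ℝ, x ≤ C * |d| → t + D ≤ y → 0 ≤ x → x * exp t ≤ δ * |exp y * d| := by
    intro x d t y h1 h2 h0
    rw [abs_mul, abs_of_pos (exp_pos y)]
    have h3 : exp t ≤ exp (-D) * exp y := by rw [← exp_add]; apply exp_le_exp.mpr; linarith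
    calc x * exp t ≤ (C * |d|) * (exp (-D) * exp y) := mul_le_mul h1 h3 (exp_pos _).le (by positivity)
      _ = (C * exp (-D)) * (exp y * |d|) := by ring
      _ ≤ _ := mul_le_mul_of_nonneg_right hδ (by positivity)
  have hδ0 : 0 ≤ δ := le_trans (by positivity) hδ
  rcases lt_abs.mp y0 with y0 | y0
  swap
  · refine Or.inr (short_dual_B e' 0 1 1 (Or.inr one_ne_zero) (by simp) (by simp; positivity)
      (by simp; positivity) ?_)
    have := big 1 d3 0 (-(Y.1 + Y.2)) (by linarith [hS.b6]) (by linarith) zero_le_one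
    simpa using this
  rcases lt_abs.mp y1 with y1 | y1
  · refine Or.inl (short_B e' (-(s * star α * ((E j).re : O) + star α * star (bet j) * E c))
      (α.norm * (E j).re) (mul_ne_zero hα (by omega)) ?_ ?_ ?_)
    · rw [show s1 (-(s * star α * ((E j).re : O) + star α * star (bet j) * E c)) +
        ((α.norm * (E j).re : ℤ) : ℝ) * (s1 (s * bet j + E c) / s1 (α * bet j)) = 0 by
          simp only [map_neg, map_add, map_mul, map_intCast, s1_star]
          push_cast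
          rw [← hn, ← t3]; field_simp; ring]
      simpa using hδ0
    · rw [show s2 (-(s * star α * ((E j).re : O) + star α * star (bet j) * E c)) +
        ((α.norm * (E j).re : ℤ) : ℝ) * (s2 (s * bet j + E c) / s2 (α * bet j)) = 0 by
          simp only [map_neg, map_add, map_mul, map_intCast, s2_star]
          push_cast
          rw [← hn, ← t3]; field_simp; ring]
      simpa using hδ0
    · push_cast
      rw [abs_mul, abs_mul, abs_mul, abs_of_pos (exp_pos _), abs_of_pos (by linarith : (0 : ℝ) < (E j).re)]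
      have h1 := small (|d3| * |(α.norm : ℝ)|) (-(Y.1 + Y.2) + j * ell) (by positivity) hS.b3
        (by linarith)
      rw [exp_add] at h1
      have h2 : exp (-(Y.1 + Y.2)) * (|d3| * |(α.norm : ℝ)|) * ((E j).re : ℝ) ≤
          exp (-(Y.1 + Y.2)) * (|d3| * |(α.norm : ℝ)|) * exp (j * ell) :=
        mul_le_mul_of_nonneg_left (by linarith) (by positivity)
      nlinarith
  exact absurd (abs_le.mpr ⟨by linarith, by linarith⟩) hin

lemma vol_shear (A P D T c r : ℝ) (hP : 0 < P) (hD : 0 ≤ D) (hT : 0 ≤ T) :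
    volume {a : ℝ × ℝ | (|a.1| ≤ T ∧ ∃ i : ℤ, |a.1 - (A + i * P)| ≤ D) ∧ |a.1 + a.2 - c| ≤ r} ≤
      ENNReal.ofReal ((2 * (T + D) / P + 1) * (2 * D) * (2 * r)) := by
  have e : {a : ℝ × ℝ | (|a.1| ≤ T ∧ ∃ i : ℤ, |a.1 - (A + i * P)| ≤ D) ∧ |a.1 + a.2 - c| ≤ r}
      = (fun z : ℝ × ℝ => (z.1, z.1 + z.2)) ⁻¹'
      ({x : ℝ | |x| ≤ T ∧ ∃ i : ℤ, |x - (A + i * P)| ≤ D} ×ˢ Set.Icc (c - r) (c + r)) := by
    ext a
    simp only [Set.mem_ofPred_eq, Set.mem_preimage, Set.mem_prod, Set.mem_Icc]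
    rw [abs_le (a := a.1 + a.2 - c)]
    exact and_congr Iff.rfl (and_congr (by constructor <;> intro h <;> linarith)
      (by constructor <;> intro h <;> linarith))
  have hm : MeasurableSet {x : ℝ | |x| ≤ T ∧ ∃ i : ℤ, |x - (A + i * P)| ≤ D} := by
    simp only [Set.ofPred_and, Set.ofPred_exists]
    exact (measurableSet_le (by fun_prop) measurable_const).inter
      (MeasurableSet.iUnion fun i => measurableSet_le (by fun_prop) measurable_const)
  rw [e, Measure.volume_eq_prod,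
    (measurePreserving_prod_add (volume : Measure ℝ) volume).measure_preimage
      (hm.prod measurableSet_Icc).nullMeasurableSet, Measure.prod_prod, Real.volume_Icc,
    ENNReal.ofReal_mul (p := (2 * (T + D) / P + 1) * (2 * D)) (by positivity),
    show c + r - (c - r) = 2 * r by ring]
  gcongr
  exact vol_comb A P D T hP hD hT

lemma vol_swap (S : Set (ℝ × ℝ)) : volume (Prod.swap ⁻¹' S) = volume S := by
  rw [Measure.volume_eq_prod]
  exact MeasurePreserving.measure_preimage_equiv (f := MeasurableEquiv.prodComm)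
    Measure.measurePreserving_swap S

lemma step_up2 {g : G} {h k : ℝ} (hg : Q g h k) {δ : ℝ} (hδ : 0 < δ) (bf : ℝ → ℝ) :
    ∃ (J k' W : ℝ) (u : G), 0 ≤ W ∧ bf W ≤ J ∧ k' ≤ -bf W ∧ Q (u * g) h k' ∧
      Near (exp (-(4 * J))) u ∧ Near (exp (-(4 * J))) (dual u) ∧
      ∀ T, J ≤ T → volume (Bad δ T (u * g)) ≤ ENNReal.ofReal (W * T) := by
  obtain ⟨γ, d1, d2, d3, α, s, j0, hA, e, h1, h2⟩ := hg
  obtain ⟨n1, n2, n3⟩ := ne_of e
  obtain ⟨a1, a2⟩ := hA.ne
  obtain ⟨C, hC, hS, c1, c2⟩ := exists_Sz n1 n2 n3 α (3 * |d1 / (s1 α * d3)|)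
    (3 * |d2 / (s2 α * d3)|)
  set D := C / δ with hD
  have hD0 : 0 < D := by positivity
  have hDδ : C * exp (-D) ≤ δ := by
    rw [exp_neg, ← div_eq_mul_inv, div_le_iff₀ (exp_pos _), ← div_le_iff₀' hδ]
    linarith [add_one_le_exp D]
  obtain ⟨b, hb⟩ : ∃ b, b = bf (300 * D) := ⟨_, rfl⟩
  obtain ⟨m, hm⟩ := exists_nat_gt (16 * |b| + |k| + 2 + 12 * C + D)
  have hr : Odd (2 * (m : ℤ) + 1) := odd_two_mul_add_one _
  have hA' := fun c => hA.step hr (by omega) c
  set j := j0 * (2 * (m : ℤ) + 1) with hj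
  have ho : Odd j := hA.odd.mul hr
  have hj1 : 2 * (m : ℤ) + 1 ≤ j := by nlinarith [hA.pos]
  have hj2 : 2 * (m : ℝ) + 1 ≤ j := by exact_mod_cast hj1
  have hj3 : 1 ≤ j := by omega
  obtain ⟨c, hc⟩ := id ho
  have hc' : (j : ℝ) = 2 * c + 1 := by exact_mod_cast hc
  have hm0 : (0 : ℝ) ≤ m := Nat.cast_nonneg m
  have hx : (m : ℝ) ≤ j * ell := by nlinarith [ell_gt]
  set x := j * ell with hxdef
  have b0 := abs_nonneg b
  have b1 := le_abs_self b
  have k0 := abs_nonneg k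
  have k1 := le_abs_self k
  obtain ⟨t1, t2, t3, -⟩ := bet_real ho hj3
  have hM := exp_pos x
  have p1 : 0 < s1 (bet j) := by linarith
  have p2 : 0 < s2 (bet j) := by linarith
  obtain ⟨ra, -⟩ := re_E_bounds j ho hj3
  have hcl : c * ell = (x - ell) / 2 := by rw [hxdef, hc']; ring
  have hl0 := ell_pos
  have hl1 := ell_lt
  have hsm : C * exp (-(c * ell)) ≤ exp (-(4 * (x / 16))) := by
    have f1 : C ≤ exp (x / 4 - 1 / 2) := by linarith [add_one_le_exp (x / 4 - 1 / 2)]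
    refine (mul_le_mul_of_nonneg_right f1 (exp_pos _).le).trans ?_
    rw [← exp_add]; apply exp_le_exp.mpr; linarith
  have hnear := near_uni (β := exp (-(4 * (x / 16))))
    (x := d1 * (s1 (E c) / (s1 α * s1 (bet j))) / d3)
    (y := d2 * (s2 (E c) / (s2 α * s2 (bet j))) / d3) (by
      refine le_trans ?_ hsm
      rw [show d1 * (s1 (E c) / (s1 α * s1 (bet j))) / d3 =
        d1 / (s1 α * d3) * s1 (E c) / s1 (bet j) by field_simp,
        abs_div, abs_mul, abs_s1_E, abs_of_pos p1, div_le_iff₀ p1]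
      have f1 : exp (c * ell) ≤ exp (-(c * ell)) * exp x := by
        rw [← exp_add]; apply exp_le_exp.mpr; linarith
      have f2 : exp (-(c * ell)) * exp x ≤ exp (-(c * ell)) * (3 * s1 (bet j)) :=
        mul_le_mul_of_nonneg_left t1 (exp_pos _).le
      have f3 := mul_le_mul c1 (f1.trans f2) (exp_pos _).le hC.le
      have f4 : 0 ≤ C * exp (-(c * ell)) * s1 (bet j) := by positivity
      have f5 := mul_le_mul_of_nonneg_left (f1.trans f2) (abs_nonneg (d1 / (s1 α * d3)))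
      have f6 := mul_le_mul_of_nonneg_right c1 (mul_pos (exp_pos (-(c * ell))) p1).le
      linarith) (by
      refine le_trans ?_ hsm
      rw [show d2 * (s2 (E c) / (s2 α * s2 (bet j))) / d3 =
        d2 / (s2 α * d3) * s2 (E c) / s2 (bet j) by field_simp,
        abs_div, abs_mul, abs_s2_E, abs_of_pos p2, div_le_iff₀ p2]
      have f5 := mul_le_mul_of_nonneg_left t2
        (mul_nonneg (abs_nonneg (d2 / (s2 α * d3))) (exp_pos (-(c * ell))).le)
      have f6 := mul_le_mul_of_nonneg_right c2 (mul_pos (exp_pos (-(c * ell))) p2).le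
      linarith)
  set u := uni (d1 * (s1 (E c) / (s1 α * s1 (bet j))) / d3)
    (d2 * (s2 (E c) / (s2 α * s2 (bet j))) / d3) with hu
  have e' : (u * g * cz γ).1 = B d1 d2 d3 (s1 (s * bet j + E c) / s1 (α * bet j))
      (s2 (s * bet j + E c) / s2 (α * bet j)) := by
    rw [mul_assoc, Matrix.SpecialLinearGroup.coe_mul, e, hu, uni_B _ _ _ _ _ _ _ n3]
    congr 1 <;> simp only [map_add, map_mul] <;> field_simp
  have ha0 : (0 : ℝ) < (E j).re := by linarith
  refine ⟨x / 16, k - Real.log (E j).re, 300 * D, u, by positivity, by linarith, ?_,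
    ⟨γ, d1, d2, d3, _, _, _, hA' c, e', h1, ?_⟩, hnear.1, hnear.2, fun T hT => ?_⟩
  · have f1 : x - 2 ≤ Real.log (E j).re := by
      rw [Real.le_log_iff_exp_le ha0, exp_sub]
      refine le_trans ?_ ra
      have : (4 : ℝ) ≤ exp 2 := by
        have := Real.add_one_le_exp 1
        rw [show (2 : ℝ) = 1 + 1 by norm_num, exp_add]; nlinarith
      gcongr
    linarith
  · rw [neg_sub, sub_eq_add_neg, exp_add, exp_log ha0, h2, Zsqrtd.norm_mul, norm_bet ho]
    push_cast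
    rw [abs_mul, abs_of_pos ha0]; ring
  · have hx0 : 0 < x := by linarith
    have hT0 : 0 < T := by linarith
    have hsub : Bad δ T (u * g) ⊆ ({a : ℝ × ℝ | |a.1| ≤ T ∧ |a.1 + a.2 - 0| ≤ D} ∪
        {a : ℝ × ℝ | |a.1| ≤ T ∧ |a.1 + a.2 - x| ≤ D}) ∪
        ({a : ℝ × ℝ | (|a.1| ≤ T ∧ ∃ i : ℤ, |a.1 - (-(c * ell) + i * x)| ≤ D) ∧
          |a.1 + a.2 - x / 2| ≤ x / 2} ∪ Prod.swap ⁻¹'
        {a : ℝ × ℝ | (|a.1| ≤ T ∧ ∃ i : ℤ, |a.1 - (c * ell + i * x)| ≤ D) ∧
          |a.1 + a.2 - x / 2| ≤ x / 2}) := by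
      rintro Y ⟨y1, y2, y3⟩
      by_contra hcon
      simp only [Set.mem_union, Set.mem_ofPred_eq, Set.mem_preimage, Prod.fst_swap,
        Prod.snd_swap, y1, y2, true_and, not_or, sub_zero, add_comm Y.2 Y.1] at hcon
      apply y3
      apply Cusp.right γ
      rw [mul_assoc]
      exact cover2 ho hj3 hA.norm_ne hS e' hD0.le hDδ Y (not_le.mp hcon.1.1) (not_le.mp hcon.1.2)
        (fun hin i => not_le.mp fun hi => hcon.2.1 ⟨⟨i, hi⟩, hin⟩)
        (fun hin i => not_le.mp fun hi => hcon.2.2 ⟨⟨i, hi⟩, hin⟩)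
    refine (measure_mono hsub).trans ((measure_union_le _ _).trans ?_)
    refine (add_le_add ((measure_union_le _ _).trans
      (add_le_add (vol_strip 0 D T hT0.le).le (vol_strip x D T hT0.le).le))
      ((measure_union_le _ _).trans (add_le_add (vol_shear _ x D T _ _ hx0 hD0.le hT0.le)
        ((vol_swap _).le.trans (vol_shear _ x D T _ _ hx0 hD0.le hT0.le))))).trans ?_
    rw [← ENNReal.ofReal_add (by positivity) (by positivity),
      ← ENNReal.ofReal_add (by positivity) (by positivity),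
      ← ENNReal.ofReal_add (by positivity) (by positivity)]
    apply ENNReal.ofReal_le_ofReal
    have f1 : (2 * (T + D) / x + 1) * (2 * D) * (2 * (x / 2)) = (2 * (T + D) + x) * (2 * D) := by
      field_simp
    have f2 : (2 * (T + D) + x) * (2 * D) ≤ (50 * T) * (2 * D) :=
      mul_le_mul_of_nonneg_right (by linarith) (by linarith)
    have f3 : 0 ≤ D * T := by positivity
    rw [f1]
    linarith

lemma step2 {g : G} {h k : ℝ} (hg : Q g h k) (n : ℕ) (bf : ℝ → ℝ) :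
    ∃ (J h' k' W : ℝ) (u : G), 0 ≤ W ∧ bf W ≤ J ∧ (Even n → k' ≤ -bf W) ∧
      (Odd n → h' ≤ -bf W) ∧ Q (u * g) h' k' ∧
      Near (exp (-(4 * J))) u ∧ Near (exp (-(4 * J))) (dual u) ∧
      ∀ T, J ≤ T → volume (Bad (1 / (n + 1)) T (u * g)) ≤ ENNReal.ofReal (W * T) := by
  have hp : (0 : ℝ) < 1 / (n + 1) := by positivity
  rcases Nat.even_or_odd n with hn | hn
  · obtain ⟨J, k', W, u, h0, h1, h2, h3, h4, h5, h6⟩ := step_up2 hg hp bf
    exact ⟨J, h, k', W, u, h0, h1, fun _ => h2,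
      fun h => absurd hn (Nat.not_even_iff_odd.mpr h), h3, h4, h5, h6⟩
  · obtain ⟨J, h', W, u, h0, h1, h2, h3, h4, h5, h6⟩ := step_up2 hg.dual hp bf
    have e : dual u * g = dual (u * dual g) := by rw [dual_mul, dual_dual]
    refine ⟨J, h', k, W, dual u, h0, h1, fun h => absurd h (Nat.not_even_iff_odd.mpr hn),
      fun _ => h2, e ▸ h3.dual, h5, by rw [dual_dual]; exact h4, fun T hT => ?_⟩
    rw [e]
    exact (vol_Bad_dual _ _ _).trans (h6 T hT)

lemma exists_chain2 (φ : ℝ → ℝ) (hφ : Filter.Tendsto φ Filter.atTop Filter.atTop) :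
    ∃ g u h k P J, Chain g u h k P J ∧ ∀ (n : ℕ) (T : ℝ), J (n + 1) ≤ T →
      volume (Bad (1 / (n + 1)) T (g (n + 1))) ≤ ENNReal.ofReal (1 / (n + 1) * (φ T * T)) := by
  choose N hN using fun M : ℝ => Filter.eventually_atTop.mp (hφ.eventually_ge_atTop M)
  let S := {x : G × ℝ × ℝ × ℝ // Q x.1 x.2.1 x.2.2.1}
  have hP : ∀ x : S, ∃ P : ℝ, 1 ≤ P ∧ ∀ i : ℤ, ∃ γ : GZ,
      expA (i * P, -(i * P)) * x.1.1 = x.1.1 * cz γ := fun x => x.2.period
  choose P hP1 hP2 using hP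
  have hs := fun (n : ℕ) (x : S) => step2 x.2 n fun W =>
    max (|x.1.2.2.2| + 1 + n + P x + n * (|x.1.2.1| + |x.1.2.2.1|))
      (max ((n + 1) * W) (N ((n + 1) * W)))
  choose J h k W u a0 a1 a2 a3 a4 a5 a6 a7 using hs
  obtain ⟨g0, h0, k0, q0⟩ := exists_Q
  let x : ℕ → S := fun n => Nat.rec ⟨(g0, h0, k0, 0), q0⟩
    (fun n y => ⟨(u n y * y.1.1, h n y, k n y, J n y), a4 n y⟩) n
  have pos : ∀ n : ℕ, (n : ℝ) ≤ |(x n).1.2.2.2| + 1 + n + P (x n) +
      n * (|(x n).1.2.1| + |(x n).1.2.2.1|) := by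
    intro n
    have h1 := hP1 (x n)
    have h2 := abs_nonneg (x n).1.2.2.2
    have h3 : 0 ≤ n * (|(x n).1.2.1| + |(x n).1.2.2.1|) := by positivity
    linarith
  have key : ∀ (n : ℕ) (T M : ℝ), J n (x n) ≤ T → (n + 1) * W n (x n) ≤ M →
      W n (x n) * T ≤ 1 / (n + 1) * (M * T) := by
    intro n T M hT hM
    have h1 := (le_max_left _ _).trans ((le_max_right _ _).trans (a1 n (x n)))
    have h2 : (0 : ℝ) < n + 1 := by positivity
    have h3 : 0 ≤ T := (mul_nonneg h2.le (a0 n (x n))).trans (h1.trans hT)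
    rw [← mul_assoc]
    refine mul_le_mul_of_nonneg_right ?_ h3
    rw [one_div, ← div_eq_inv_mul, le_div_iff₀ h2]
    linarith
  refine ⟨fun n => (x n).1.1, fun n => u n (x n), fun n => (x n).1.2.1, fun n => (x n).1.2.2.1,
    fun n => P (x n), fun n => (x n).1.2.2.2, ⟨fun n => (x n).2, fun n => hP1 _, fun n => hP2 _,
    fun n => rfl, fun n => (le_max_left _ _).trans (a1 n (x n)),
    fun n hn => (a2 n (x n) hn).trans (neg_le_neg ((pos n).trans (le_max_left _ _))),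
    fun n hn => (a3 n (x n) hn).trans (neg_le_neg ((pos n).trans (le_max_left _ _))),
    fun n => a5 n (x n), fun n => a6 n (x n), fun n T hT => (a7 n (x n) T hT).trans
      (ENNReal.ofReal_le_ofReal ?_)⟩, fun n T hT => (a7 n (x n) T hT).trans
      (ENNReal.ofReal_le_ofReal (key n T _ hT (hN _ T ?_)))⟩
  · rw [sq]
    exact key n T T hT (((le_max_left _ _).trans ((le_max_right _ _).trans (a1 n (x n)))).trans hT)
  · exact ((le_max_right _ _).trans ((le_max_right _ _).trans (a1 n (x n)))).trans hT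

theorem exists_point2 (φ : ℝ → ℝ) (hφ : Filter.Tendsto φ Filter.atTop Filter.atTop)
    (hφ0 : ∀ T, 0 ≤ T → 0 ≤ φ T) : ∃ (x : G) (R : ℝ),
    (∀ Y : ℝ × ℝ, Y ≠ 0 → ∀ S : ℝ, ∃ t, S < t ∧ Bdd R (expA (t • Y) * x)) ∧
    ∀ δ κ : ℝ, 0 < δ → 0 < κ → ∃ T0 : ℝ, ∀ T, T0 ≤ T →
      volume (Bad δ T x) ≤ ENNReal.ofReal (κ * (φ T * T)) := by
  obtain ⟨g, u, h, k, P, J, H, H2⟩ := exists_chain2 φ hφ
  obtain ⟨x, hx⟩ := H.limit
  obtain ⟨R, hR⟩ := exists_ent x
  have hR0 : (0 : ℝ) ≤ R := Nat.cast_nonneg R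
  have sh : ∀ n (Z : ℝ × ℝ) (T : ℝ), |Z.1| ≤ T → |Z.2| ≤ T → T ≤ J (n + 1) →
      ∃ q : G, Ent 3 q ∧ Ent 3 (dual q) ∧ expA Z * x = q * (expA Z * g n) := by
    intro n Z T h1 h2 h3
    obtain ⟨p, e, p1, p2⟩ := hx n
    rw [e]
    exact shadow p1 p2 h1 h2 (exp_ok (H.pos n) h3) _
  refine ⟨x, 882 + 81 * R, fun Y hY S => ?_, fun δ κ hδ hκ => ?_⟩
  · have m1 : |Y.1| ≤ |Y.1| + |Y.2| := by linarith [abs_nonneg Y.2]
    have m2 : |Y.2| ≤ |Y.1| + |Y.2| := by linarith [abs_nonneg Y.1]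
    rcases lt_trichotomy (Y.1 + Y.2) 0 with hs | hs | hs
    · obtain ⟨n, hn, hn'⟩ := (exists_parity (max (S * -(Y.1 + Y.2))
        ((|Y.1| + |Y.2|) / -(Y.1 + Y.2)))).2
      rw [max_lt_iff] at hn'
      have h1 := H.od n hn
      have h2 := (H.grow (n + 1)).2.2.1
      have hn0 : (0 : ℝ) ≤ n := Nat.cast_nonneg n
      rw [abs_of_nonpos (by linarith)] at h2
      push_cast at h2
      have c1 := cross (neg_pos.mpr hs) hn'.1 hn'.2 (le_neg.mp h1) h2 hn0 m1
      have c2 := cross (neg_pos.mpr hs) hn'.1 hn'.2 (le_neg.mp h1) h2 hn0 m2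
      refine ⟨_, c1.1, ?_⟩
      obtain ⟨q, q1, -, e⟩ := sh (n + 1) ((-h (n + 1) / -(Y.1 + Y.2)) • Y) _ c1.2 c2.2 le_rfl
      rw [e]
      refine (Bdd.left q1 ((H.q (n + 1)).wall ?_)).mono (by linarith)
      have := hs.ne
      simp only [Prod.smul_fst, Prod.smul_snd, smul_eq_mul]
      field_simp
    · have hy : Y.2 = -Y.1 := by linarith
      have ha : Y.1 ≠ 0 := fun h0 => hY (Prod.ext h0 (by rw [hy, h0]; simp))
      have ha' := abs_pos.mpr ha
      obtain ⟨n, hn⟩ := exists_nat_gt (|S| * |Y.1|)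
      have hP : 0 < P n := by linarith [H.p1 n]
      set m : ℕ := ⌊|S| * |Y.1| / P n⌋₊ + 1 with hm
      have m3 : |S| * |Y.1| < m * P n := by
        rw [← div_lt_iff₀ hP, hm]; push_cast; exact Nat.lt_floor_add_one _
      have m4 : m * P n ≤ J (n + 1) := by
        have f1 := Nat.floor_le (show 0 ≤ |S| * |Y.1| / P n by positivity)
        rw [le_div_iff₀ hP] at f1
        rw [hm]; push_cast
        linarith [(H.grow n).2.1]
      obtain ⟨i, hi⟩ : ∃ i : ℤ, (m * P n / |Y.1|) • Y = (i * P n, -(i * P n)) ∧ |i * P n| = m * P n := by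
        have hm0 : 0 ≤ m * P n := by positivity
        rcases lt_or_gt_of_ne ha with h0 | h0
        · refine ⟨-m, Prod.ext ?_ ?_, ?_⟩
          · simp only [Prod.smul_fst, smul_eq_mul, abs_of_neg h0]; push_cast; field_simp
          · simp only [Prod.smul_snd, smul_eq_mul, abs_of_neg h0, hy]; push_cast; field_simp
          · push_cast; rw [neg_mul, abs_neg, abs_of_nonneg hm0]
        · refine ⟨m, Prod.ext ?_ ?_, ?_⟩
          · simp only [Prod.smul_fst, smul_eq_mul, abs_of_pos h0]; push_cast; field_simp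
          · simp only [Prod.smul_snd, smul_eq_mul, abs_of_pos h0, hy]; push_cast; field_simp
          · push_cast; rw [abs_of_nonneg hm0]
      refine ⟨m * P n / |Y.1|, ?_, ?_⟩
      · rw [lt_div_iff₀ ha']
        exact lt_of_le_of_lt (mul_le_mul_of_nonneg_right (le_abs_self S) ha'.le) m3
      · obtain ⟨q, q1, -, e⟩ := sh n (i * P n, -(i * P n)) _ hi.2.le
          (by rw [abs_neg]; exact hi.2.le) m4
        obtain ⟨γ, hγ⟩ := H.per n i
        obtain ⟨p, e', -, p2⟩ := hx n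
        have p3 : Ent 3 p⁻¹ := (Ent.inv p2.ent).mono (by
          have : exp (-(4 * J (n + 1))) ≤ 1 := exp_le_one_iff.mpr (by linarith [H.pos n])
          linarith)
        have f := q1.mul (p3.mul (g := x) (fun i j => (hR i j).le))
        refine ⟨γ⁻¹, ?_⟩
        rw [hi.1, e, hγ, map_inv, ← mul_assoc, mul_inv_cancel_right]
        rw [e', inv_mul_cancel_left] at f
        exact f.mono (by linarith)
    · obtain ⟨n, hn, hn'⟩ := (exists_parity (max (S * (Y.1 + Y.2))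
        ((|Y.1| + |Y.2|) / (Y.1 + Y.2)))).1
      rw [max_lt_iff] at hn'
      have h1 := H.ev n hn
      have h2 := (H.grow (n + 1)).2.2.2
      have hn0 : (0 : ℝ) ≤ n := Nat.cast_nonneg n
      rw [abs_of_nonpos (by linarith)] at h2
      push_cast at h2
      have c1 := cross hs hn'.1 hn'.2 (le_neg.mp h1) h2 hn0 m1
      have c2 := cross hs hn'.1 hn'.2 (le_neg.mp h1) h2 hn0 m2
      refine ⟨_, c1.1, ?_⟩
      obtain ⟨q, q1, -, e⟩ := sh (n + 1) ((-k (n + 1) / (Y.1 + Y.2)) • Y) _ c1.2 c2.2 le_rfl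
      rw [e]
      refine (Bdd.left q1 ((H.q (n + 1)).top ?_)).mono (by linarith)
      have := hs.ne'
      simp only [Prod.smul_fst, Prod.smul_snd, smul_eq_mul]
      rw [← mul_add, div_mul_cancel₀ _ this]
  · obtain ⟨K, hK⟩ := exists_nat_gt (max (9 / δ) (1 / κ))
    rw [max_lt_iff, div_lt_iff₀ hδ, div_lt_iff₀ hκ] at hK
    refine ⟨J (K + 1), fun T hT => ?_⟩
    have hex : ∃ j : ℕ, T < J (K + j + 2) := by
      obtain ⟨j, hj⟩ := exists_nat_gt T
      refine ⟨j, ?_⟩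
      have h1 := (H.grow (K + j + 1)).2.1
      have h2 := H.p1 (K + j + 1)
      have h3 : (0 : ℝ) ≤ K := Nat.cast_nonneg K
      push_cast at h1
      linarith
    classical
    obtain ⟨n, n1, n2, n3⟩ : ∃ n, K ≤ n ∧ J (n + 1) ≤ T ∧ T ≤ J (n + 1 + 1) := by
      refine ⟨K + Nat.find hex, by omega, ?_, (Nat.find_spec hex).le⟩
      rcases h0 : Nat.find hex with _ | j
      · simpa using hT
      · have := Nat.find_min hex (show j < Nat.find hex by omega)
        exact not_lt.mp this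
    have n4 : (K : ℝ) ≤ n := by exact_mod_cast n1
    have n5 : (0 : ℝ) < n + 1 := by positivity
    refine le_trans (measure_mono ?_) ((H2 n T n2).trans (ENNReal.ofReal_le_ofReal ?_))
    · rintro Y ⟨y1, y2, y3⟩
      refine ⟨y1, y2, fun hc => y3 ?_⟩
      obtain ⟨q, q1, q2, e⟩ := sh (n + 1) Y T y1 y2 n3
      rw [e]
      refine (hc.left q1 q2).mono ?_
      rw [show 3 * (3 * (1 / ((n : ℝ) + 1))) = 9 / (n + 1) by ring, div_le_iff₀ n5]
      nlinarith [hK.1]
    · have hT0 : 0 ≤ T := (H.pos n).trans n2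
      apply mul_le_mul_of_nonneg_right _ (mul_nonneg (hφ0 T hT0) hT0)
      rw [div_le_iff₀ n5]
      nlinarith [hK.2]

end Pool.Agent.Lib.MP_f4a5b0_an.H96
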