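import Pool.Agent.Lib.MP_f4a5b0_an.H96Defs

set_option autoImplicit false

namespace Pool.Agent.Lib.MP_f4a5b0_an.H96

open Matrix Real

abbrev GZ : Type := Matrix.SpecialLinearGroup (Fin 3) ℤ

noncomputable abbrev cz : GZ →* G := Matrix.SpecialLinearGroup.map (Int.castRingHom ℝ)

lemma cz_val (γ : GZ) (i j : Fin 3) : (cz γ).1 i j = (γ.1 i j : ℝ) := by simp

/-- Inverse transpose. -/
noncomputable def dual (g : G) : G := Matrix.SpecialLinearGroup.transpose g⁻¹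

lemma dual_val (g : G) : (dual g).1 = ((g⁻¹).1)ᵀ := rfl

lemma dual_mul (g h : G) : dual (g * h) = dual g * dual h := by
  apply Subtype.ext
  rw [Matrix.SpecialLinearGroup.coe_mul, dual_val, dual_val, dual_val, _root_.mul_inv_rev,
    Matrix.SpecialLinearGroup.coe_mul, Matrix.transpose_mul]

lemma dual_one : dual 1 = 1 := by
  apply Subtype.ext
  rw [dual_val, inv_one]; simp

lemma dual_inv (g : G) : dual g⁻¹ = (dual g)⁻¹ := by
  rw [eq_inv_iff_mul_eq_one, ← dual_mul, inv_mul_cancel, dual_one]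

lemma dual_inv_val (g : G) : ((dual g)⁻¹).1 = (g.1)ᵀ := by
  rw [← dual_inv, dual_val, inv_inv]

lemma dual_dual (g : G) : dual (dual g) = g := by
  apply Subtype.ext
  rw [dual_val, dual_inv_val, Matrix.transpose_transpose]

lemma eq_dual {g h : G} (e : (g.1)ᵀ * h.1 = 1) : h = dual g := by
  have : (dual g)⁻¹ * h = 1 := by
    apply Subtype.ext
    rw [Matrix.SpecialLinearGroup.coe_mul, dual_inv_val, e]; rfl
  rw [inv_mul_eq_one] at this
  exact this.symm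

lemma dual_cz (γ : GZ) : dual (cz γ) = cz (Matrix.SpecialLinearGroup.transpose γ⁻¹) := by
  apply Subtype.ext
  rw [dual_val, ← map_inv]
  ext i j
  rw [Matrix.transpose_apply, cz_val, cz_val]; rfl

lemma expA_val (Y : ℝ × ℝ) :
    (expA Y).1 = Matrix.diagonal ![exp Y.1, exp Y.2, exp (-(Y.1 + Y.2))] := rfl

lemma expA_add (Y Z : ℝ × ℝ) : expA (Y + Z) = expA Y * expA Z := by
  apply Subtype.ext
  rw [Matrix.SpecialLinearGroup.coe_mul, expA_val, expA_val, expA_val, Matrix.diagonal_mul_diagonal]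
  congr 1
  ext i
  fin_cases i <;> simp [← exp_add]
  ring

lemma expA_zero : expA 0 = 1 := by
  apply Subtype.ext
  rw [expA_val]
  ext i j
  fin_cases i <;> fin_cases j <;> simp

lemma expA_neg (Y : ℝ × ℝ) : expA (-Y) = (expA Y)⁻¹ := by
  rw [eq_inv_iff_mul_eq_one, ← expA_add, neg_add_cancel, expA_zero]

lemma dual_expA (Y : ℝ × ℝ) : dual (expA Y) = expA (-Y) := by
  apply Subtype.ext
  rw [dual_val, ← expA_neg, expA_val, Matrix.diagonal_transpose]

lemma exists_gamma (g g' : G) (M : Matrix (Fin 3) (Fin 3) ℤ)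
    (e : g'.1 = g.1 * M.map (Int.castRingHom ℝ)) : ∃ γ : GZ, g' = g * cz γ := by
  have hd : M.det = 1 := by
    have h := congrArg Matrix.det e
    rw [Matrix.det_mul, g.2, g'.2, one_mul, ← RingHom.mapMatrix_apply, ← RingHom.map_det] at h
    simp only [eq_intCast] at h
    exact_mod_cast h.symm
  exact ⟨⟨M, hd⟩, Subtype.ext e⟩

/-- All entries are at most `C`. -/
def Ent (C : ℝ) (g : G) : Prop := ∀ i j, |g.1 i j| ≤ C

/-- The lattice has a nonzero vector of sup norm at most `δ`. -/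
def Short (δ : ℝ) (g : G) : Prop :=
  ∃ v : Fin 3 → ℤ, v ≠ 0 ∧ ∀ i, |(g.1 *ᵥ fun j => (v j : ℝ)) i| ≤ δ

def Cusp (δ : ℝ) (g : G) : Prop := Short δ g ∨ Short δ (dual g)

/-- The lattice has a basis of sup norm at most `R`. -/
def Bdd (R : ℝ) (g : G) : Prop := ∃ γ : GZ, Ent R (g * cz γ)

def Near (β : ℝ) (p : G) : Prop := ∀ i j, |p.1 i j - (1 : Matrix (Fin 3) (Fin 3) ℝ) i j| ≤ β

lemma sum_bound (u v : Fin 3 → ℝ) (R δ : ℝ) (hu : ∀ i, |u i| ≤ R) (hv : ∀ i, |v i| ≤ δ) :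
    |u ⬝ᵥ v| ≤ 3 * (R * δ) := by
  have key : ∀ i, |u i * v i| ≤ R * δ := fun i => by
    rw [abs_mul]
    exact mul_le_mul (hu i) (hv i) (abs_nonneg _) ((abs_nonneg _).trans (hu i))
  simp only [dotProduct, Fin.sum_univ_three]
  have h0 := abs_le.mp (key 0)
  have h1 := abs_le.mp (key 1)
  have h2 := abs_le.mp (key 2)
  rw [abs_le]; constructor <;> linarith [h0.1, h0.2, h1.1, h1.2, h2.1, h2.2]

lemma Ent.mul {C R : ℝ} {h g : G} (hh : Ent C h) (hg : Ent R g) : Ent (3 * (C * R)) (h * g) :=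
  fun i j => sum_bound (h.1 i) (fun k => g.1 k j) C R (hh i) (fun k => hg k j)

lemma Ent.mono {C R : ℝ} {g : G} (hg : Ent C g) (h : C ≤ R) : Ent R g :=
  fun i j => (hg i j).trans h

lemma Ent.dual {R : ℝ} {g : G} (hg : Ent R g) : Ent (2 * R ^ 2) (dual g) := by
  have key : ∀ i j k l, |g.1 i j * g.1 k l| ≤ R ^ 2 := fun i j k l => by
    rw [abs_mul, sq]
    exact mul_le_mul (hg i j) (hg k l) (abs_nonneg _) ((abs_nonneg _).trans (hg i j))
  have k2 : ∀ x y : ℝ, |x| ≤ R ^ 2 → |y| ≤ R ^ 2 → |x - y| ≤ 2 * R ^ 2 ∧ |-x + y| ≤ 2 * R ^ 2 := by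
    intro x y hx hy
    rw [abs_le] at hx hy
    constructor <;> rw [abs_le] <;> constructor <;> linarith [hx.1, hx.2, hy.1, hy.2]
  intro i j
  rw [dual_val, Matrix.SpecialLinearGroup.coe_inv, Matrix.adjugate_fin_three]
  fin_cases i <;> fin_cases j <;>
    first
    | exact (k2 _ _ (key _ _ _ _) (key _ _ _ _)).1
    | exact (k2 _ _ (key _ _ _ _) (key _ _ _ _)).2

lemma Ent.inv {R : ℝ} {g : G} (hg : Ent R (H96.dual g)) : Ent R g⁻¹ := fun i j => hg j i

lemma Short.mono {δ δ' : ℝ} {g : G} (h : Short δ g) (e : δ ≤ δ') : Short δ' g := by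
  obtain ⟨v, hv, h⟩ := h
  exact ⟨v, hv, fun i => (h i).trans e⟩

lemma Short.left {C δ : ℝ} {h g : G} (hh : Ent C h) (hg : Short δ g) :
    Short (3 * (C * δ)) (h * g) := by
  obtain ⟨v, hv, hg⟩ := hg
  refine ⟨v, hv, fun i => ?_⟩
  rw [Matrix.SpecialLinearGroup.coe_mul, ← Matrix.mulVec_mulVec]
  exact sum_bound _ _ C δ (hh i) hg

lemma Short.right {δ : ℝ} {g : G} (γ : GZ) (hg : Short δ (g * cz γ)) : Short δ g := by
  obtain ⟨v, hv, hg⟩ := hg
  refine ⟨γ.1 *ᵥ v, ?_, fun i => ?_⟩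
  · intro h0
    apply hv
    have := congrArg (fun v => (γ⁻¹).1 *ᵥ v) h0
    simp only [Matrix.mulVec_mulVec, ← Matrix.SpecialLinearGroup.coe_mul, inv_mul_cancel] at this
    simpa using this
  · have e : (fun j => (((γ.1 *ᵥ v) j : ℤ) : ℝ)) = (cz γ).1 *ᵥ fun j => (v j : ℝ) := by
      ext j
      simp [Matrix.mulVec, dotProduct, Fin.sum_univ_three]
    rw [e, Matrix.mulVec_mulVec]
    exact hg i

lemma Short.one {δ : ℝ} (h : Short δ 1) : 1 ≤ δ := by
  obtain ⟨v, hv, h⟩ := h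
  obtain ⟨i, hi⟩ := Function.ne_iff.mp hv
  have h1 : (1 : ℝ) ≤ |(v i : ℝ)| := by exact_mod_cast Int.one_le_abs hi
  have h2 := h i
  simp only [Matrix.SpecialLinearGroup.coe_one, Matrix.one_mulVec] at h2
  linarith

lemma Short.of_row {δ : ℝ} {g : G} (v : Fin 3 → ℤ) (hv : v ≠ 0) (ω : Fin 3 → ℝ)
    (hω : ∀ i, |ω i| ≤ δ) (e : ω ᵥ* g.1 = fun j => (v j : ℝ)) : Short δ (dual g) := by
  refine ⟨v, hv, fun i => ?_⟩
  rw [← e, dual_val, Matrix.mulVec_transpose, Matrix.vecMul_vecMul,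
    ← Matrix.SpecialLinearGroup.coe_mul, mul_inv_cancel]
  simpa using hω i

lemma Cusp.dual {δ : ℝ} {g : G} (h : Cusp δ (dual g)) : Cusp δ g := by
  unfold Cusp at h ⊢
  rw [dual_dual] at h
  exact h.symm

lemma Cusp.mono {δ δ' : ℝ} {g : G} (h : Cusp δ g) (e : δ ≤ δ') : Cusp δ' g :=
  h.imp (fun h => h.mono e) (fun h => h.mono e)

lemma Cusp.right {δ : ℝ} {g : G} (γ : GZ) (hg : Cusp δ (g * cz γ)) : Cusp δ g := by
  refine hg.imp (Short.right γ) fun h => ?_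
  rw [dual_mul, dual_cz] at h
  exact h.right _

lemma Cusp.left {C δ : ℝ} {h g : G} (hh : Ent C h) (hh' : Ent C (H96.dual h)) (hg : Cusp δ g) :
    Cusp (3 * (C * δ)) (h * g) := by
  refine hg.imp (Short.left hh) fun e => ?_
  rw [dual_mul]
  exact e.left hh'

lemma Bdd.left {C R : ℝ} {h g : G} (hh : Ent C h) (hg : Bdd R g) : Bdd (3 * (C * R)) (h * g) := by
  obtain ⟨γ, hg⟩ := hg
  exact ⟨γ, by rw [mul_assoc]; exact hh.mul hg⟩

lemma Bdd.right {R : ℝ} {g : G} (γ : GZ) (hg : Bdd R (g * cz γ)) : Bdd R g := by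
  obtain ⟨γ', hg⟩ := hg
  exact ⟨γ * γ', by rw [map_mul, ← mul_assoc]; exact hg⟩

lemma Bdd.mono {R R' : ℝ} {g : G} (hg : Bdd R g) (e : R ≤ R') : Bdd R' g := by
  obtain ⟨γ, hg⟩ := hg
  exact ⟨γ, hg.mono e⟩

lemma Bdd.dual {R : ℝ} {g : G} (hg : Bdd R (dual g)) : Bdd (2 * R ^ 2) g := by
  obtain ⟨γ, hg⟩ := hg
  have := hg.dual
  rw [dual_mul, dual_dual, dual_cz] at this
  exact ⟨_, this⟩

lemma one_entry (i j : Fin 3) : |(1 : Matrix (Fin 3) (Fin 3) ℝ) i j| ≤ 1 := by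
  rw [Matrix.one_apply]; split_ifs <;> simp

lemma Near.ent {β : ℝ} {p : G} (h : Near β p) : Ent (1 + β) p := by
  intro i j
  have h1 := abs_le.mp (h i j)
  have h2 := abs_le.mp (one_entry i j)
  rw [abs_le]; constructor <;> linarith [h1.1, h1.2, h2.1, h2.2]

lemma Near.mono {β β' : ℝ} {p : G} (h : Near β p) (e : β ≤ β') : Near β' p :=
  fun i j => (h i j).trans e

lemma Near.one {β : ℝ} (h : 0 ≤ β) : Near β 1 := fun i j => by simpa using h

lemma Near.mul {β β' : ℝ} {p q : G} (hp : Near β p) (hq : Near β' q) :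
    Near (3 * (β * (1 + β')) + β') (p * q) := by
  intro i j
  have h1 := sum_bound (fun k => p.1 i k - (1 : Matrix (Fin 3) (Fin 3) ℝ) i k) (fun k => q.1 k j)
    β (1 + β') (hp i) (fun k => hq.ent k j)
  have e : (p * q).1 i j - (1 : Matrix (Fin 3) (Fin 3) ℝ) i j =
      ((fun k => p.1 i k - (1 : Matrix (Fin 3) (Fin 3) ℝ) i k) ⬝ᵥ fun k => q.1 k j) +
        (q.1 i j - (1 : Matrix (Fin 3) (Fin 3) ℝ) i j) := by
    have : ((fun k => p.1 i k - (1 : Matrix (Fin 3) (Fin 3) ℝ) i k) ⬝ᵥ fun k => q.1 k j) =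
        ((p.1 - 1) * q.1) i j := rfl
    rw [this, sub_mul, one_mul, Matrix.SpecialLinearGroup.coe_mul, Matrix.sub_apply]; ring
  rw [e]
  exact (abs_add_le _ _).trans (add_le_add h1 (hq i j))

lemma Near.conj {β T : ℝ} {p : G} (h : Near β p) {Y : ℝ × ℝ} (h1 : |Y.1| ≤ T) (h2 : |Y.2| ≤ T)
    (hβ : β * exp (3 * T) ≤ 2) : Ent 3 (expA Y * p * expA (-Y)) := by
  have hβ0 : 0 ≤ β := (abs_nonneg _).trans (h 0 0)
  rw [abs_le] at h1 h2
  have key : ∀ (i j : Fin 3) (x y : ℝ), x + y ≤ 3 * T → (i = j → x + y = 0) →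
      |exp x * p.1 i j * exp y| ≤ 3 := by
    intro i j x y hxy hij
    have e : exp x * p.1 i j * exp y = exp (x + y) * (1 : Matrix (Fin 3) (Fin 3) ℝ) i j +
        exp (x + y) * (p.1 i j - (1 : Matrix (Fin 3) (Fin 3) ℝ) i j) := by rw [exp_add]; ring
    have a1 : |exp (x + y) * (1 : Matrix (Fin 3) (Fin 3) ℝ) i j| ≤ 1 := by
      rw [Matrix.one_apply]
      split_ifs with hh
      · rw [hij hh]; simp
      · simp
    have a2 : |exp (x + y) * (p.1 i j - (1 : Matrix (Fin 3) (Fin 3) ℝ) i j)| ≤ 2 := by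
      rw [abs_mul, abs_of_pos (exp_pos _)]
      have := mul_le_mul (exp_le_exp.mpr hxy) (h i j) (abs_nonneg _) (exp_pos _).le
      linarith
    rw [e]
    exact (abs_add_le _ _).trans (by linarith)
  intro i j
  rw [Matrix.SpecialLinearGroup.coe_mul, Matrix.SpecialLinearGroup.coe_mul, expA_val, expA_val,
    Matrix.mul_diagonal, Matrix.diagonal_mul]
  fin_cases i <;> fin_cases j <;> apply key <;> simp <;> linarith [h1.1, h1.2, h2.1, h2.2]

lemma shadow {β T : ℝ} {p : G} (h : Near β p) (h' : Near β (dual p)) {Y : ℝ × ℝ}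
    (h1 : |Y.1| ≤ T) (h2 : |Y.2| ≤ T) (hβ : β * exp (3 * T) ≤ 2) (g : G) :
    ∃ q : G, Ent 3 q ∧ Ent 3 (dual q) ∧ expA Y * (p * g) = q * (expA Y * g) := by
  refine ⟨expA Y * p * expA (-Y), h.conj h1 h2 hβ, ?_, by rw [expA_neg]; group⟩
  rw [dual_mul, dual_mul, dual_expA, dual_expA]
  exact h'.conj (Y := -Y) (by simpa using h1) (by simpa using h2) hβ

lemma isCompact_ent (R : ℝ) : IsCompact {g : G | Ent R g} := by
  have h : IsCompact {M : Matrix (Fin 3) (Fin 3) ℝ | ∀ i j, |M i j| ≤ R} := by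
    have : {M : Matrix (Fin 3) (Fin 3) ℝ | ∀ i j, |M i j| ≤ R} =
        Set.pi Set.univ (fun _ => Set.pi Set.univ (fun _ => Set.Icc (-R) R)) := by
      ext M
      exact ⟨fun h i _ j _ => abs_le.mp (h i j), fun h i j => abs_le.mpr (h i trivial j trivial)⟩
    rw [this]
    exact isCompact_univ_pi fun _ => isCompact_univ_pi fun _ => isCompact_Icc
  exact Matrix.SpecialLinearGroup.isClosedEmbedding_val.isCompact_preimage h

lemma exists_ent (g : G) : ∃ R : ℕ, ∀ i j, |g.1 i j| < R := by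
  obtain ⟨R, hR⟩ := exists_nat_gt (∑ i, ∑ j, |g.1 i j|)
  refine ⟨R, fun i j => lt_of_le_of_lt ?_ hR⟩
  have h1 : |g.1 i j| ≤ ∑ j, |g.1 i j| :=
    Finset.single_le_sum (f := fun j => |g.1 i j|) (fun _ _ => by positivity) (Finset.mem_univ j)
  have h2 : ∑ j, |g.1 i j| ≤ ∑ i, ∑ j, |g.1 i j| :=
    Finset.single_le_sum (f := fun i => ∑ j, |g.1 i j|) (fun _ _ => by positivity)
      (Finset.mem_univ i)
  linarith

lemma Bdd.mem {R : ℝ} {g : G} (h : Bdd R g) :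
    (g : G ⧸ Gamma) ∈ ((↑) : G → G ⧸ Gamma) '' {g : G | Ent R g} := by
  obtain ⟨γ, h⟩ := h
  exact ⟨_, h, QuotientGroup.mk_mul_of_mem _ ⟨γ, rfl⟩⟩

lemma not_cusp (K : Set (G ⧸ Gamma)) (hK : IsCompact K) :
    ∃ δ : ℝ, 0 < δ ∧ ∀ g : G, (g : G ⧸ Gamma) ∈ K → ¬Cusp δ g := by
  let V : ℕ → Set G := fun R => {g | ∀ i j, |g.1 i j| < R}
  have hVo : ∀ R, IsOpen (V R) := by
    intro R
    simp only [V, Set.ofPred_forall]
    refine isOpen_iInter_of_finite fun i => isOpen_iInter_of_finite fun j => ?_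
    have c1 : Continuous fun g : G => g.1 i j := by fun_prop
    exact isOpen_lt c1.abs continuous_const
  have hVm : Monotone V := by
    intro R R' h g hg i j
    have : (R : ℝ) ≤ R' := by exact_mod_cast h
    exact (hg i j).trans_le this
  obtain ⟨R, hR⟩ := hK.elim_directed_cover (fun R : ℕ => ((↑) : G → G ⧸ Gamma) '' V R)
    (fun R => QuotientGroup.isOpenMap_coe _ (hVo R)) (by
      intro x _
      obtain ⟨g, rfl⟩ := QuotientGroup.mk_surjective x
      obtain ⟨R, hR⟩ := exists_ent g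
      exact Set.mem_iUnion.mpr ⟨R, g, hR, rfl⟩)
    (Monotone.directed_le fun R R' h => Set.image_mono (hVm h))
  have hR0 : (0 : ℝ) ≤ R := Nat.cast_nonneg R
  set C : ℝ := 2 * (R : ℝ) ^ 2 + R + 1 with hC
  have hC0 : 0 < C := by positivity
  refine ⟨1 / (4 * C), by positivity, fun g hg hc => ?_⟩
  obtain ⟨h, hh, he⟩ := hR hg
  rw [QuotientGroup.eq] at he
  obtain ⟨γ, hγ⟩ := he
  have e : h = g * cz γ⁻¹ := by rw [map_inv, hγ]; group
  have hc' : Cusp (1 / (4 * C)) h := by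
    apply Cusp.right γ
    rw [e, mul_assoc, ← map_mul, inv_mul_cancel, map_one, mul_one]; exact hc
  have h1 : Ent R h := fun i j => (hh i j).le
  have h2 : Ent C h⁻¹ := (Ent.inv h1.dual).mono (by linarith)
  have h3 : Ent C (dual h⁻¹) := by
    intro i j
    rw [dual_inv, dual_inv_val]
    exact (h1 j i).trans (by nlinarith)
  have h4 := hc'.left h2 h3
  rw [inv_mul_cancel] at h4
  have h5 : 3 * (C * (1 / (4 * C))) = 3 / 4 := by field_simp
  rw [h5] at h4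
  rcases h4 with h4 | h4
  · have := h4.one; linarith
  · rw [dual_one] at h4
    have := h4.one; linarith

end Pool.Agent.Lib.MP_f4a5b0_an.H96
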