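import Pool.Agent.Lib.MP_f4a5b0_an.H96State
import Pool.Agent.Lib.MP_f4a5b0_an.Cover

set_option autoImplicit false

namespace Pool.Agent.Lib.MP_f4a5b0_an.H96

open Matrix Real Pool.Agent.Lib.MP_f4a5b0_an

/-- The quotient of `E j - 1` by the square root of two. -/
def bet (j : ℤ) : O := ⟨(E j).im, ((E j).re - 1) / 2⟩

lemma E_star {j : ℤ} (hj : Odd j) : E j * star (E j) = -1 := by
  rw [star_E_odd j hj, mul_neg, E_mul_neg]

lemma norm_E {j : ℤ} (hj : Odd j) : (E j).re * (E j).re - 2 * (E j).im * (E j).im = -1 := by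
  have := congrArg Zsqrtd.re (E_star hj)
  rw [← Zsqrtd.norm_eq_mul_conj, Zsqrtd.re_intCast, Zsqrtd.norm_def] at this
  simpa using this

lemma re_odd {j : ℤ} (hj : Odd j) : Odd (E j).re := by
  have h : Odd ((E j).re * (E j).re) := ⟨(E j).im * (E j).im - 1, by linarith [norm_E hj]⟩
  exact (Int.odd_mul.mp h).1

lemma r2_bet {j : ℤ} (hj : Odd j) : r2 * bet j = E j - 1 := by
  obtain ⟨m, hm⟩ := re_odd hj
  ext
  · simp [r2, bet]; omega
  · simp [r2, bet]

lemma norm_bet {j : ℤ} (hj : Odd j) : (bet j).norm = (E j).re := by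
  obtain ⟨m, hm⟩ := re_odd hj
  have h := norm_E hj
  have e : ((E j).re - 1) / 2 = m := by omega
  rw [Zsqrtd.norm_def]
  simp only [bet, e]
  rw [hm] at h ⊢
  nlinarith

lemma star_bet {j : ℤ} (hj : Odd j) : star (bet j) * E j - bet j = r2 := by
  obtain ⟨m, hm⟩ := re_odd hj
  have h := norm_E hj
  have e : ((E j).re - 1) / 2 = m := by omega
  ext
  · simp [bet, r2, e]
    rw [hm]; ring
  · simp [bet, r2, e]
    rw [hm] at h ⊢
    nlinarith

lemma cop_bet {j : ℤ} (hj : Odd j) : IsCoprime (bet j) (star (bet j)) := by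
  obtain ⟨m, hm⟩ := re_odd hj
  have h1 := Zsqrtd.norm_eq_mul_conj (bet j)
  rw [norm_bet hj, hm] at h1
  push_cast at h1
  refine ⟨star (bet j) + m * r2, -(m * r2 * E j), ?_⟩
  linear_combination -h1 - (m * r2) * star_bet hj - m * r2_sq

lemma one_add_pow' (x : O) (n : ℕ) : ∃ w, (1 + x) ^ n = 1 + n * x + x ^ 2 * w := by
  induction n with
  | zero => exact ⟨0, by simp⟩
  | succ n ih =>
    obtain ⟨w, hw⟩ := ih
    exact ⟨n + w + x * w, by rw [pow_succ, hw]; push_cast; ring⟩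

lemma E_mul_nat (j : ℤ) (n : ℕ) : E (j * n) = E j ^ n := by
  induction n with
  | zero => simp [E_zero]
  | succ n ih => rw [pow_succ, ← ih, ← E_add]; congr 1; push_cast; ring

lemma Ar.step {α s : O} {j0 : ℤ} (h : Ar α s j0) {r : ℤ} (hr : Odd r) (hr1 : 1 ≤ r) (c : ℤ) :
    Ar (α * bet (j0 * r)) (s * bet (j0 * r) + E c) (j0 * r * (E (j0 * r)).re) := by
  set j := j0 * r with hj
  have ho : Odd j := h.odd.mul hr
  have h1 : 1 ≤ j := by nlinarith [h.pos]
  have ha := one_le_re_E j ho h1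
  have hd : α ∣ bet j := by
    have h2 := h.dvd.trans (dvd_E_mul j0 r)
    rw [← hj, ← r2_bet ho] at h2
    exact h.cop2.of_mul_right_right.dvd_of_dvd_mul_left h2
  obtain ⟨b, hb⟩ := hd
  have hsq : α * bet j ∣ bet j ^ 2 := ⟨b, by rw [sq]; nth_rewrite 1 [hb]; ring⟩
  refine ⟨?_, ?_, ho.mul (re_odd ho), by nlinarith, hsq.trans ?_⟩
  · have h2 : star (α * bet j) ∣ star (bet j) ^ 2 := by
      rw [← star_pow]
      obtain ⟨w, hw⟩ := hsq
      exact ⟨star w, by rw [hw, star_mul']⟩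
    exact (((cop_bet ho).pow (m := 2) (n := 2)).of_isCoprime_of_dvd_left hsq).of_isCoprime_of_dvd_right
      h2
  · refine IsCoprime.of_isCoprime_of_dvd_right (IsCoprime.pow_right ⟨E (-c), -(s * E (-c)), ?_⟩) hsq
    linear_combination E_mul_neg c
  · obtain ⟨n, hn⟩ := Int.eq_ofNat_of_zero_le (show 0 ≤ (E j).re by omega)
    obtain ⟨w, hw⟩ := one_add_pow' (r2 * bet j) n
    have h2 := Zsqrtd.norm_eq_mul_conj (bet j)
    rw [norm_bet ho, hn] at h2
    push_cast at h2
    have h3 : E j = 1 + r2 * bet j := by rw [r2_bet ho]; ring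
    rw [hn, E_mul_nat, h3, hw, h2]
    exact ⟨star (bet j) * r2 + r2 ^ 2 * w, by ring⟩

lemma bet_real {j : ℤ} (hj : Odd j) (h1 : 1 ≤ j) :
    exp (j * ell) ≤ 3 * s1 (bet j) ∧ 1 ≤ 3 * s2 (bet j) ∧
    s1 (bet j) * s2 (bet j) = (E j).re ∧ √2 * s2 (bet j) - √2 * s1 (bet j) = 2 - 2 * (E j).re := by
  have e1 := congrArg s1 (r2_bet hj)
  have e2 := congrArg s2 (r2_bet hj)
  rw [map_mul, map_sub, map_one, s1_r2, s1_E] at e1
  rw [map_mul, map_sub, map_one, s2_r2, s2_E_odd j hj] at e2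
  have e3 := two_re_E_odd j hj
  have hj' : (1 : ℝ) ≤ j := by exact_mod_cast h1
  have h2 : exp ell ≤ exp (j * ell) := by apply exp_le_exp.mpr; nlinarith [ell_pos]
  have h3 := two_lt_exp_ell
  have h4 := exp_pos (-(j * ell))
  have h5 := sqrt2_gt
  have h6 := sqrt2_lt
  have p1 : 0 < s1 (bet j) := by
    by_contra hc
    nlinarith
  have p2 : 0 < s2 (bet j) := by
    by_contra hc
    nlinarith
  refine ⟨by nlinarith, by nlinarith, by rw [s1_mul_s2, norm_bet hj], by linarith⟩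

lemma short_B {g : G} {d1 d2 d3 z1 z2 δ : ℝ} (e : g.1 = B d1 d2 d3 z1 z2) (p : O) (n : ℤ)
    (hn : n ≠ 0) (h1 : |d1 * (s1 p + n * z1)| ≤ δ) (h2 : |d2 * (s2 p + n * z2)| ≤ δ)
    (h3 : |d3 * n| ≤ δ) : Short δ g := by
  refine ⟨![p.re, p.im, n], fun h0 => hn (congrFun h0 2), fun i => ?_⟩
  have : (fun j => ((![p.re, p.im, n] : Fin 3 → ℤ) j : ℝ)) = ![(p.re : ℝ), p.im, n] := by
    ext k; fin_cases k <;> simp
  rw [this, e, B_mulVec, ← s1_apply, ← s2_apply]
  fin_cases i
  · exact h1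
  · exact h2
  · exact h3

lemma short_dual_B {g : G} {d1 d2 d3 z1 z2 δ : ℝ} (e : g.1 = B d1 d2 d3 z1 z2) (w : O) (n : ℤ)
    (r : ℝ) (hn : w ≠ 0 ∨ n ≠ 0) (h0 : s1 w * z1 / 2 + s2 w * z2 / 2 + r = n)
    (h1 : |s1 w| ≤ δ * |d1|) (h2 : |s2 w| ≤ δ * |d2|) (h3 : |r| ≤ δ * |d3|) :
    Short δ (dual g) := by
  obtain ⟨n1, n2, n3⟩ := ne_of e
  refine Short.of_row ![w.re, 2 * w.im, n] ?_ ![s1 w / 2 / d1, s2 w / 2 / d2, r / d3] ?_ ?_
  · intro h
    have a0 : w.re = 0 := congrFun h 0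
    have a1 : 2 * w.im = 0 := congrFun h 1
    have a2 : n = 0 := congrFun h 2
    rcases hn with hn | hn
    · exact hn (Zsqrtd.ext a0 (by simpa using a1))
    · exact hn a2
  · intro i
    fin_cases i
    · show |s1 w / 2 / d1| ≤ δ
      rw [abs_div, abs_div, abs_two, div_le_iff₀ (abs_pos.mpr n1)]
      linarith [abs_nonneg (s1 w)]
    · show |s2 w / 2 / d2| ≤ δ
      rw [abs_div, abs_div, abs_two, div_le_iff₀ (abs_pos.mpr n2)]
      linarith [abs_nonneg (s2 w)]
    · show |r / d3| ≤ δ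
      rw [abs_div, div_le_iff₀ (abs_pos.mpr n3)]
      exact h3
  · rw [e]
    have f1 := im_eq w
    have f2 := re_eq w
    ext k
    fin_cases k <;> simp [B, Matrix.vecMul, dotProduct, Fin.sum_univ_three]
    · rw [f2]; field_simp
    · field_simp; linear_combination √2 * f1 + (2 * w.im) * sq2
    · rw [← h0]; field_simp

/-- Size bounds for the data of a stage. -/
structure Sz (C d1 d2 d3 : ℝ) (α : O) : Prop where
  b1 : 3 * (|d1| * |s2 α|) ≤ C
  b2 : 3 * (|d2| * |s1 α|) ≤ C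
  b3 : |d3| * |(α.norm : ℝ)| ≤ C
  b4 : 2 * |s1 α| ≤ C * |d1|
  b5 : 2 * |s2 α| ≤ C * |d2|
  b6 : 4 ≤ C * |d3|

lemma cover {g : G} {d1 d2 d3 C D δ : ℝ} {α s : O} {j c : ℤ} (hj : Odd j) (hj1 : 1 ≤ j)
    (hα : α.norm ≠ 0) (hS : Sz C d1 d2 d3 α)
    (e : g.1 = B d1 d2 d3 (s1 (s * bet j + E c) / s1 (α * bet j))
      (s2 (s * bet j + E c) / s2 (α * bet j)))
    (hD : 0 ≤ D) (hδ : C * exp (-D) ≤ δ) (Y : ℝ × ℝ) (y0 : D < |Y.1 + Y.2|)
    (y1 : D < |Y.1 + Y.2 - j * ell|)
    (y2 : ∀ i : ℤ, D < |Y.1 - (-(c * ell) + i * (j * ell))|)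
    (y3 : ∀ i : ℤ, D < |Y.2 - (c * ell + i * (j * ell))|) : Cusp δ (expA Y * g) := by
  obtain ⟨t1, t2, t3, t4⟩ := bet_real hj hj1
  have hM := exp_pos (j * ell)
  have p1 : 0 < s1 (bet j) := by linarith
  have p2 : 0 < s2 (bet j) := by linarith
  have hn := s1_mul_s2 α
  have hn0 : (α.norm : ℝ) ≠ 0 := by exact_mod_cast hα
  obtain ⟨a1, a2⟩ : s1 α ≠ 0 ∧ s2 α ≠ 0 := mul_ne_zero_iff.mp (by rw [hn]; exact hn0)
  obtain ⟨ra, rb⟩ := re_E_bounds j hj hj1
  have ha := one_le_re_E j hj hj1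
  have ha' : (1 : ℝ) ≤ (E j).re := by exact_mod_cast ha
  have e' := Matrix.SpecialLinearGroup.coe_mul (expA Y) g
  rw [e, expA_B] at e'
  have hC : 0 ≤ C := le_trans (by positivity) hS.b1
  have hj' : (1 : ℝ) ≤ j := by exact_mod_cast hj1
  have hP : 0 < j * ell := by nlinarith [ell_pos]
  have small : ∀ x t : ℝ, 0 ≤ x → x ≤ C → t ≤ -D → exp t * x ≤ δ := by
    intro x t h0 h1 h2
    have := mul_le_mul (exp_le_exp.mpr h2) h1 h0 (exp_pos _).le
    linarith
  have big : ∀ x d t y : ℝ, x ≤ C * |d| → t + D ≤ y → 0 ≤ x → x * exp t ≤ δ * |exp y * d| := by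
    intro x d t y h1 h2 h0
    rw [abs_mul, abs_of_pos (exp_pos y)]
    have h3 : exp t ≤ exp (-D) * exp y := by rw [← exp_add]; apply exp_le_exp.mpr; linarith
    calc x * exp t ≤ (C * |d|) * (exp (-D) * exp y) := mul_le_mul h1 h3 (exp_pos _).le (by positivity)
      _ = (C * exp (-D)) * (exp y * |d|) := by ring
      _ ≤ _ := mul_le_mul_of_nonneg_right hδ (by positivity)
  have hδ0 : 0 ≤ δ := le_trans (by positivity) hδ
  rcases lt_abs.mp y0 with y0 | y0
  swap
  · refine Or.inr (short_dual_B e' 0 1 1 (Or.inr one_ne_zero) (by simp) (by simp; positivity)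
      (by simp; positivity) ?_)
    have := big 1 d3 0 (-(Y.1 + Y.2)) (by linarith [hS.b6]) (by linarith) zero_le_one
    simpa using this
  rcases lt_abs.mp y1 with y1 | y1
  · refine Or.inl (short_B e' (-(s * star α * ((E j).re : O) + star α * star (bet j) * E c))
      (α.norm * (E j).re) (mul_ne_zero hα (by omega)) ?_ ?_ ?_)
    · rw [show s1 (-(s * star α * ((E j).re : O) + star α * star (bet j) * E c)) +
        ((α.norm * (E j).re : ℤ) : ℝ) * (s1 (s * bet j + E c) / s1 (α * bet j)) = 0 by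
          simp only [map_neg, map_add, map_mul, map_intCast, s1_star]
          push_cast
          rw [← hn, ← t3]; field_simp; ring]
      simpa using hδ0
    · rw [show s2 (-(s * star α * ((E j).re : O) + star α * star (bet j) * E c)) +
        ((α.norm * (E j).re : ℤ) : ℝ) * (s2 (s * bet j + E c) / s2 (α * bet j)) = 0 by
          simp only [map_neg, map_add, map_mul, map_intCast, s2_star]
          push_cast
          rw [← hn, ← t3]; field_simp; ring]
      simpa using hδ0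
    · push_cast
      rw [abs_mul, abs_mul, abs_mul, abs_of_pos (exp_pos _), abs_of_pos (by linarith : (0 : ℝ) < (E j).re)]
      have h1 := small (|d3| * |(α.norm : ℝ)|) (-(Y.1 + Y.2) + j * ell) (by positivity) hS.b3
        (by linarith)
      rw [exp_add] at h1
      have h2 : exp (-(Y.1 + Y.2)) * (|d3| * |(α.norm : ℝ)|) * ((E j).re : ℝ) ≤
          exp (-(Y.1 + Y.2)) * (|d3| * |(α.norm : ℝ)|) * exp (j * ell) :=
        mul_le_mul_of_nonneg_left (by linarith) (by positivity)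
      nlinarith
  obtain ⟨i1, u1, l1⟩ := exists_window Y.1 _ _ D hP hD y2
  obtain ⟨i2, u2, l2⟩ := exists_window Y.2 _ _ D hP hD y3
  have k1 : (0 : ℝ) < (i1 + i2 : ℤ) := by
    push_cast
    by_contra hc
    nlinarith
  have k2 : ((i1 + i2 : ℤ) : ℝ) < 3 := by
    push_cast
    by_contra hc
    nlinarith
  have k1' : 0 < i1 + i2 := by exact_mod_cast k1
  have k2' : i1 + i2 < 3 := by exact_mod_cast k2
  rcases (show i1 = 1 - i2 ∨ i2 = 2 - i1 by omega) with k | k
  · obtain ⟨l, hl⟩ := dvd_E_mul j i2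
    rw [← r2_bet hj] at hl
    have hl' : E (c + j * i2) = E c * (1 + r2 * bet j * l) := by rw [E_add, ← hl]; ring
    rw [k] at u1
    push_cast at u1
    refine Or.inl (short_B e' (star α * E c * r2 * l - s * star α) α.norm hα ?_ ?_ ?_)
    · rw [show s1 (star α * E c * r2 * l - s * star α) +
        (α.norm : ℝ) * (s1 (s * bet j + E c) / s1 (α * bet j)) =
          s2 α * s1 (E (c + j * i2)) / s1 (bet j) by
          rw [hl']
          simp only [map_sub, map_add, map_mul, map_one, s1_star]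
          rw [← hn]; field_simp; ring]
      rw [abs_mul, abs_mul, abs_div, abs_mul, abs_s1_E, abs_of_pos (exp_pos _), abs_of_pos p1,
        ← mul_div_assoc, div_le_iff₀ p1]
      have h1 := small _ (Y.1 + (c + j * i2 : ℤ) * ell - j * ell) (by positivity) hS.b1
        (by push_cast; linarith)
      have h2 : exp (Y.1 + (c + j * i2 : ℤ) * ell - j * ell) * exp (j * ell) =
          exp Y.1 * exp ((c + j * i2 : ℤ) * ell) := by rw [← exp_add, ← exp_add]; ring_nf
      have h3 := mul_le_mul h1 t1 hM.le hδ0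
      rw [mul_right_comm, h2] at h3
      linarith
    · rw [show s2 (star α * E c * r2 * l - s * star α) +
        (α.norm : ℝ) * (s2 (s * bet j + E c) / s2 (α * bet j)) =
          s1 α * s2 (E (c + j * i2)) / s2 (bet j) by
          rw [hl']
          simp only [map_sub, map_add, map_mul, map_one, s2_star]
          rw [← hn]; field_simp; ring]
      rw [abs_mul, abs_mul, abs_div, abs_mul, abs_s2_E, abs_of_pos (exp_pos _), abs_of_pos p2,
        ← mul_div_assoc, div_le_iff₀ p2]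
      have h1 := small _ (Y.2 + -((c + j * i2 : ℤ) * ell)) (by positivity) hS.b2
        (by push_cast; linarith)
      rw [exp_add] at h1
      have h3 := mul_le_mul h1 t2 zero_le_one hδ0
      nlinarith
    · rw [abs_mul, abs_mul, abs_of_pos (exp_pos _), mul_assoc]
      exact small _ _ (by positivity) hS.b3 (by linarith)
  · obtain ⟨l, hl⟩ := dvd_E_mul j (i1 - 1)
    rw [← r2_bet hj] at hl
    have hl' : E (j * (i1 - 1) - c) * E c = 1 + r2 * bet j * l := by
      rw [← E_add, sub_add_cancel, ← hl]; ring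
    rw [k] at l2
    push_cast at l2
    have hs := sqrt2_gt
    have hs' := sqrt2_lt
    refine Or.inr (short_dual_B e' (r2 * α * E (j * (i1 - 1) - c))
      ((r2 * E (j * (i1 - 1) - c) * s).re + 2 * l.re - 1) (-1 / (E j).re) (Or.inl ?_) ?_ ?_ ?_ ?_)
    · intro h0
      have := congrArg s1 h0
      rw [map_mul, map_mul, s1_r2, s1_E, map_zero] at this
      exact mul_ne_zero (mul_ne_zero (by linarith) a1) (exp_pos _).ne' this
    · have f1 := congrArg s1 hl'
      have f2 := congrArg s2 hl'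
      push_cast
      rw [re_eq (r2 * _ * s), re_eq l, ← t3]
      rw [← t3] at t4
      simp only [map_add, map_mul, map_one, s1_r2, s2_r2] at f1 f2 ⊢
      field_simp
      linear_combination (√2 * s2 (bet j)) * f1 - (√2 * s1 (bet j)) * f2 + t4 +
        (s1 (bet j) * s2 (bet j) * (s1 l + s2 l)) * sq2
    · rw [map_mul, map_mul, abs_mul, abs_mul, abs_s1_E, s1_r2, abs_of_pos (by linarith : 0 < √2)]
      refine big _ d1 _ _ (by nlinarith [hS.b4, abs_nonneg (s1 α)]) (by push_cast; linarith)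
        (by positivity)
    · rw [map_mul, map_mul, abs_mul, abs_mul, abs_s2_E, s2_r2, abs_neg,
        abs_of_pos (by linarith : 0 < √2)]
      refine big _ d2 _ _ (by nlinarith [hS.b5, abs_nonneg (s2 α)]) (by push_cast; linarith)
        (by positivity)
    · refine le_trans ?_ (big 4 d3 (-(j * ell)) _ hS.b6 (by linarith) (by norm_num))
      rw [abs_div, abs_neg, abs_one, abs_of_pos (by linarith), Real.exp_neg, ← div_eq_mul_inv,
        div_le_div_iff₀ (by linarith) hM]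
      linarith

end Pool.Agent.Lib.MP_f4a5b0_an.H96
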