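import Mathlib

/-!
The group SL(3, ℝ), the lattice SL(3, ℤ), the diagonal torus and divergent orbits.
-/

set_option autoImplicit false

namespace Pool.Agent.Lib.MP_f4a5b0_an.H96

/-- The group SL(3, ℝ). -/
abbrev G : Type := Matrix.SpecialLinearGroup (Fin 3) ℝ

/-- The lattice SL(3, ℤ) inside SL(3, ℝ). -/
def Gamma : Subgroup G :=
  (Matrix.SpecialLinearGroup.map (n := Fin 3) (Int.castRingHom ℝ)).range

/-- The exponential map of the diagonal torus A, in the coordinates
(s, t) ↦ diag (e^s, e^t, e^(-s-t)). -/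
noncomputable def expA (Y : ℝ × ℝ) : G :=
  ⟨Matrix.diagonal ![Real.exp Y.1, Real.exp Y.2, Real.exp (-(Y.1 + Y.2))], by
    rw [Matrix.det_diagonal, Fin.prod_univ_three]
    simp [← Real.exp_add]⟩

/-- The orbit D x is divergent: for each compact K the set of d in D with d x in K is compact. -/
def IsDivergent (D : Set G) (x : G ⧸ Gamma) : Prop :=
  ∀ K : Set (G ⧸ Gamma), IsCompact K → IsCompact {d : G | d ∈ D ∧ d • x ∈ K}

end Pool.Agent.Lib.MP_f4a5b0_an.H96
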