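import Pool.Agent.Lib.MP_f4a5b0_an.H96Step

set_option autoImplicit false

namespace Pool.Agent.Lib.MP_f4a5b0_an.H96

open Real MeasureTheory Pool.Agent.Lib.MP_f4a5b0_an

/-- The sequence of stages. -/
structure Chain (g u : ℕ → G) (h k P J : ℕ → ℝ) : Prop where
  q : ∀ n, Q (g n) (h n) (k n)
  p1 : ∀ n, 1 ≤ P n
  per : ∀ n (i : ℤ), ∃ γ : GZ, expA (i * P n, -(i * P n)) * g n = g n * cz γ
  succ : ∀ n, g (n + 1) = u n * g n
  big : ∀ n, |J n| + 1 + n + P n + n * (|h n| + |k n|) ≤ J (n + 1)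
  ev : ∀ n, Even n → k (n + 1) ≤ -n
  od : ∀ n, Odd n → h (n + 1) ≤ -n
  n1 : ∀ n, Near (exp (-(4 * J (n + 1)))) (u n)
  n2 : ∀ n, Near (exp (-(4 * J (n + 1)))) (dual (u n))
  cov : ∀ n T, J (n + 1) ≤ T → volume (Bad (1 / (n + 1)) T (g (n + 1))) ≤
    ENNReal.ofReal (1 / (n + 1) * T ^ 2)

lemma exists_chain : ∃ g u h k P J, Chain g u h k P J := by
  let S := {x : G × ℝ × ℝ × ℝ // Q x.1 x.2.1 x.2.2.1}
  have hP : ∀ x : S, ∃ P : ℝ, 1 ≤ P ∧ ∀ i : ℤ, ∃ γ : GZ,
      expA (i * P, -(i * P)) * x.1.1 = x.1.1 * cz γ := fun x => x.2.period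
  choose P hP1 hP2 using hP
  have hs := fun (n : ℕ) (x : S) => step x.2 n
    (|x.1.2.2.2| + 1 + n + P x + n * (|x.1.2.1| + |x.1.2.2.1|))
  choose J h k u a1 a2 a3 a4 a5 a6 a7 using hs
  obtain ⟨g0, h0, k0, q0⟩ := exists_Q
  let x : ℕ → S := fun n => Nat.rec ⟨(g0, h0, k0, 0), q0⟩
    (fun n y => ⟨(u n y * y.1.1, h n y, k n y, J n y), a4 n y⟩) n
  have pos : ∀ n : ℕ, (n : ℝ) ≤ |(x n).1.2.2.2| + 1 + n + P (x n) +
      n * (|(x n).1.2.1| + |(x n).1.2.2.1|) := by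
    intro n
    have h1 := hP1 (x n)
    have h2 := abs_nonneg (x n).1.2.2.2
    have h3 : 0 ≤ n * (|(x n).1.2.1| + |(x n).1.2.2.1|) := by positivity
    linarith
  exact ⟨fun n => (x n).1.1, fun n => u n (x n), fun n => (x n).1.2.1, fun n => (x n).1.2.2.1,
    fun n => P (x n), fun n => (x n).1.2.2.2, fun n => (x n).2, fun n => hP1 _, fun n => hP2 _,
    fun n => rfl, fun n => a1 n (x n), fun n hn => (a2 n (x n) hn).trans (by linarith [pos n]),
    fun n hn => (a3 n (x n) hn).trans (by linarith [pos n]), fun n => a5 n (x n),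
    fun n => a6 n (x n), fun n => a7 n (x n)⟩

variable {g u : ℕ → G} {h k P J : ℕ → ℝ}

lemma Chain.grow (H : Chain g u h k P J) (n : ℕ) :
    J n + 1 ≤ J (n + 1) ∧ n + P n ≤ J (n + 1) ∧ n * |h n| ≤ J (n + 1) ∧ n * |k n| ≤ J (n + 1) := by
  have h0 := H.big n
  have h1 := H.p1 n
  have h2 := abs_nonneg (J n)
  have h3 := le_abs_self (J n)
  have h4 : 0 ≤ n * |h n| := by positivity
  have h5 : 0 ≤ n * |k n| := by positivity
  have h6 : (0 : ℝ) ≤ n := Nat.cast_nonneg n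
  refine ⟨?_, ?_, ?_, ?_⟩ <;> linarith

lemma Chain.pos (H : Chain g u h k P J) (n : ℕ) : 0 ≤ J (n + 1) := by
  have h1 := (H.grow n).2.1
  have h2 := H.p1 n
  have h6 : (0 : ℝ) ≤ n := Nat.cast_nonneg n
  linarith

lemma isClosed_near (β : ℝ) (c : G) :
    IsClosed {x : G | Near β (x * c) ∧ Near β (dual (x * c))} := by
  simp only [Near, Set.ofPred_and, Set.ofPred_forall]
  have c1 : ∀ i j, Continuous fun g : G => g.1 i j := fun i j => by fun_prop
  have c2 : Continuous fun x : G => x * c := continuous_mul_const c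
  refine IsClosed.inter ?_ ?_ <;> refine isClosed_iInter fun i => isClosed_iInter fun j => ?_
  · exact isClosed_le (((c1 i j).comp c2).sub continuous_const).abs continuous_const
  · exact isClosed_le (((c1 j i).comp c2.inv).sub continuous_const).abs continuous_const

lemma Chain.limit (H : Chain g u h k P J) : ∃ x : G, ∀ n, ∃ p : G, x = p * g n ∧
    Near (2 * exp (-(4 * J (n + 1)))) p ∧ Near (2 * exp (-(4 * J (n + 1)))) (dual p) := by
  have le1 : ∀ n, exp (-(4 * J (n + 1))) ≤ 1 := fun n =>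
    exp_le_one_iff.mpr (by linarith [H.pos n])
  have key : ∀ n, 3 * (2 * exp (-(4 * J (n + 1 + 1))) * (1 + exp (-(4 * J (n + 1))))) +
      exp (-(4 * J (n + 1))) ≤ 2 * exp (-(4 * J (n + 1))) := by
    intro n
    have h1 : exp (-(4 * J (n + 1 + 1))) * exp 4 ≤ exp (-(4 * J (n + 1))) := by
      rw [← exp_add]; apply exp_le_exp.mpr; linarith [(H.grow (n + 1)).1]
    have h2 : (16 : ℝ) ≤ exp 4 := by
      have h3 : (2 : ℝ) ≤ exp 1 := by linarith [add_one_le_exp 1]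
      have h4 : exp 4 = exp 1 ^ 4 := by rw [← exp_nat_mul]; norm_num
      rw [h4, show (16 : ℝ) = 2 ^ 4 by norm_num]
      gcongr
    have h5 := exp_pos (-(4 * J (n + 1 + 1)))
    have h6 := le1 n
    nlinarith
  obtain ⟨x, hx⟩ := IsCompact.nonempty_iInter_of_sequence_nonempty_isCompact_isClosed
    (fun n => {x : G | Near (2 * exp (-(4 * J (n + 1)))) (x * (g n)⁻¹) ∧
      Near (2 * exp (-(4 * J (n + 1)))) (dual (x * (g n)⁻¹))}) (by
      rintro n x ⟨h1, h2⟩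
      have e : x * (g n)⁻¹ = x * (g (n + 1))⁻¹ * u n := by rw [H.succ]; group
      refine ⟨?_, ?_⟩
      · rw [e]; exact (h1.mul (H.n1 n)).mono (key n)
      · rw [e, dual_mul]; exact (h2.mul (H.n2 n)).mono (key n))
    (fun n => ⟨g n, by
      constructor
      · rw [mul_inv_cancel]; exact Near.one (by positivity)
      · rw [mul_inv_cancel, dual_one]; exact Near.one (by positivity)⟩)
    (by
      obtain ⟨R, hR⟩ := exists_ent (g 0)
      refine (isCompact_ent (3 * ((1 + 2 * exp (-(4 * J (0 + 1)))) * R))).of_isClosed_subset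
        (isClosed_near _ _) ?_
      rintro x ⟨h1, -⟩
      have := h1.ent.mul (g := g 0) (fun i j => (hR i j).le)
      rwa [inv_mul_cancel_right] at this)
    (fun n => isClosed_near _ _)
  refine ⟨x, fun n => ⟨x * (g n)⁻¹, by group, Set.mem_iInter.mp hx n⟩⟩

lemma exp_ok {J T : ℝ} (h0 : 0 ≤ J) (h : T ≤ J) : 2 * exp (-(4 * J)) * exp (3 * T) ≤ 2 := by
  have : exp (-(4 * J)) * exp (3 * T) ≤ 1 := by
    rw [← exp_add]; apply exp_le_one_iff.mpr; linarith
  linarith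

lemma exists_parity (x : ℝ) : (∃ n : ℕ, Even n ∧ x < n) ∧ (∃ n : ℕ, Odd n ∧ x < n) := by
  obtain ⟨n, hn⟩ := exists_nat_gt x
  have h3 : (0 : ℝ) ≤ n := Nat.cast_nonneg n
  exact ⟨⟨2 * n, even_two_mul n, by push_cast; linarith⟩,
    ⟨2 * n + 1, odd_two_mul_add_one n, by push_cast; linarith⟩⟩

lemma cross {σ S n H J a M : ℝ} (hσ : 0 < σ) (h1 : S * σ < n) (h2 : M / σ < n) (h3 : n ≤ H)
    (h4 : (n + 1) * H ≤ J) (hn : 0 ≤ n) (ha : |a| ≤ M) : S < H / σ ∧ |H / σ * a| ≤ J := by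
  have hH : 0 ≤ H := hn.trans h3
  refine ⟨by rw [lt_div_iff₀ hσ]; linarith, ?_⟩
  rw [abs_mul, abs_of_nonneg (div_nonneg hH hσ.le)]
  have e : H / σ * |a| = H * (|a| / σ) := by ring
  have h5 : |a| / σ ≤ M / σ := by gcongr
  rw [e]
  nlinarith

theorem exists_point : ∃ (x : G) (R : ℝ),
    (∀ Y : ℝ × ℝ, Y ≠ 0 → ∀ S : ℝ, ∃ t, S < t ∧ Bdd R (expA (t • Y) * x)) ∧
    ∀ δ κ : ℝ, 0 < δ → 0 < κ → ∃ T0 : ℝ, ∀ T, T0 ≤ T →
      volume (Bad δ T x) ≤ ENNReal.ofReal (κ * T ^ 2) := by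
  obtain ⟨g, u, h, k, P, J, H⟩ := exists_chain
  obtain ⟨x, hx⟩ := H.limit
  obtain ⟨R, hR⟩ := exists_ent x
  have hR0 : (0 : ℝ) ≤ R := Nat.cast_nonneg R
  have sh : ∀ n (Z : ℝ × ℝ) (T : ℝ), |Z.1| ≤ T → |Z.2| ≤ T → T ≤ J (n + 1) →
      ∃ q : G, Ent 3 q ∧ Ent 3 (dual q) ∧ expA Z * x = q * (expA Z * g n) := by
    intro n Z T h1 h2 h3
    obtain ⟨p, e, p1, p2⟩ := hx n
    rw [e]
    exact shadow p1 p2 h1 h2 (exp_ok (H.pos n) h3) _
  refine ⟨x, 882 + 81 * R, fun Y hY S => ?_, fun δ κ hδ hκ => ?_⟩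
  · have m1 : |Y.1| ≤ |Y.1| + |Y.2| := by linarith [abs_nonneg Y.2]
    have m2 : |Y.2| ≤ |Y.1| + |Y.2| := by linarith [abs_nonneg Y.1]
    rcases lt_trichotomy (Y.1 + Y.2) 0 with hs | hs | hs
    · obtain ⟨n, hn, hn'⟩ := (exists_parity (max (S * -(Y.1 + Y.2))
        ((|Y.1| + |Y.2|) / -(Y.1 + Y.2)))).2
      rw [max_lt_iff] at hn'
      have h1 := H.od n hn
      have h2 := (H.grow (n + 1)).2.2.1
      have hn0 : (0 : ℝ) ≤ n := Nat.cast_nonneg n
      rw [abs_of_nonpos (by linarith)] at h2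
      push_cast at h2
      have c1 := cross (neg_pos.mpr hs) hn'.1 hn'.2 (le_neg.mp h1) h2 hn0 m1
      have c2 := cross (neg_pos.mpr hs) hn'.1 hn'.2 (le_neg.mp h1) h2 hn0 m2
      refine ⟨_, c1.1, ?_⟩
      obtain ⟨q, q1, -, e⟩ := sh (n + 1) ((-h (n + 1) / -(Y.1 + Y.2)) • Y) _ c1.2 c2.2 le_rfl
      rw [e]
      refine (Bdd.left q1 ((H.q (n + 1)).wall ?_)).mono (by linarith)
      have := hs.ne
      simp only [Prod.smul_fst, Prod.smul_snd, smul_eq_mul]
      field_simp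
    · have hy : Y.2 = -Y.1 := by linarith
      have ha : Y.1 ≠ 0 := fun h0 => hY (Prod.ext h0 (by rw [hy, h0]; simp))
      have ha' := abs_pos.mpr ha
      obtain ⟨n, hn⟩ := exists_nat_gt (|S| * |Y.1|)
      have hP : 0 < P n := by linarith [H.p1 n]
      set m : ℕ := ⌊|S| * |Y.1| / P n⌋₊ + 1 with hm
      have m3 : |S| * |Y.1| < m * P n := by
        rw [← div_lt_iff₀ hP, hm]; push_cast; exact Nat.lt_floor_add_one _
      have m4 : m * P n ≤ J (n + 1) := by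
        have f1 := Nat.floor_le (show 0 ≤ |S| * |Y.1| / P n by positivity)
        rw [le_div_iff₀ hP] at f1
        rw [hm]; push_cast
        linarith [(H.grow n).2.1]
      obtain ⟨i, hi⟩ : ∃ i : ℤ, (m * P n / |Y.1|) • Y = (i * P n, -(i * P n)) ∧ |i * P n| = m * P n := by
        have hm0 : 0 ≤ m * P n := by positivity
        rcases lt_or_gt_of_ne ha with h0 | h0
        · refine ⟨-m, Prod.ext ?_ ?_, ?_⟩
          · simp only [Prod.smul_fst, smul_eq_mul, abs_of_neg h0]; push_cast; field_simp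
          · simp only [Prod.smul_snd, smul_eq_mul, abs_of_neg h0, hy]; push_cast; field_simp
          · push_cast; rw [neg_mul, abs_neg, abs_of_nonneg hm0]
        · refine ⟨m, Prod.ext ?_ ?_, ?_⟩
          · simp only [Prod.smul_fst, smul_eq_mul, abs_of_pos h0]; push_cast; field_simp
          · simp only [Prod.smul_snd, smul_eq_mul, abs_of_pos h0, hy]; push_cast; field_simp
          · push_cast; rw [abs_of_nonneg hm0]
      refine ⟨m * P n / |Y.1|, ?_, ?_⟩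
      · rw [lt_div_iff₀ ha']
        exact lt_of_le_of_lt (mul_le_mul_of_nonneg_right (le_abs_self S) ha'.le) m3
      · obtain ⟨q, q1, -, e⟩ := sh n (i * P n, -(i * P n)) _ hi.2.le
          (by rw [abs_neg]; exact hi.2.le) m4
        obtain ⟨γ, hγ⟩ := H.per n i
        obtain ⟨p, e', -, p2⟩ := hx n
        have p3 : Ent 3 p⁻¹ := (Ent.inv p2.ent).mono (by
          have : exp (-(4 * J (n + 1))) ≤ 1 := exp_le_one_iff.mpr (by linarith [H.pos n])
          linarith)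
        have f := q1.mul (p3.mul (g := x) (fun i j => (hR i j).le))
        refine ⟨γ⁻¹, ?_⟩
        rw [hi.1, e, hγ, map_inv, ← mul_assoc, mul_inv_cancel_right]
        rw [e', inv_mul_cancel_left] at f
        exact f.mono (by linarith)
    · obtain ⟨n, hn, hn'⟩ := (exists_parity (max (S * (Y.1 + Y.2))
        ((|Y.1| + |Y.2|) / (Y.1 + Y.2)))).1
      rw [max_lt_iff] at hn'
      have h1 := H.ev n hn
      have h2 := (H.grow (n + 1)).2.2.2
      have hn0 : (0 : ℝ) ≤ n := Nat.cast_nonneg n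
      rw [abs_of_nonpos (by linarith)] at h2
      push_cast at h2
      have c1 := cross hs hn'.1 hn'.2 (le_neg.mp h1) h2 hn0 m1
      have c2 := cross hs hn'.1 hn'.2 (le_neg.mp h1) h2 hn0 m2
      refine ⟨_, c1.1, ?_⟩
      obtain ⟨q, q1, -, e⟩ := sh (n + 1) ((-k (n + 1) / (Y.1 + Y.2)) • Y) _ c1.2 c2.2 le_rfl
      rw [e]
      refine (Bdd.left q1 ((H.q (n + 1)).top ?_)).mono (by linarith)
      have := hs.ne'
      simp only [Prod.smul_fst, Prod.smul_snd, smul_eq_mul]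
      rw [← mul_add, div_mul_cancel₀ _ this]
  · obtain ⟨K, hK⟩ := exists_nat_gt (max (9 / δ) (1 / κ))
    rw [max_lt_iff, div_lt_iff₀ hδ, div_lt_iff₀ hκ] at hK
    refine ⟨J (K + 1), fun T hT => ?_⟩
    have hex : ∃ j : ℕ, T < J (K + j + 2) := by
      obtain ⟨j, hj⟩ := exists_nat_gt T
      refine ⟨j, ?_⟩
      have h1 := (H.grow (K + j + 1)).2.1
      have h2 := H.p1 (K + j + 1)
      have h3 : (0 : ℝ) ≤ K := Nat.cast_nonneg K
      push_cast at h1
      linarith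
    classical
    obtain ⟨n, n1, n2, n3⟩ : ∃ n, K ≤ n ∧ J (n + 1) ≤ T ∧ T ≤ J (n + 1 + 1) := by
      refine ⟨K + Nat.find hex, by omega, ?_, (Nat.find_spec hex).le⟩
      rcases h0 : Nat.find hex with _ | j
      · simpa using hT
      · have := Nat.find_min hex (show j < Nat.find hex by omega)
        exact not_lt.mp this
    have n4 : (K : ℝ) ≤ n := by exact_mod_cast n1
    have n5 : (0 : ℝ) < n + 1 := by positivity
    refine le_trans (measure_mono ?_) ((H.cov n T n2).trans (ENNReal.ofReal_le_ofReal ?_))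
    · rintro Y ⟨y1, y2, y3⟩
      refine ⟨y1, y2, fun hc => y3 ?_⟩
      obtain ⟨q, q1, q2, e⟩ := sh (n + 1) Y T y1 y2 n3
      rw [e]
      refine (hc.left q1 q2).mono ?_
      rw [show 3 * (3 * (1 / ((n : ℝ) + 1))) = 9 / (n + 1) by ring, div_le_iff₀ n5]
      nlinarith [hK.1]
    · apply mul_le_mul_of_nonneg_right _ (sq_nonneg T)
      rw [div_le_iff₀ n5]
      nlinarith [hK.2]

end Pool.Agent.Lib.MP_f4a5b0_an.H96
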