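import Pool.Agent.Lib.MP_f4a5b0_an.H96Basic
import Pool.Agent.Lib.MP_f4a5b0_an.Good

set_option autoImplicit false

namespace Pool.Agent.Lib.MP_f4a5b0_an.H96

open Matrix Real Pool.Agent.Lib.MP_f4a5b0_an

/-- Basis matrix of the lattice spanned by the ring of integers and one further vector. -/
noncomputable def B (d1 d2 d3 z1 z2 : ℝ) : Matrix (Fin 3) (Fin 3) ℝ :=
  !![d1, d1 * √2, d1 * z1; d2, -(d2 * √2), d2 * z2; 0, 0, d3]

lemma det_B (d1 d2 d3 z1 z2 : ℝ) : (B d1 d2 d3 z1 z2).det = -(2 * √2 * (d1 * d2 * d3)) := by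
  rw [Matrix.det_fin_three]; simp [B]; ring

lemma expA_B (Y : ℝ × ℝ) (d1 d2 d3 z1 z2 : ℝ) : (expA Y).1 * B d1 d2 d3 z1 z2 =
    B (exp Y.1 * d1) (exp Y.2 * d2) (exp (-(Y.1 + Y.2)) * d3) z1 z2 := by
  ext i j
  rw [expA_val, Matrix.diagonal_mul]
  fin_cases i <;> fin_cases j <;> simp [B] <;> ring

lemma B_mulVec (d1 d2 d3 z1 z2 x y n : ℝ) : B d1 d2 d3 z1 z2 *ᵥ ![x, y, n] =
    ![d1 * (x + y * √2 + n * z1), d2 * (x - y * √2 + n * z2), d3 * n] := by
  ext i
  fin_cases i <;> simp [B, Matrix.mulVec, dotProduct, Fin.sum_univ_three] <;> ring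

lemma det_of {g : G} {d1 d2 d3 z1 z2 : ℝ} (e : g.1 = B d1 d2 d3 z1 z2) :
    2 * √2 * (d1 * d2 * d3) = -1 := by
  have := g.2
  rw [e, det_B] at this
  linarith

lemma ne_of {g : G} {d1 d2 d3 z1 z2 : ℝ} (e : g.1 = B d1 d2 d3 z1 z2) :
    d1 ≠ 0 ∧ d2 ≠ 0 ∧ d3 ≠ 0 := by
  have := det_of e
  refine ⟨?_, ?_, ?_⟩ <;> rintro rfl <;> simp at this

lemma bdd_B {g : G} {d1 d2 d3 z1 z2 : ℝ} (e : g.1 = B d1 d2 d3 z1 z2) (h3 : |d3| = 1) :
    Bdd 7 g := by
  obtain ⟨n1, n2, n3⟩ := ne_of e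
  have hd := det_of e
  have hs := sqrt2_gt
  set a := Real.log |d1| with ha
  have e1 : exp a = |d1| := exp_log (abs_pos.mpr n1)
  have e2 : |d2| ≤ exp (-a) := by
    have h := congrArg abs hd
    rw [abs_mul, abs_mul, abs_mul, abs_mul, h3, abs_of_pos (by linarith : (0 : ℝ) < √2)] at h
    simp only [abs_two, abs_neg, abs_one] at h
    rw [exp_neg, e1, ← one_div, le_div_iff₀ (abs_pos.mpr n1)]
    nlinarith [mul_nonneg (abs_nonneg d1) (abs_nonneg d2)]
  have col : ∀ x y n : ℝ, Small 7 a (-a) z1 z2 x y n → ∀ i, |(g.1 *ᵥ ![x, y, n]) i| ≤ 7 := by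
    rintro x y n ⟨h1, h2, h4⟩ i
    rw [e, B_mulVec]
    fin_cases i
    · rw [abs_mul, abs_of_pos (exp_pos _), e1, ← abs_mul] at h1
      exact h1
    · rw [abs_mul, abs_of_pos (exp_pos _)] at h2
      show |d2 * (x - y * √2 + n * z2)| ≤ 7
      rw [abs_mul]
      exact (mul_le_mul_of_nonneg_right e2 (abs_nonneg _)).trans h2
    · show |d3 * n| ≤ 7
      rw [abs_mul, h3, one_mul]
      simpa using h4
  have key : ∀ x1 y1 n1 x2 y2 n2 x3 y3 n3 : ℤ, det3 x1 y1 n1 x2 y2 n2 x3 y3 n3 = 1 →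
      (∀ i, |(g.1 *ᵥ ![(x1 : ℝ), y1, n1]) i| ≤ 7) → (∀ i, |(g.1 *ᵥ ![(x2 : ℝ), y2, n2]) i| ≤ 7) →
      (∀ i, |(g.1 *ᵥ ![(x3 : ℝ), y3, n3]) i| ≤ 7) → Bdd 7 g := by
    intro x1 y1 n1 x2 y2 n2 x3 y3 n3 hd h1 h2 h3
    let γ : GZ := ⟨!![x1, x2, x3; y1, y2, y3; n1, n2, n3], by
      rw [Matrix.det_fin_three]; unfold det3 at hd; simp; linear_combination hd⟩
    refine ⟨γ, fun i j => ?_⟩
    rw [Matrix.SpecialLinearGroup.coe_mul]
    fin_cases j
    · convert h1 i using 2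
      simp [γ, Matrix.mul_apply, Matrix.mulVec, dotProduct, Fin.sum_univ_three]
    · convert h2 i using 2
      simp [γ, Matrix.mul_apply, Matrix.mulVec, dotProduct, Fin.sum_univ_three]
    · convert h3 i using 2
      simp [γ, Matrix.mul_apply, Matrix.mulVec, dotProduct, Fin.sum_univ_three]
  obtain ⟨x1, y1, m1, x2, y2, m2, x3, y3, m3, hd | hd, h1, h2, h4⟩ := good_line a z1 z2
  · exact key _ _ _ _ _ _ _ _ _ hd (col _ _ _ h1) (col _ _ _ h2) (col _ _ _ h4)
  · refine key x1 y1 m1 x2 y2 m2 (-x3) (-y3) (-m3) ?_ (col _ _ _ h1) (col _ _ _ h2) fun i => ?_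
    · unfold det3 at hd ⊢; linear_combination -hd
    · have : (![((-x3 : ℤ) : ℝ), ((-y3 : ℤ) : ℝ), ((-m3 : ℤ) : ℝ)] : Fin 3 → ℝ) =
          -![(x3 : ℝ), y3, m3] := by
        ext k; fin_cases k <;> simp
      rw [this, Matrix.mulVec_neg, Pi.neg_apply, abs_neg]
      exact col _ _ _ h4 i

/-- Arithmetic data of a stage. -/
structure Ar (α s : O) (j : ℤ) : Prop where
  c1 : IsCoprime α (star α)
  c2 : IsCoprime s α
  odd : Odd j
  pos : 1 ≤ j
  dvd : α ∣ E j - 1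

def Q0 (g : G) (h k : ℝ) : Prop :=
  ∃ (d1 d2 d3 : ℝ) (α s : O) (j : ℤ), Ar α s j ∧
    g.1 = B d1 d2 d3 (s1 s / s1 α) (s2 s / s2 α) ∧ exp h = |d3| ∧
      exp (-k) = |d3| * |(α.norm : ℝ)|

/-- The lattice has the special shape, with bottom wall at height `h` and top wall at
height `-k`. -/
def Q (g : G) (h k : ℝ) : Prop := ∃ γ : GZ, Q0 (g * cz γ) h k

lemma s1_mul_s2 (α : O) : s1 α * s2 α = α.norm := by
  rw [← s1_star, ← map_mul, ← Zsqrtd.norm_eq_mul_conj, map_intCast]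

lemma Ar.norm_ne {α s : O} {j : ℤ} (h : Ar α s j) : α.norm ≠ 0 := by
  intro h0
  rw [Zsqrtd.norm_eq_zero (by
    intro n hn
    have h1 : n * n ≤ 1 ∨ 4 ≤ n * n := by
      rcases le_or_gt 2 n with h | h
      · right; nlinarith
      · rcases le_or_gt n (-2) with h' | h'
        · right; nlinarith
        · left; nlinarith
    omega)] at h0
  have := h.c1
  rw [h0, star_zero] at this
  exact not_isCoprime_zero_zero this

lemma Ar.ne {α s : O} {j : ℤ} (h : Ar α s j) : s1 α ≠ 0 ∧ s2 α ≠ 0 := by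
  have h1 : s1 α * s2 α ≠ 0 := by rw [s1_mul_s2]; exact_mod_cast h.norm_ne
  exact mul_ne_zero_iff.mp h1

lemma Q.wall {g : G} {h k : ℝ} (hg : Q g h k) {Y : ℝ × ℝ} (hY : Y.1 + Y.2 = h) :
    Bdd 7 (expA Y * g) := by
  obtain ⟨γ, d1, d2, d3, α, s, j, -, e, h1, -⟩ := hg
  apply Bdd.right γ
  refine bdd_B (by rw [mul_assoc, Matrix.SpecialLinearGroup.coe_mul, e, expA_B]) ?_
  rw [abs_mul, abs_of_pos (exp_pos _), ← h1, hY, ← exp_add]; simp

lemma dvd_E_mul (j r : ℤ) : E j - 1 ∣ E (j * r) - 1 := by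
  induction r using Int.induction_on with
  | zero => simp [E_zero]
  | succ n ih =>
    have : E (j * (n + 1)) - 1 = E j * (E (j * n) - 1) + (E j - 1) := by
      rw [mul_add, mul_one, E_add]; ring
    rw [this]
    exact (ih.mul_left _).add dvd_rfl
  | pred n ih =>
    have : E (j * (-n - 1)) - 1 = E (-j) * (E (j * -n) - 1) - E (-j) * (E j - 1) := by
      have e : j * (-n - 1) = j * -n + -j := by ring
      rw [e, E_add]
      linear_combination E_mul_neg j
    rw [this]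
    exact (ih.mul_left _).sub (dvd_rfl.mul_left _)

lemma sq2 : √2 * √2 = 2 := Real.mul_self_sqrt (by norm_num)

lemma Q.period {g : G} {h k : ℝ} (hg : Q g h k) : ∃ P : ℝ, 1 ≤ P ∧ ∀ i : ℤ, ∃ γ : GZ,
    expA (i * P, -(i * P)) * g = g * cz γ := by
  obtain ⟨γ, d1, d2, d3, α, s, j, hA, e, -, -⟩ := hg
  have hj : (1 : ℝ) ≤ j := by exact_mod_cast hA.pos
  refine ⟨2 * j * ell, by nlinarith [ell_gt], fun i => ?_⟩
  obtain ⟨l, hl⟩ := (hA.dvd.trans (dvd_E_mul j (2 * i))).mul_right s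
  set u := E (j * (2 * i)) with hu
  have u1 : s1 u = exp (i * (2 * j * ell)) := by rw [hu, s1_E]; push_cast; ring_nf
  have u2 : s2 u = exp (-(i * (2 * j * ell))) := by
    rw [hu, ← s1_star, star_E_even _ ⟨j * i, by ring⟩, s1_E]; push_cast; ring_nf
  obtain ⟨n1, n2⟩ := hA.ne
  have l1 := congrArg s1 hl
  have l2 := congrArg s2 hl
  simp only [map_mul, map_sub, map_one] at l1 l2
  obtain ⟨γ', hγ'⟩ := exists_gamma (g * cz γ) (expA (i * (2 * j * ell), -(i * (2 * j * ell))) *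
      (g * cz γ)) !![u.re, 2 * u.im, l.re; u.im, u.re, l.im; 0, 0, 1] (by
    rw [Matrix.SpecialLinearGroup.coe_mul, e, expA_B]
    simp only [← u1, ← u2]
    have f1 : s1 u * (s1 s / s1 α) = s1 l + s1 s / s1 α := by field_simp; linarith
    have f2 : s2 u * (s2 s / s2 α) = s2 l + s2 s / s2 α := by field_simp; linarith
    rw [s1_apply l] at f1
    rw [s2_apply l] at f2
    have f3 := s1_apply u
    have f4 := s2_apply u
    ext a b
    fin_cases a <;> fin_cases b <;> simp [B, Matrix.mul_apply, Fin.sum_univ_three]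
    · rw [f3]; ring
    · rw [f3]; linear_combination (d1 * u.im) * sq2
    · linear_combination d1 * f1
    · rw [f4]; ring
    · rw [f4]; linear_combination (d2 * u.im) * sq2
    · linear_combination d2 * f2)
  refine ⟨γ * γ' * γ⁻¹, ?_⟩
  rw [map_mul, map_mul, map_inv, ← mul_assoc g, ← mul_assoc g, ← hγ']
  group

/-- The square root of two in the ring. -/
def r2 : O := ⟨0, 1⟩

lemma r2_sq : r2 * r2 = 2 := by ext <;> simp [r2]

lemma s1_r2 : s1 r2 = √2 := by rw [s1_apply]; simp [r2]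

lemma s2_r2 : s2 r2 = -√2 := by rw [s2_apply]; simp [r2]

lemma Ar.cop2 {α s : O} {j : ℤ} (h : Ar α s j) : IsCoprime α (2 * r2) := by
  have h1 : star α = 2 * r2 * (-(α.im : O)) + α * 1 := by ext <;> simp [r2]; ring
  have h2 := h.c1
  rw [h1] at h2
  exact (IsCoprime.of_add_mul_left_right h2).of_mul_right_left

lemma Ar.dual {α s : O} {j : ℤ} (h : Ar α s j) : ∃ (t : O) (m : ℤ), IsCoprime t α ∧
    (s * t * star α).im = 1 + α.norm * m := by
  obtain ⟨u, v, huv⟩ := h.c1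
  obtain ⟨s', w, hw⟩ := h.c2
  have huv' : star u * star α + star v * α = 1 := by
    have := congrArg star huv
    simpa [mul_comm] using this
  have hn := Zsqrtd.norm_eq_mul_conj α
  set W := (v - star u) * u + (star v - u) * v with hW
  have h1 : v * star α + star (v * star α) = 1 + (α.norm : O) * W := by
    rw [hn, hW, star_mul', star_star]
    linear_combination (1 - α * (star v - u)) * huv - (α * u) * (huv - huv')
  rw [add_star] at h1
  have h2 := congrArg Zsqrtd.re h1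
  rw [Zsqrtd.re_intCast, Zsqrtd.re_add, Zsqrtd.re_one, Zsqrtd.re_smul] at h2
  refine ⟨s' * (2 * r2 * v), W.re - (w * (2 * r2 * v)).im, ?_, ?_⟩
  · refine IsCoprime.mul_left ⟨s, w, by linear_combination hw⟩ (IsCoprime.mul_left h.cop2.symm
      ⟨star α, u, by linear_combination huv⟩)
  · have h3 : s * (s' * (2 * r2 * v)) * star α =
        2 * r2 * (v * star α) - (α.norm : O) * (w * (2 * r2 * v)) := by
      rw [hn]
      linear_combination (2 * r2 * v * star α) * hw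
    have h4 : (2 * r2 * (v * star α)).im = 2 * (v * star α).re := by
      generalize v * star α = y
      simp [r2]
    rw [h3, Zsqrtd.im_sub, Zsqrtd.im_smul, h4, h2]; ring

lemma im_eq (x : O) : s1 x - s2 x = 2 * √2 * x.im := by rw [s1_apply, s2_apply]; ring

lemma Q0.dual {g : G} {h k : ℝ} (hg : Q0 g h k) : Q (dual g) k h := by
  obtain ⟨d1, d2, d3, α, s, j, hA, e, h1, h2⟩ := hg
  obtain ⟨t, m, ht, hm⟩ := hA.dual
  obtain ⟨n1, n2, n3⟩ := ne_of e
  obtain ⟨a1, a2⟩ := hA.ne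
  have hd := det_of e
  have hs := sqrt2_gt
  have hs0 : √2 ≠ 0 := by linarith
  have hn := s1_mul_s2 α
  have hn0 : (α.norm : ℝ) ≠ 0 := by exact_mod_cast hA.norm_ne
  let g' : G := ⟨B (s1 α / (2 * √2 * d1)) (-s2 α / (2 * √2 * d2)) (-1 / (α.norm * d3))
    (s1 t / s1 α) (s2 t / s2 α), by
      rw [det_B, ← hn]
      field_simp
      linear_combination -hd⟩
  obtain ⟨γ, hγ⟩ := exists_gamma (H96.dual g) g'
      !![α.im, α.re, t.im; α.re, 2 * α.im, t.re; s.im, s.re, m] (by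
    have e0 : (H96.dual g).1 * (g.1)ᵀ = 1 := by
      rw [← dual_inv_val, ← Matrix.SpecialLinearGroup.coe_mul, mul_inv_cancel]; rfl
    rw [← one_mul g'.1, ← e0, mul_assoc]
    congr 1
    rw [e]
    have f := im_eq (s * t * star α)
    rw [hm] at f
    simp only [map_mul, s1_star, s2_star] at f
    push_cast at f
    rw [← hn] at f
    have f1 := im_eq α
    have f2 := re_eq α
    have f3 := im_eq t
    have f4 := re_eq t
    have f5 := im_eq s
    have f6 := re_eq s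
    ext a b
    fin_cases a <;> fin_cases b <;> simp [g', B, Matrix.mul_apply, Fin.sum_univ_three]
    · field_simp; linear_combination f1
    · rw [f2]; field_simp
    · field_simp; linear_combination f3
    · rw [f2]; field_simp
    · field_simp; linear_combination √2 * f1 + (2 * α.im) * sq2
    · rw [f4]; field_simp
    · field_simp; linear_combination f5
    · rw [f6]; field_simp
    · rw [← hn]; field_simp; linear_combination f)
  refine ⟨γ, _, _, _, α, t, j, ⟨hA.c1, ht, hA.odd, hA.pos, hA.dvd⟩, by rw [← hγ], ?_, ?_⟩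
  · rw [abs_div, abs_neg, abs_one, abs_mul, mul_comm, ← h2, exp_neg]; simp
  · rw [exp_neg, h1, abs_div, abs_neg, abs_one, abs_mul]
    have := abs_pos.mpr hn0
    have := abs_pos.mpr n3
    field_simp

lemma Q.dual {g : G} {h k : ℝ} (hg : Q g h k) : Q (dual g) k h := by
  obtain ⟨γ, hg⟩ := hg
  obtain ⟨γ', h'⟩ := hg.dual
  rw [dual_mul, dual_cz, mul_assoc, ← map_mul] at h'
  exact ⟨_, h'⟩

lemma Q.top {g : G} {h k : ℝ} (hg : Q g h k) {Y : ℝ × ℝ} (hY : Y.1 + Y.2 = -k) :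
    Bdd 98 (expA Y * g) := by
  have h1 := hg.dual.wall (Y := -Y) (by simp only [Prod.fst_neg, Prod.snd_neg]; linarith)
  rw [← dual_expA, ← dual_mul] at h1
  exact h1.dual.mono (by norm_num)

lemma exists_Q : ∃ (g : G) (h k : ℝ), Q g h k := by
  have hs := sqrt2_gt
  have hp : 0 < |(-1 / (2 * √2) : ℝ)| := abs_pos.mpr (by
    apply div_ne_zero (by norm_num); linarith)
  refine ⟨⟨B 1 1 (-1 / (2 * √2)) (s1 0 / s1 1) (s2 0 / s2 1), ?_⟩, Real.log |-1 / (2 * √2)|,
    -Real.log |-1 / (2 * √2)|, 1, 1, 1, -1 / (2 * √2), 1, 0, 1,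
    ⟨isCoprime_one_left, isCoprime_one_right, odd_one, le_rfl, one_dvd _⟩, ?_, exp_log hp, ?_⟩
  · rw [det_B]; field_simp
  · rw [MonoidHom.map_one, mul_one]
  · rw [neg_neg, exp_log hp]; simp

end Pool.Agent.Lib.MP_f4a5b0_an.H96
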