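import Pool.Agent.Lib.MP_f4a5b0_an.H96Cover
import Pool.Agent.Lib.MP_f4a5b0_an.Strip

set_option autoImplicit false

namespace Pool.Agent.Lib.MP_f4a5b0_an.H96

open Real MeasureTheory Pool.Agent.Lib.MP_f4a5b0_an

lemma vol_strip (c D T : ℝ) (hT : 0 ≤ T) :
    volume {a : ℝ × ℝ | |a.1| ≤ T ∧ |a.1 + a.2 - c| ≤ D} = ENNReal.ofReal (2 * T * (2 * D)) := by
  have e : {a : ℝ × ℝ | |a.1| ≤ T ∧ |a.1 + a.2 - c| ≤ D} = (fun z : ℝ × ℝ => (z.1, z.1 + z.2)) ⁻¹'
      ({x : ℝ | |x| ≤ T} ×ˢ Set.Icc (c - D) (c + D)) := by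
    ext a
    simp only [Set.mem_ofPred_eq, Set.mem_preimage, Set.mem_prod, Set.mem_Icc]
    rw [abs_le (a := a.1 + a.2 - c)]
    exact and_congr Iff.rfl (and_congr (by constructor <;> intro h <;> linarith)
      (by constructor <;> intro h <;> linarith))
  have hm : MeasurableSet {x : ℝ | |x| ≤ T} := measurableSet_le (by fun_prop) measurable_const
  rw [e, Measure.volume_eq_prod,
    (measurePreserving_prod_add (volume : Measure ℝ) volume).measure_preimage
      (hm.prod measurableSet_Icc).nullMeasurableSet, Measure.prod_prod, vol_abs, Real.volume_Icc,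
    ← ENNReal.ofReal_mul (by linarith)]
  congr 2; ring

/-- The part of the box of radius `T` where the flowed lattice has no short vector. -/
def Bad (δ T : ℝ) (g : G) : Set (ℝ × ℝ) := {Y | |Y.1| ≤ T ∧ |Y.2| ≤ T ∧ ¬Cusp δ (expA Y * g)}

lemma exists_Sz {d1 d2 d3 : ℝ} (h1 : d1 ≠ 0) (h2 : d2 ≠ 0) (h3 : d3 ≠ 0) (α : O) (x y : ℝ) :
    ∃ C, 0 < C ∧ Sz C d1 d2 d3 α ∧ x ≤ C ∧ y ≤ C := by
  have p1 := abs_pos.mpr h1
  have p2 := abs_pos.mpr h2
  have p3 := abs_pos.mpr h3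
  have q1 : 0 ≤ 3 * (|d1| * |s2 α|) := by positivity
  have q2 : 0 ≤ 3 * (|d2| * |s1 α|) := by positivity
  have q3 : 0 ≤ |d3| * |(α.norm : ℝ)| := by positivity
  have q4 : 0 ≤ 2 * |s1 α| / |d1| := by positivity
  have q5 : 0 ≤ 2 * |s2 α| / |d2| := by positivity
  have q6 : 0 < 4 / |d3| := by positivity
  have q7 := abs_nonneg x
  have q8 := abs_nonneg y
  have q9 := le_abs_self x
  have q10 := le_abs_self y
  refine ⟨3 * (|d1| * |s2 α|) + 3 * (|d2| * |s1 α|) + |d3| * |(α.norm : ℝ)| + 2 * |s1 α| / |d1| +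
    2 * |s2 α| / |d2| + 4 / |d3| + |x| + |y|, by linarith,
    ⟨by linarith, by linarith, by linarith, ?_, ?_, ?_⟩, by linarith, by linarith⟩
  · rw [← div_le_iff₀ p1]; linarith
  · rw [← div_le_iff₀ p2]; linarith
  · rw [← div_le_iff₀ p3]; linarith

/-- An upper unipotent matrix. -/
def uni (x y : ℝ) : G := ⟨!![1, 0, x; 0, 1, y; 0, 0, 1], by rw [Matrix.det_fin_three]; simp⟩

lemma near_uni {x y β : ℝ} (hx : |x| ≤ β) (hy : |y| ≤ β) :
    Near β (uni x y) ∧ Near β (dual (uni x y)) := by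
  have h0 : 0 ≤ β := (abs_nonneg _).trans hx
  constructor
  · intro i j
    fin_cases i <;> fin_cases j <;> simp [uni, h0, hx, hy]
  · intro i j
    rw [dual_val, Matrix.SpecialLinearGroup.coe_inv]
    fin_cases i <;> fin_cases j <;> simp [uni, h0, hx, hy, Matrix.adjugate_fin_three]

lemma uni_B (d1 d2 d3 z1 z2 x y : ℝ) (h3 : d3 ≠ 0) :
    (uni (d1 * x / d3) (d2 * y / d3)).1 * B d1 d2 d3 z1 z2 = B d1 d2 d3 (z1 + x) (z2 + y) := by
  ext i j
  fin_cases i <;> fin_cases j <;> simp [uni, B, Matrix.mul_apply, Fin.sum_univ_three] <;>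
    field_simp

lemma step_up {g : G} {h k : ℝ} (hg : Q g h k) {δ κ : ℝ} (hδ : 0 < δ) (hκ : 0 < κ) (b : ℝ) :
    ∃ (J k' : ℝ) (u : G), b ≤ J ∧ k' ≤ -b ∧ Q (u * g) h k' ∧ Near (exp (-(4 * J))) u ∧
      Near (exp (-(4 * J))) (dual u) ∧
      ∀ T, J ≤ T → volume (Bad δ T (u * g)) ≤ ENNReal.ofReal (κ * T ^ 2) := by
  obtain ⟨γ, d1, d2, d3, α, s, j0, hA, e, h1, h2⟩ := hg
  obtain ⟨n1, n2, n3⟩ := ne_of e
  obtain ⟨a1, a2⟩ := hA.ne
  obtain ⟨C, hC, hS, c1, c2⟩ := exists_Sz n1 n2 n3 α (3 * |d1 / (s1 α * d3)|)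
    (3 * |d2 / (s2 α * d3)|)
  set D := C / δ with hD
  have hD0 : 0 < D := by positivity
  have hDδ : C * exp (-D) ≤ δ := by
    rw [exp_neg, ← div_eq_mul_inv, div_le_iff₀ (exp_pos _), ← div_le_iff₀' hδ]
    linarith [add_one_le_exp D]
  obtain ⟨m, hm⟩ := exists_nat_gt (16 * |b| + |k| + 2 + 12 * C + D + 1040 * D / κ)
  have hr : Odd (2 * (m : ℤ) + 1) := odd_two_mul_add_one _
  have hA' := fun c => hA.step hr (by omega) c
  set j := j0 * (2 * (m : ℤ) + 1) with hj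
  have ho : Odd j := hA.odd.mul hr
  have hj1 : 2 * (m : ℤ) + 1 ≤ j := by nlinarith [hA.pos]
  have hj2 : 2 * (m : ℝ) + 1 ≤ j := by exact_mod_cast hj1
  have hj3 : 1 ≤ j := by omega
  obtain ⟨c, hc⟩ := id ho
  have hc' : (j : ℝ) = 2 * c + 1 := by exact_mod_cast hc
  have hm0 : (0 : ℝ) ≤ m := Nat.cast_nonneg m
  have hx : (m : ℝ) ≤ j * ell := by nlinarith [ell_gt]
  set x := j * ell with hxdef
  have b0 := abs_nonneg b
  have b1 := le_abs_self b
  have k0 := abs_nonneg k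
  have k1 := le_abs_self k
  have q0 : 0 < 1040 * D / κ := by positivity
  obtain ⟨t1, t2, t3, -⟩ := bet_real ho hj3
  have hM := exp_pos x
  have p1 : 0 < s1 (bet j) := by linarith
  have p2 : 0 < s2 (bet j) := by linarith
  obtain ⟨ra, -⟩ := re_E_bounds j ho hj3
  have hcl : c * ell = (x - ell) / 2 := by rw [hxdef, hc']; ring
  have hl0 := ell_pos
  have hl1 := ell_lt
  have hsm : C * exp (-(c * ell)) ≤ exp (-(4 * (x / 16))) := by
    have f1 : C ≤ exp (x / 4 - 1 / 2) := by linarith [add_one_le_exp (x / 4 - 1 / 2)]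
    refine (mul_le_mul_of_nonneg_right f1 (exp_pos _).le).trans ?_
    rw [← exp_add]; apply exp_le_exp.mpr; linarith
  have hnear := near_uni (β := exp (-(4 * (x / 16))))
    (x := d1 * (s1 (E c) / (s1 α * s1 (bet j))) / d3)
    (y := d2 * (s2 (E c) / (s2 α * s2 (bet j))) / d3) (by
      refine le_trans ?_ hsm
      rw [show d1 * (s1 (E c) / (s1 α * s1 (bet j))) / d3 =
        d1 / (s1 α * d3) * s1 (E c) / s1 (bet j) by field_simp,
        abs_div, abs_mul, abs_s1_E, abs_of_pos p1, div_le_iff₀ p1]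
      have f1 : exp (c * ell) ≤ exp (-(c * ell)) * exp x := by
        rw [← exp_add]; apply exp_le_exp.mpr; linarith
      have f2 : exp (-(c * ell)) * exp x ≤ exp (-(c * ell)) * (3 * s1 (bet j)) :=
        mul_le_mul_of_nonneg_left t1 (exp_pos _).le
      have f3 := mul_le_mul c1 (f1.trans f2) (exp_pos _).le hC.le
      have f4 : 0 ≤ C * exp (-(c * ell)) * s1 (bet j) := by positivity
      have f5 := mul_le_mul_of_nonneg_left (f1.trans f2) (abs_nonneg (d1 / (s1 α * d3)))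
      have f6 := mul_le_mul_of_nonneg_right c1 (mul_pos (exp_pos (-(c * ell))) p1).le
      linarith) (by
      refine le_trans ?_ hsm
      rw [show d2 * (s2 (E c) / (s2 α * s2 (bet j))) / d3 =
        d2 / (s2 α * d3) * s2 (E c) / s2 (bet j) by field_simp,
        abs_div, abs_mul, abs_s2_E, abs_of_pos p2, div_le_iff₀ p2]
      have f5 := mul_le_mul_of_nonneg_left t2
        (mul_nonneg (abs_nonneg (d2 / (s2 α * d3))) (exp_pos (-(c * ell))).le)
      have f6 := mul_le_mul_of_nonneg_right c2 (mul_pos (exp_pos (-(c * ell))) p2).le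
      linarith)
  set u := uni (d1 * (s1 (E c) / (s1 α * s1 (bet j))) / d3)
    (d2 * (s2 (E c) / (s2 α * s2 (bet j))) / d3) with hu
  have e' : (u * g * cz γ).1 = B d1 d2 d3 (s1 (s * bet j + E c) / s1 (α * bet j))
      (s2 (s * bet j + E c) / s2 (α * bet j)) := by
    rw [mul_assoc, Matrix.SpecialLinearGroup.coe_mul, e, hu, uni_B _ _ _ _ _ _ _ n3]
    congr 1 <;> simp only [map_add, map_mul] <;> field_simp
  have ha0 : (0 : ℝ) < (E j).re := by linarith
  refine ⟨x / 16, k - Real.log (E j).re, u, by linarith, ?_,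
    ⟨γ, d1, d2, d3, _, _, _, hA' c, e', h1, ?_⟩, hnear.1, hnear.2, fun T hT => ?_⟩
  · have f1 : x - 2 ≤ Real.log (E j).re := by
      rw [Real.le_log_iff_exp_le ha0, exp_sub]
      refine le_trans ?_ ra
      have : (4 : ℝ) ≤ exp 2 := by
        have := Real.add_one_le_exp 1
        rw [show (2 : ℝ) = 1 + 1 by norm_num, exp_add]; nlinarith
      gcongr
    linarith
  · rw [neg_sub, sub_eq_add_neg, exp_add, exp_log ha0, h2, Zsqrtd.norm_mul, norm_bet ho]
    push_cast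
    rw [abs_mul, abs_of_pos ha0]; ring
  · have hx0 : 0 < x := by linarith
    have hT0 : 0 < T := by linarith
    have hsub : Bad δ T (u * g) ⊆ {a : ℝ × ℝ | |a.1| ≤ T ∧ |a.2| ≤ T ∧ (|a.1 + a.2| ≤ D ∨
        (∃ i : ℤ, |a.1 - (-(c * ell) + i * x)| ≤ D) ∨ (∃ i : ℤ, |a.2 - (c * ell + i * x)| ≤ D))} ∪
        {a : ℝ × ℝ | |a.1| ≤ T ∧ |a.1 + a.2 - x| ≤ D} := by
      rintro Y ⟨y1, y2, y3⟩
      by_contra hcon
      simp only [Set.mem_union, Set.mem_ofPred_eq, y1, y2, true_and, not_or, not_exists,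
        not_le] at hcon
      apply y3
      apply Cusp.right γ
      rw [mul_assoc]
      exact cover ho hj3 hA.norm_ne hS e' hD0.le hDδ Y hcon.1.1 hcon.2 hcon.1.2.1 hcon.1.2.2
    refine (measure_mono hsub).trans ((measure_union_le _ _).trans ?_)
    refine (add_le_add (vol_bad _ _ x D T hx0 hD0.le (by linarith) (by linarith))
      (vol_strip x D T hT0.le).le).trans ?_
    rw [← ENNReal.ofReal_add (by positivity) (by positivity)]
    apply ENNReal.ofReal_le_ofReal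
    have f1 : 1040 * (D / x) ≤ κ := by
      rw [← mul_div_assoc, div_le_iff₀ hx0]
      have : 1040 * D / κ ≤ x := by linarith
      rw [div_le_iff₀ hκ] at this
      linarith
    have f2 : D ≤ D / x * (16 * T) := by
      rw [div_mul_eq_mul_div, le_div_iff₀ hx0]; nlinarith
    have f3 := mul_le_mul_of_nonneg_right f1 (sq_nonneg T)
    have f4 := mul_le_mul_of_nonneg_right f2 hT0.le
    have f5 : 0 ≤ D / x * T ^ 2 := by positivity
    nlinarith

lemma vol_Bad_dual (δ T : ℝ) (g : G) : volume (Bad δ T (dual g)) ≤ volume (Bad δ T g) := by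
  rw [← Measure.measure_neg volume (Bad δ T g)]
  apply measure_mono
  rintro Y ⟨y1, y2, y3⟩
  refine ⟨by simpa using y1, by simpa using y2, fun h => y3 ?_⟩
  apply Cusp.dual
  rw [dual_mul, dual_dual, dual_expA]
  exact h

lemma step {g : G} {h k : ℝ} (hg : Q g h k) (n : ℕ) (b : ℝ) :
    ∃ (J h' k' : ℝ) (u : G), b ≤ J ∧ (Even n → k' ≤ -b) ∧ (Odd n → h' ≤ -b) ∧ Q (u * g) h' k' ∧
      Near (exp (-(4 * J))) u ∧ Near (exp (-(4 * J))) (dual u) ∧
      ∀ T, J ≤ T → volume (Bad (1 / (n + 1)) T (u * g)) ≤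
        ENNReal.ofReal (1 / (n + 1) * T ^ 2) := by
  have hp : (0 : ℝ) < 1 / (n + 1) := by positivity
  rcases Nat.even_or_odd n with hn | hn
  · obtain ⟨J, k', u, h1, h2, h3, h4, h5, h6⟩ := step_up hg hp hp b
    exact ⟨J, h, k', u, h1, fun _ => h2, fun h => absurd hn (Nat.not_even_iff_odd.mpr h), h3, h4,
      h5, h6⟩
  · obtain ⟨J, h', u, h1, h2, h3, h4, h5, h6⟩ := step_up hg.dual hp hp b
    have e : dual u * g = dual (u * dual g) := by rw [dual_mul, dual_dual]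
    refine ⟨J, h', k, dual u, h1, fun h => absurd h (Nat.not_even_iff_odd.mpr hn), fun _ => h2,
      e ▸ h3.dual, h5, by rw [dual_dual]; exact h4, fun T hT => ?_⟩
    rw [e]
    exact (vol_Bad_dual _ _ _).trans (h6 T hT)

end Pool.Agent.Lib.MP_f4a5b0_an.H96
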