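import Pool.Agent.Lib.MP_f4a5b0_an.Cover

set_option autoImplicit false

namespace Pool.Agent.Lib.MP_f4a5b0_an

open Real

lemma exists_theta (d N b : ℕ → ℝ) (hN : ∀ k, 1 ≤ N k) (hd : ∀ k, |d k| ≤ b k * N k)
    (hb : ∀ k, b (k + 1) ≤ b k / 2) :
    ∃ θ : ℕ → ℝ, ∀ k, θ k = (d k + θ (k + 1)) / N k ∧ |θ k| ≤ 2 * b k := by
  let Q : ℕ → ℝ := fun k => ∏ i ∈ Finset.range k, N i
  have hQs : ∀ k, Q (k + 1) = Q k * N k := fun k => Finset.prod_range_succ _ _
  have hQ1 : ∀ k, 1 ≤ Q k := by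
    intro k
    induction k with
    | zero => simp [Q]
    | succ n ih => rw [hQs]; nlinarith [hN n]
  have hQmono : ∀ k i, Q k ≤ Q (k + i) := by
    intro k i
    induction i with
    | zero => simp
    | succ n ih => rw [← add_assoc, hQs]; nlinarith [hN (k + n), hQ1 (k + n)]
  have hb0 : ∀ k, 0 ≤ b k := by
    intro k
    by_contra h
    have := hd k
    have := abs_nonneg (d k)
    have := hN k
    nlinarith [not_le.mp h]
  have hbgeo : ∀ k i, b (k + i) ≤ b k * (1 / 2) ^ i := by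
    intro k i
    induction i with
    | zero => simp
    | succ n ih => rw [← add_assoc, pow_succ]; linarith [hb (k + n)]
  let t : ℕ → ℕ → ℝ := fun k i => d (k + i) * Q k / Q (k + i + 1)
  have ht : ∀ k i, ‖t k i‖ ≤ b k * (1 / 2) ^ i := by
    intro k i
    refine le_trans ?_ (hbgeo k i)
    have h1 := hQ1 k
    have h2 := hQ1 (k + i)
    have h3 := hN (k + i)
    have h4 := hQmono k i
    show |d (k + i) * Q k / Q (k + i + 1)| ≤ _
    rw [hQs, abs_div, abs_mul, abs_of_pos (by linarith : 0 < Q k),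
      abs_of_pos (by positivity : 0 < Q (k + i) * N (k + i)), div_le_iff₀ (by positivity)]
    have h5 := hd (k + i)
    have h6 := hb0 (k + i)
    calc |d (k + i)| * Q k ≤ (b (k + i) * N (k + i)) * Q (k + i) :=
          mul_le_mul h5 h4 (by linarith) (by positivity)
      _ = _ := by ring
  have hgeo : ∀ k, HasSum (fun i : ℕ => b k * (1 / 2 : ℝ) ^ i) (b k * 2) :=
    fun k => hasSum_geometric_two.mul_left (b k)
  have hsum : ∀ k, Summable (t k) := fun k => Summable.of_norm_bounded (hgeo k).summable (ht k)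
  refine ⟨fun k => ∑' i, t k i, fun k => ⟨?_, ?_⟩⟩
  · have h1 := hQ1 k
    have h3 := hN k
    show ∑' i, t k i = (d k + ∑' i, t (k + 1) i) / N k
    rw [(hsum k).tsum_eq_zero_add, add_div, ← tsum_div_const]
    congr 1
    · show d (k + 0) * Q k / Q (k + 0 + 1) = _
      rw [add_zero, hQs]; field_simp
    · congr 1
      ext i
      show d (k + (i + 1)) * Q k / Q (k + (i + 1) + 1) =
        d (k + 1 + i) * Q (k + 1) / Q (k + 1 + i + 1) / N k
      have e : k + (i + 1) = k + 1 + i := by ring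
      rw [e, hQs k]
      have := hQ1 (k + 1 + i + 1)
      field_simp
  · have := tsum_of_norm_bounded (hgeo k) (ht k)
    rw [mul_comm]; exact this

/-- Half periods of the successive stages. -/
def mm : ℕ → ℤ
  | 0 => 3
  | k + 1 => 3 * (2 * k + 5) * mm k

/-- Centres of the successive stages. -/
def cc : ℕ → ℤ
  | 0 => 0
  | k + 1 => cc k + (-1) ^ k * (2 * (2 * k + 5) * mm k)

/-- New denominators. -/
def NN (k : ℕ) : ℤ := (E (mm k)).re

/-- Total denominators. -/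
def qq : ℕ → ℤ
  | 0 => 1
  | k + 1 => qq k * NN k

/-- Numerators. -/
def pp : ℕ → O
  | 0 => 0
  | k + 1 => ((NN k : ℤ) : O) * pp k + E (cc k)

lemma mm_succ (k : ℕ) : mm (k + 1) = 3 * (2 * k + 5) * mm k := rfl

lemma cc_succ (k : ℕ) : cc (k + 1) = cc k + (-1) ^ k * (2 * (2 * k + 5) * mm k) := rfl

lemma mm_ge (k : ℕ) : 3 ≤ mm k := by
  induction k with
  | zero => simp [mm]
  | succ n ih => rw [mm_succ]; nlinarith [Int.natCast_nonneg n]

lemma mm_one_le (k : ℕ) : 1 ≤ mm k := by have := mm_ge k; omega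

lemma mm_succ_ge (k : ℕ) : 15 * mm k ≤ mm (k + 1) := by
  rw [mm_succ]; nlinarith [Int.natCast_nonneg k, mm_ge k]

lemma odd_s (k : ℕ) : Odd (2 * (k : ℤ) + 5) := ⟨k + 2, by ring⟩

lemma mm_odd (k : ℕ) : Odd (mm k) := by
  induction k with
  | zero => exact ⟨1, by simp [mm]⟩
  | succ n ih => rw [mm_succ]; exact ((by decide : Odd (3 : ℤ)).mul (odd_s n)).mul ih

lemma cc_even (k : ℕ) : Even (cc k) := by
  induction k with
  | zero => simp [cc]
  | succ n ih =>
    rw [cc_succ]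
    exact ih.add ⟨(-1) ^ n * ((2 * n + 5) * mm n), by ring⟩

lemma cc_abs (k : ℕ) : 4 * |cc k| ≤ 3 * mm k := by
  induction k with
  | zero => simp [cc, mm]
  | succ n ih =>
    rw [cc_succ, mm_succ]
    have h1 := abs_add_le (cc n) ((-1) ^ n * (2 * (2 * n + 5) * mm n))
    have h2 := mm_ge n
    have h3 := Int.natCast_nonneg n
    rw [abs_mul, abs_pow, abs_neg, abs_one, one_pow, one_mul,
      abs_of_nonneg (by positivity : (0 : ℤ) ≤ 2 * (2 * n + 5) * mm n)] at h1
    nlinarith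

lemma NN_one_le (k : ℕ) : 1 ≤ NN k := one_le_re_E _ (mm_odd k) (mm_one_le k)

lemma qq_one_le (k : ℕ) : 1 ≤ qq k := by
  induction k with
  | zero => simp [qq]
  | succ n ih => show 1 ≤ qq n * NN n; nlinarith [NN_one_le n]

lemma NN_le (k : ℕ) : (NN k : ℝ) ≤ exp (mm k * ell) := by
  have := (re_E_bounds _ (mm_odd k) (mm_one_le k)).2
  have h2 := exp_pos (mm k * ell)
  unfold NN; linarith

lemma qq_le (k : ℕ) : (qq k : ℝ) ≤ exp (mm k * ell) := by
  induction k with
  | zero =>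
    have : (0 : ℝ) ≤ mm 0 * ell := by
      have h1 : (3 : ℝ) ≤ mm 0 := by exact_mod_cast mm_ge 0
      nlinarith [ell_pos]
    simpa [qq] using this
  | succ n ih =>
    have e : (qq (n + 1) : ℝ) = qq n * NN n := by show ((qq n * NN n : ℤ) : ℝ) = _; push_cast; ring
    have h1 : (1 : ℝ) ≤ NN n := by exact_mod_cast NN_one_le n
    have h2 : (15 : ℝ) * mm n ≤ mm (n + 1) := by exact_mod_cast mm_succ_ge n
    have h3 : (3 : ℝ) ≤ mm n := by exact_mod_cast mm_ge n
    rw [e]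
    calc (qq n : ℝ) * NN n ≤ exp (mm n * ell) * exp (mm n * ell) :=
          mul_le_mul ih (NN_le n) (by linarith) (exp_pos _).le
      _ ≤ _ := by rw [← exp_add]; apply exp_le_exp.mpr; nlinarith [ell_pos]

lemma qq_succ_le (k : ℕ) : (qq (k + 1) : ℝ) ≤ exp (2 * mm k * ell) := by
  have e : (qq (k + 1) : ℝ) = qq k * NN k := by show ((qq k * NN k : ℤ) : ℝ) = _; push_cast; ring
  have h1 : (1 : ℝ) ≤ NN k := by exact_mod_cast NN_one_le k
  rw [e]
  calc (qq k : ℝ) * NN k ≤ exp (mm k * ell) * exp (mm k * ell) :=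
        mul_le_mul (qq_le k) (NN_le k) (by linarith) (exp_pos _).le
    _ = _ := by rw [← exp_add]; ring_nf

lemma NN_dvd (k : ℕ) : NN k ∣ NN (k + 1) := by
  unfold NN
  rw [mm_succ, mul_comm]
  exact re_dvd_re _ (mm_odd k) _ ((by decide : Odd (3 : ℤ)).mul (odd_s k))

lemma coprime_qq (k : ℕ) : ∀ x : ℤ, IsCoprime (NN k) x → IsCoprime (qq (k + 1)) x := by
  induction k with
  | zero => intro x hx; simpa [qq] using hx
  | succ n ih =>
    intro x hx
    show IsCoprime (qq (n + 1) * NN (n + 1)) x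
    exact (ih x (hx.of_isCoprime_of_dvd_left (NN_dvd n))).mul_left hx

lemma coprime_aux (k : ℕ) (p : O) (c : ℤ) :
    IsCoprime (qq (k + 1))
      ((E ((2 * k + 5) * mm k - c) * (((NN k : ℤ) : O) * p + E c)).re + 1) := by
  apply coprime_qq
  obtain ⟨t, ht⟩ := re_dvd_re _ (mm_odd k) _ (odd_s k)
  have e : E ((2 * k + 5) * mm k - c) * (((NN k : ℤ) : O) * p + E c) =
      ((NN k : ℤ) : O) * (E ((2 * k + 5) * mm k - c) * p) + E (mm k * (2 * k + 5)) := by
    have : E (mm k * (2 * k + 5)) = E ((2 * k + 5) * mm k - c) * E c := by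
      rw [← E_add]; congr 1; ring
    rw [this]; ring
  rw [e, Zsqrtd.re_add, Zsqrtd.re_smul, ht]
  refine ⟨-((E ((2 * k + 5) * mm k - c) * p).re + t), 1, ?_⟩
  unfold NN; ring

lemma coprime_even (k : ℕ) (hk : Even k) :
    IsCoprime (qq (k + 1)) ((E (mm (k + 1) - cc (k + 1)) * pp (k + 1)).re + 1) := by
  have e : mm (k + 1) - cc (k + 1) = (2 * k + 5) * mm k - cc k := by
    rw [mm_succ, cc_succ, hk.neg_one_pow]; ring
  rw [e]; exact coprime_aux k _ _

lemma coprime_odd (k : ℕ) (hk : Odd k) :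
    IsCoprime (qq (k + 1)) ((E (mm (k + 1) - -cc (k + 1)) * star (pp (k + 1))).re + 1) := by
  have e : mm (k + 1) - -cc (k + 1) = (2 * k + 5) * mm k - -cc k := by
    rw [mm_succ, cc_succ, hk.neg_one_pow]; ring
  have e2 : star (pp (k + 1)) = ((NN k : ℤ) : O) * star (pp k) + E (-cc k) := by
    show star (((NN k : ℤ) : O) * pp k + E (cc k)) = _
    rw [star_add, star_mul', star_E_even _ (cc_even k), star_intCast]
  rw [e, e2]; exact coprime_aux k _ _

/-- Error bound at stage k. -/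
noncomputable def bb (k : ℕ) : ℝ := 4 * exp (-(mm k * ell / 4))

lemma bb_succ (k : ℕ) : bb (k + 1) ≤ bb k / 2 := by
  unfold bb
  have h2 : (15 : ℝ) * mm k ≤ mm (k + 1) := by exact_mod_cast mm_succ_ge k
  have h3 : (3 : ℝ) ≤ mm k := by exact_mod_cast mm_ge k
  have h4 : exp (-(mm (k + 1) * ell / 4)) ≤ exp (-(mm k * ell / 4)) * exp (-ell) := by
    rw [← exp_add]; apply exp_le_exp.mpr; nlinarith [ell_pos]
  have h5 : exp (-ell) ≤ 1 / 2 := by
    rw [exp_neg, inv_le_comm₀ (exp_pos _) (by norm_num)]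
    linarith [two_lt_exp_ell]
  nlinarith [exp_pos (-(mm k * ell / 4))]

lemma dd_le (k : ℕ) (u : ℝ) (hu : |u| ≤ exp (|(cc k : ℝ)| * ell)) : |u| ≤ bb k * NN k := by
  have h1 := (re_E_bounds _ (mm_odd k) (mm_one_le k)).1
  have h2 : (4 : ℝ) * |(cc k : ℝ)| ≤ 3 * mm k := by exact_mod_cast cc_abs k
  have h3 : exp (|(cc k : ℝ)| * ell) ≤ exp (-(mm k * ell / 4)) * exp (mm k * ell) := by
    rw [← exp_add]; apply exp_le_exp.mpr; nlinarith [ell_pos]
  unfold bb NN
  nlinarith [exp_pos (-(mm k * ell / 4))]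

lemma exists_eta (s : O →+* ℝ) (hs : ∀ j : ℤ, |s (E j)| ≤ exp (|(j : ℝ)| * ell)) :
    ∃ η : ℝ, ∀ k, ∃ θ : ℝ, |θ| ≤ 2 * bb (k + 1) ∧
      qq k * η - s (pp k) = (s (E (cc k)) + θ) / (E (mm k)).re := by
  obtain ⟨θ, hθ⟩ := exists_theta (fun k => s (E (cc k))) (fun k => (NN k : ℝ)) bb
    (fun k => by exact_mod_cast NN_one_le k) (fun k => dd_le k _ (hs _)) bb_succ
  have key : ∀ k, qq k * θ 0 - s (pp k) = θ k := by
    intro k
    induction k with
    | zero => simp [qq, pp]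
    | succ n ih =>
      have h1 := (hθ n).1
      have h2 : (1 : ℝ) ≤ NN n := by exact_mod_cast NN_one_le n
      show ((qq n * NN n : ℤ) : ℝ) * θ 0 - s (((NN n : ℤ) : O) * pp n + E (cc n)) = _
      rw [map_add, map_mul, map_intCast]
      push_cast
      have h3 : (NN n : ℝ) ≠ 0 := by linarith
      field_simp at h1
      linear_combination (NN n : ℝ) * ih + h1
  exact ⟨θ 0, fun k => ⟨θ (k + 1), (hθ (k + 1)).2, by rw [key k]; exact (hθ k).1⟩⟩

lemma exists_eta1 : ∃ η : ℝ, ∀ k, ∃ θ : ℝ, |θ| ≤ 2 * bb (k + 1) ∧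
    qq k * η - s1 (pp k) = (s1 (E (cc k)) + θ) / (E (mm k)).re := by
  apply exists_eta
  intro j
  rw [abs_s1_E]; apply exp_le_exp.mpr
  exact mul_le_mul_of_nonneg_right (le_abs_self _) ell_pos.le

lemma exists_eta2 : ∃ η : ℝ, ∀ k, ∃ θ : ℝ, |θ| ≤ 2 * bb (k + 1) ∧
    qq k * η - s2 (pp k) = (s2 (E (cc k)) + θ) / (E (mm k)).re := by
  apply exists_eta
  intro j
  rw [abs_s2_E]; apply exp_le_exp.mpr
  have := mul_le_mul_of_nonneg_right (neg_le_abs (j : ℝ)) ell_pos.le
  linarith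

end Pool.Agent.Lib.MP_f4a5b0_an
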