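import Mathlib

set_option autoImplicit false

namespace Pool.Agent.Lib.MP_f4a5b0_an

open Real

/-- The ring of integers of the real quadratic field of discriminant 8. -/
abbrev O : Type := Zsqrtd 2

/-- First real embedding. -/
noncomputable def s1 : O →+* ℝ :=
  Zsqrtd.lift ⟨√2, by norm_num⟩

/-- Second real embedding. -/
noncomputable def s2 : O →+* ℝ :=
  Zsqrtd.lift ⟨-√2, by norm_num⟩

lemma s1_apply (x : O) : s1 x = x.re + x.im * √2 := rfl

lemma s2_apply (x : O) : s2 x = x.re - x.im * √2 := by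
  show (x.re : ℝ) + x.im * (-√2) = _
  ring

lemma s1_star (x : O) : s1 (star x) = s2 x := by
  rw [s1_apply, s2_apply]; simp; ring

lemma s2_star (x : O) : s2 (star x) = s1 x := by
  rw [s1_apply, s2_apply]; simp

lemma re_eq (x : O) : (x.re : ℝ) = (s1 x + s2 x) / 2 := by
  rw [s1_apply, s2_apply]; ring

/-- The fundamental unit. -/
def eps : Oˣ where
  val := ⟨1, 1⟩
  inv := ⟨-1, 1⟩
  val_inv := by ext <;> simp
  inv_val := by ext <;> simp

/-- Integer powers of the fundamental unit. -/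
def E (j : ℤ) : O := ((eps ^ j : Oˣ) : O)

/-- The regulator. -/
noncomputable def ell : ℝ := Real.log (1 + √2)

lemma sqrt2_gt : (1.41 : ℝ) < √2 := by
  rw [Real.lt_sqrt (by norm_num)]; norm_num

lemma sqrt2_lt : √2 < (1.42 : ℝ) := by
  rw [Real.sqrt_lt' (by norm_num)]; norm_num

lemma exp_ell : exp ell = 1 + √2 := by
  unfold ell; rw [Real.exp_log]; have := sqrt2_gt; linarith

lemma ell_gt : (0.69 : ℝ) < ell := by
  unfold ell
  have h1 := Real.log_two_gt_d9
  have h2 : Real.log 2 ≤ Real.log (1 + √2) := by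
    apply Real.log_le_log (by norm_num); have := sqrt2_gt; linarith
  linarith

lemma ell_pos : 0 < ell := by have := ell_gt; linarith

lemma ell_lt : ell < 1 := by
  unfold ell
  have h2 := sqrt2_lt
  have h3 := sqrt2_gt
  rw [Real.log_lt_iff_lt_exp (by linarith)]
  have := Real.exp_one_gt_d9
  linarith

lemma exp_ell_lt : exp ell < 2.5 := by rw [exp_ell]; have := sqrt2_lt; linarith

lemma two_lt_exp_ell : 2 < exp ell := by rw [exp_ell]; have := sqrt2_gt; linarith

lemma E_add (i j : ℤ) : E (i + j) = E i * E j := by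
  unfold E; rw [zpow_add]; rfl

lemma E_zero : E 0 = 1 := by unfold E; simp

lemma E_one : E 1 = ⟨1, 1⟩ := by unfold E; simp [eps]

lemma E_neg_one : E (-1) = ⟨-1, 1⟩ := by unfold E; simp [eps]

lemma E_mul_neg (j : ℤ) : E j * E (-j) = 1 := by rw [← E_add]; simp [E_zero]

lemma s1_E (j : ℤ) : s1 (E j) = exp (j * ell) := by
  induction j using Int.induction_on with
  | zero => simp [E_zero]
  | succ n ih =>
    rw [E_add, map_mul, ih, E_one, s1_apply]
    push_cast
    rw [add_mul, exp_add]; simp [exp_ell]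
  | pred n ih =>
    have : (-(n : ℤ) - 1) = -(n : ℤ) + (-1) := by ring
    rw [this, E_add, map_mul, ih, E_neg_one, s1_apply]
    push_cast
    rw [add_mul, exp_add]
    congr 1
    have h : exp (-1 * ell) = (exp ell)⁻¹ := by rw [← exp_neg]; ring_nf
    rw [h, exp_ell]
    have h2 : √2 * √2 = 2 := Real.mul_self_sqrt (by norm_num)
    have h3 := sqrt2_gt
    field_simp
    nlinarith

lemma star_E (j : ℤ) : star (E j) = ((j.negOnePow : ℤˣ) : ℤ) * E (-j) := by
  induction j using Int.induction_on with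
  | zero => simp [E_zero]
  | succ n ih =>
    have : -((n : ℤ) + 1) = -(n : ℤ) + (-1) := by ring
    rw [E_add, star_mul', ih, this, E_add, Int.negOnePow_succ, E_one, E_neg_one]
    have h : star (⟨1, 1⟩ : O) = -⟨-1, 1⟩ := by ext <;> simp
    rw [h]; push_cast; ring
  | pred n ih =>
    have h1 : (-(n : ℤ) - 1) = -(n : ℤ) + (-1) := by ring
    have h2 : -(-(n : ℤ) + (-1)) = -(-(n : ℤ)) + 1 := by ring
    rw [h1, E_add, star_mul', ih, h2, E_add, ← h1, Int.negOnePow_sub, E_one, E_neg_one]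
    have h : star (⟨-1, 1⟩ : O) = -⟨1, 1⟩ := by ext <;> simp
    rw [h]; simp [mul_assoc]

lemma star_E_even (j : ℤ) (hj : Even j) : star (E j) = E (-j) := by
  rw [star_E, Int.negOnePow_even j hj]; simp

lemma star_E_odd (j : ℤ) (hj : Odd j) : star (E j) = -E (-j) := by
  rw [star_E, Int.negOnePow_odd j hj]; simp

lemma s2_E_odd (j : ℤ) (hj : Odd j) : s2 (E j) = -exp (-(j * ell)) := by
  rw [← s1_star, star_E_odd j hj, map_neg, s1_E]; push_cast; ring_nf

lemma abs_s2_E (j : ℤ) : |s2 (E j)| = exp (-(j * ell)) := by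
  rcases Int.even_or_odd j with h | h
  · rw [← s1_star, star_E_even j h, s1_E, abs_of_pos (exp_pos _)]; push_cast; ring_nf
  · rw [s2_E_odd j h, abs_neg, abs_of_pos (exp_pos _)]

lemma abs_s1_E (j : ℤ) : |s1 (E j)| = exp (j * ell) := by
  rw [s1_E, abs_of_pos (exp_pos _)]

lemma add_star (x : O) : x + star x = ((2 * x.re : ℤ) : O) := by
  ext
  · simp; ring
  · simp

lemma E_sub_E_neg (m : ℤ) (hm : Odd m) : E m - E (-m) = ((2 * (E m).re : ℤ) : O) := by
  rw [← add_star, star_E_odd m hm]; ring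

lemma E_two_mul (m : ℤ) (hm : Odd m) (t : ℤ) :
    ∃ lam : O, E (2 * m * t) = 1 + (((E m).re : ℤ) : O) * lam := by
  have hA : E (2 * m) = 1 + (((E m).re : ℤ) : O) * (2 * E m) := by
    have h1 := E_sub_E_neg m hm
    have h2 := E_mul_neg m
    have h3 : E (2 * m) = E m * E m := by rw [← E_add]; ring_nf
    push_cast at h1
    rw [h3]
    linear_combination (E m) * h1 + h2
  have hB : E (-(2 * m)) = 1 + (((E m).re : ℤ) : O) * (-2 * E (-m)) := by
    have h1 := E_sub_E_neg m hm
    have h2 := E_mul_neg m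
    have h3 : E (-(2 * m)) = E (-m) * E (-m) := by rw [← E_add]; ring_nf
    push_cast at h1
    rw [h3]
    linear_combination (-E (-m)) * h1 + h2
  induction t using Int.induction_on with
  | zero => exact ⟨0, by simp [E_zero]⟩
  | succ n ih =>
    obtain ⟨l, hl⟩ := ih
    have : 2 * m * ((n : ℤ) + 1) = 2 * m * n + 2 * m := by ring
    rw [this, E_add, hl, hA]
    exact ⟨l + 2 * E m + (((E m).re : ℤ) : O) * l * (2 * E m), by ring⟩
  | pred n ih =>
    obtain ⟨l, hl⟩ := ih
    have : 2 * m * (-(n : ℤ) - 1) = 2 * m * (-n) + -(2 * m) := by ring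
    rw [this, E_add, hl, hB]
    exact ⟨l + -2 * E (-m) + (((E m).re : ℤ) : O) * l * (-2 * E (-m)), by ring⟩

lemma re_dvd_re (m : ℤ) (hm : Odd m) (r : ℤ) (hr : Odd r) : (E m).re ∣ (E (m * r)).re := by
  obtain ⟨t, rfl⟩ := hr
  obtain ⟨l, hl⟩ := E_two_mul m hm t
  have : m * (2 * t + 1) = m + 2 * m * t := by ring
  rw [this, E_add, hl]
  refine ⟨1 + (E m * l).re, ?_⟩
  have : E m * (1 + (((E m).re : ℤ) : O) * l) = E m + (((E m).re : ℤ) : O) * (E m * l) := by ring
  rw [this, Zsqrtd.re_add, Zsqrtd.re_smul]; ring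

lemma two_re_E_odd (m : ℤ) (hm : Odd m) :
    2 * ((E m).re : ℝ) = exp (m * ell) - exp (-(m * ell)) := by
  rw [re_eq, s1_E, s2_E_odd m hm]; ring

lemma re_E_bounds (m : ℤ) (hm : Odd m) (h1 : 1 ≤ m) :
    exp (m * ell) / 4 ≤ ((E m).re : ℝ) ∧ ((E m).re : ℝ) ≤ exp (m * ell) / 2 := by
  have h := two_re_E_odd m hm
  have hm1 : (1 : ℝ) ≤ m := by exact_mod_cast h1
  have hl := ell_pos
  have h2 : exp ell ≤ exp (m * ell) := by apply exp_le_exp.mpr; nlinarith
  have h3 := two_lt_exp_ell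
  have h4 : exp (-(m * ell)) ≤ 1 := by apply exp_le_one_iff.mpr; nlinarith
  have h5 := exp_pos (-(m * ell))
  constructor <;> linarith

/-- Consecutive powers of the unit form a basis. -/
lemma det_E (j : ℤ) : (E j).re * (E (j + 1)).im - (E j).im * (E (j + 1)).re = 1 ∨
    (E j).re * (E (j + 1)).im - (E j).im * (E (j + 1)).re = -1 := by
  have h1 : E (j + 1) = E j * ⟨1, 1⟩ := by rw [E_add, E_one]
  have h2 : (E j).re * (E (j + 1)).im - (E j).im * (E (j + 1)).re = (E j).norm := by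
    rw [h1, Zsqrtd.norm_def]; simp; ring
  rw [h2]
  have h3 : IsUnit (E j) := (eps ^ j).isUnit
  have h4 := Zsqrtd.norm_eq_one_iff.mpr h3
  omega

end Pool.Agent.Lib.MP_f4a5b0_an
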